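import Mathlib

set_option linter.unusedSectionVars false
set_option linter.unusedVariables false

open NumberField Polynomial Pointwise

namespace CMW

/-! ### Linear algebra -/

section LA

variable {K : Type*} [Field K] {ι : Type*} [Fintype ι] [DecidableEq ι]

/-- matrix with row i0 equal to v and the other rows given by w -/
def mat {K : Type*} (i0 : ι) (v : ι → K) (w : ι → ι → K) : Matrix ι ι K :=
  Matrix.of fun j => if j = i0 then v else w j

theorem det_span (i0 : ι) (w : ι → ι → K) (z : ι → K)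
    (hz : z ∈ Submodule.span K (w '' {j | j ≠ i0})) : (mat i0 z w).det = 0 := by
  have key : ∀ v : ι → K, mat i0 v w = (mat i0 0 w).updateRow i0 v := by
    intro v
    ext j k
    by_cases h : j = i0
    · subst h; simp [mat]
    · simp [mat, h]
  induction hz using Submodule.span_induction with
  | mem x hx =>
    obtain ⟨j, hj, rfl⟩ := hx
    have hj' : j ≠ i0 := hj
    apply Matrix.det_zero_of_row_eq hj'
    ext k
    simp [mat, hj']
  | zero => 
    rw [key]
    exact Matrix.det_eq_zero_of_row_eq_zero i0 (by intro j; simp)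
  | add x y _ _ hx hy => rw [key] at *; rw [Matrix.det_updateRow_add, hx, hy, add_zero]
  | smul a x _ hx => rw [key] at *; rw [Matrix.det_updateRow_smul, hx, mul_zero]

theorem det_add_smul (i0 : ι) (w : ι → ι → K) (u a : ι → K) (r : K)
    (h : a - r • u ∈ Submodule.span K (w '' {j | j ≠ i0})) :
    (mat i0 a w).det = r * (mat i0 u w).det := by
  have key : ∀ v : ι → K, mat i0 v w = (mat i0 0 w).updateRow i0 v := by
    intro v
    ext j k
    by_cases h : j = i0
    · subst h; simp [mat]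
    · simp [mat, h]
  have h1 : a = r • u + (a - r • u) := by abel
  have h2 := det_span i0 w _ h
  rw [h1, key, Matrix.det_updateRow_add, Matrix.det_updateRow_smul, ← key, ← key, h2, add_zero]

theorem exists_rows (i0 : ι) {Q : Type*} (w : Q → ι → K) (S : Set Q) (u : ι → K)
    (hu : u ∉ Submodule.span K (w '' S)) (hw : ∀ i : ι, ∃ q, w q = Pi.single i 1) :
    ∃ s : ι → Q, (mat i0 u (fun j => w (s j))).det ≠ 0 ∧
      Submodule.span K (w '' S) ≤ Submodule.span K ((fun j => w (s j)) '' {j | j ≠ i0}) := by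
  classical
  obtain ⟨B, hBS, -, hSB, hBli⟩ := exists_linearIndepOn_id_extension
    (K := K) (s := (∅ : Set (ι → K))) (t := w '' S) (linearIndependent_empty K _)
    (Set.empty_subset _)
  have hspan : Submodule.span K B = Submodule.span K (w '' S) :=
    le_antisymm (Submodule.span_mono hBS) (Submodule.span_le.2 hSB)
  have huB : u ∉ Submodule.span K B := by rwa [hspan]
  have hins : LinearIndepOn K id (insert u B : Set (ι → K)) :=
    hBli.id_insert huB
  obtain ⟨B', hB't, hsB', htB', hB'li'⟩ := exists_linearIndepOn_id_extension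
    (K := K) (s := insert u B) (t := insert u (Set.range w)) hins
    (Set.insert_subset_insert (hBS.trans (Set.image_subset_range _ _)))
  have hB'li : LinearIndependent K ((↑) : B' → (ι → K)) := hB'li'
  have htop : ⊤ ≤ Submodule.span K (Set.range ((↑) : B' → (ι → K))) := by
    rw [Subtype.range_coe]
    intro x _
    rw [← Finset.univ_sum_single x]
    refine Submodule.sum_mem _ fun i _ => ?_
    obtain ⟨q, hq⟩ := hw i
    have h1 : w q ∈ Submodule.span K B' := htB' (Set.mem_insert_of_mem _ ⟨q, rfl⟩)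
    have h2 : (Pi.single i (x i) : ι → K) = x i • w q := by
      rw [hq]
      ext k
      by_cases hk : k = i
      · subst hk; simp
      · simp [hk]
    rw [h2]
    exact Submodule.smul_mem _ _ h1
  let bas : Module.Basis B' K (ι → K) := Module.Basis.mk hB'li htop
  let e0 : ι ≃ B' := (Pi.basisFun K ι).indexEquiv bas
  have huB' : u ∈ B' := hsB' (Set.mem_insert _ _)
  let e : ι ≃ B' := e0.trans (Equiv.swap (e0 i0) ⟨u, huB'⟩)
  have he : e i0 = ⟨u, huB'⟩ := by simp [e]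
  have hne : ∀ j, j ≠ i0 → ∃ q, w q = (e j : ι → K) := by
    intro j hj
    have h1 : (e j : ι → K) ∈ insert u (Set.range w) := hB't (e j).2
    rcases h1 with h1 | h1
    · exfalso
      apply hj
      apply e.injective
      rw [he]
      exact Subtype.ext h1
    · exact h1
  obtain ⟨q0, -⟩ := hw i0
  have : Nonempty Q := ⟨q0⟩
  choose! s hs using hne
  have hs' : ∀ j, j ≠ i0 → w (s j) = (e j : ι → K) := hs
  refine ⟨s, ?_, ?_⟩
  · have h1 : (mat i0 u (fun j => w (s j))).row = fun j => (e j : ι → K) := by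
      funext j
      by_cases hj : j = i0
      · subst hj
        ext k
        simp [mat, Matrix.row, he]
      · ext k
        simp [mat, Matrix.row, hj, hs' j hj]
    have h2 : LinearIndependent K (mat i0 u (fun j => w (s j))).row := by
      rw [h1]
      exact hB'li.comp e e.injective
    rw [Matrix.linearIndependent_rows_iff_isUnit, Matrix.isUnit_iff_isUnit_det] at h2
    exact h2.ne_zero
  · rw [← hspan]
    apply Submodule.span_mono
    intro x hx
    have hxB' : x ∈ B' := hsB' (Set.mem_insert_of_mem _ hx)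
    refine ⟨e.symm ⟨x, hxB'⟩, ?_, ?_⟩
    · intro h
      have : (⟨x, hxB'⟩ : B') = ⟨u, huB'⟩ := by rw [← he, ← h]; simp
      have h3 : x = u := congrArg Subtype.val this
      exact huB (h3 ▸ Submodule.subset_span hx)
    · have h4 : e.symm ⟨x, hxB'⟩ ≠ i0 := by
        intro h
        have : (⟨x, hxB'⟩ : B') = ⟨u, huB'⟩ := by rw [← he, ← h]; simp
        have h3 : x = u := congrArg Subtype.val this
        exact huB (h3 ▸ Submodule.subset_span hx)
      simp [hs' _ h4]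

end LA

/-! ### Types -/

theorem exists_type {G : Type*} [Group G] [Finite G] (c : G) (hc : c * c = 1) (hc1 : c ≠ 1)
    (A : Set G) (hA : ∀ σ ∈ A, c * σ ∉ A) :
    ∃ Φ : Finset G, (∀ σ, σ ∈ Φ ↔ c * σ ∉ Φ) ∧ ∀ σ ∈ A, σ ∈ Φ := by
  classical
  have := Fintype.ofFinite G
  let n := Fintype.equivFin G
  have hcc : ∀ σ : G, c * (c * σ) = σ := by intro σ; rw [← mul_assoc, hc, one_mul]
  have hne : ∀ σ : G, c * σ ≠ σ := by
    intro σ h
    exact hc1 (mul_eq_right.1 h)
  refine ⟨Finset.univ.filter fun σ => σ ∈ A ∨ (c * σ ∉ A ∧ n σ < n (c * σ)), ?_, ?_⟩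
  · intro σ
    simp only [Finset.mem_filter, Finset.mem_univ, true_and, hcc]
    constructor
    · rintro (h | ⟨h1, h2⟩)
      · rintro (h' | ⟨h', -⟩)
        · exact hA σ h h'
        · exact h' h
      · rintro (h' | ⟨-, h'⟩)
        · exact h1 h'
        · exact lt_asymm h2 h'
    · intro h
      push Not at h
      obtain ⟨h1, h2⟩ := h
      by_cases hσ : σ ∈ A
      · exact Or.inl hσ
      · right
        refine ⟨h1, ?_⟩
        have h3 := h2 hσ
        rcases lt_or_eq_of_le h3 with h4 | h4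
        · exact h4
        · exact absurd (n.injective h4).symm (hne σ)
  · intro σ hσ
    simp [hσ]

section NT

variable {L : Type*} [Field L] [NumberField L]

theorem int_mem_prime {P : Ideal (𝓞 L)} [P.IsPrime] {p : ℕ} (hp : p.Prime)
    (hpP : (p : 𝓞 L) ∈ P) {n : ℤ} (hn : (n : 𝓞 L) ∈ P) : (p : ℤ) ∣ n := by
  by_contra h
  have hp' : Prime (p : ℤ) := Nat.prime_iff_prime_int.1 hp
  have hco : IsCoprime (p : ℤ) n := (Prime.coprime_iff_not_dvd hp').2 h
  obtain ⟨a, b, hab⟩ := hco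
  have h1 : (1 : 𝓞 L) ∈ P := by
    have h2 : ((a * p + b * n : ℤ) : 𝓞 L) = 1 := by rw [hab]; simp
    rw [← h2]
    push_cast
    exact P.add_mem (P.mul_mem_left _ hpP) (P.mul_mem_left _ hn)
  exact (Ideal.IsPrime.ne_top ‹_›) ((Ideal.eq_top_iff_one P).2 h1)

theorem under_eq {P : Ideal (𝓞 L)} [P.IsPrime] {p : ℕ} (hp : p.Prime)
    (hpP : (p : 𝓞 L) ∈ P) : P.under ℤ = Ideal.span {(p : ℤ)} := by
  ext n
  rw [Ideal.under_def, Ideal.mem_comap, Ideal.mem_span_singleton]
  constructor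
  · intro h
    exact int_mem_prime hp hpP (by simpa using h)
  · rintro ⟨k, rfl⟩
    simp only [map_mul, algebraMap_int_eq, eq_intCast, Int.cast_natCast]
    exact P.mul_mem_right _ hpP

theorem squarefree_p {p : ℕ} (hp : p.Prime) (hur : ¬ (p : ℤ) ∣ NumberField.discr L) :
    Squarefree (Ideal.span {(p : 𝓞 L)}) := by
  classical
  have hp0 : (p : 𝓞 L) ≠ 0 := Nat.cast_ne_zero.2 hp.ne_zero
  have hs0 : Ideal.span {(p : 𝓞 L)} ≠ ⊥ := by
    rw [Ne, Ideal.span_singleton_eq_bot]; exact hp0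
  have hmap : (Ideal.span {(p : ℤ)}).map (algebraMap ℤ (𝓞 L)) = Ideal.span {(p : 𝓞 L)} := by
    rw [Ideal.map_span]; simp
  rw [UniqueFactorizationMonoid.squarefree_iff_nodup_normalizedFactors hs0,
    Multiset.nodup_iff_count_le_one]
  intro Q
  by_cases hQ : Q ∈ UniqueFactorizationMonoid.normalizedFactors (Ideal.span {(p : 𝓞 L)})
  · have hQp : Prime Q := UniqueFactorizationMonoid.prime_of_normalized_factor Q hQ
    have hQd : Q ∣ Ideal.span {(p : 𝓞 L)} := UniqueFactorizationMonoid.dvd_of_mem_normalizedFactors hQ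
    have : Q.IsPrime := Ideal.isPrime_of_prime hQp
    have hQm : Q.IsMaximal := Ideal.IsPrime.isMaximal inferInstance hQp.ne_zero
    have hpQ : (p : 𝓞 L) ∈ Q := Ideal.dvd_iff_le.1 hQd (Ideal.mem_span_singleton_self _)
    have hlo : Q.LiesOver (Ideal.span {(p : ℤ)}) := ⟨(under_eq hp hpQ).symm⟩
    have hp' : Prime (p : ℤ) := Nat.prime_iff_prime_int.1 hp
    have := (NumberField.not_dvd_discr_iff_forall_liesOver L (𝓞 L) hp').1 hur Q hQm hlo
    have h1 : Q.ramificationIdx ℤ = 1 := Ideal.ramificationIdx_eq_one_of_isUnramifiedAt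
    have h2 := Ideal.IsDedekindDomain.ramificationIdx_eq_normalizedFactors_count
      (Ideal.span {(p : ℤ)}) Q (by rw [hmap]; exact hs0)
    rw [hmap, h1] at h2
    exact h2.symm.le
  · rw [Multiset.count_eq_zero_of_notMem hQ]
    exact Nat.zero_le _

theorem prime_eq_span [IsGalois ℚ L] (c : Gal(L/ℚ)) (hc : c * c = 1) (hc1 : c ≠ 1) {p : ℕ}
    (hp : p.Prime) (hur : ¬ (p : ℤ) ∣ NumberField.discr L) (P : Ideal (𝓞 L)) [hP : P.IsPrime]
    (hpP : (p : 𝓞 L) ∈ P) (hcP : c • P ≠ P) {T : Type*} (tp : T → Finset Gal(L/ℚ))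
    (htp : ∀ Φ : Finset Gal(L/ℚ), (∀ σ, σ ∈ Φ ↔ c * σ ∉ Φ) → ∃ t, tp t = Φ) (π : T → 𝓞 L)
    (hπ : ∀ t, ∃ m : ℕ, 1 ≤ m ∧ Ideal.span {π t} = ∏ φ ∈ tp t, (φ⁻¹ • P) ^ m) :
    Ideal.span (insert (p : 𝓞 L) (π '' {t | π t ∈ P})) = P := by
  classical
  set I := Ideal.span (insert (p : 𝓞 L) (π '' {t | π t ∈ P})) with hI
  have hp0 : (p : 𝓞 L) ≠ 0 := Nat.cast_ne_zero.2 hp.ne_zero
  have hIP : I ≤ P := by
    rw [hI, Ideal.span_le]
    rintro x (rfl | ⟨t, ht, rfl⟩)
    · exact hpP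
    · exact ht
  have hpI : (p : 𝓞 L) ∈ I := Ideal.subset_span (Set.mem_insert _ _)
  have hI0 : I ≠ ⊥ := fun h => hp0 (by rw [h] at hpI; simpa using hpI)
  have key : ∀ Q : Ideal (𝓞 L), Q.IsPrime → I ≤ Q → Q = P := by
    intro Q hQ hIQ
    by_contra hne
    have hpQ : (p : 𝓞 L) ∈ Q := hIQ hpI
    have hun : P.under ℤ = Q.under ℤ := by rw [under_eq hp hpP, under_eq hp hpQ]
    obtain ⟨g, hg⟩ := Algebra.IsInvariant.exists_smul_of_under_eq ℤ (𝓞 L) Gal(L/ℚ) P Q hun
    have hA : ∀ σ ∈ ({1} ∪ {σ | ∃ δ : Gal(L/ℚ), δ • P = P ∧ σ = c * (δ * g⁻¹)} :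
        Set Gal(L/ℚ)), c * σ ∉ ({1} ∪ {σ | ∃ δ : Gal(L/ℚ), δ • P = P ∧ σ = c * (δ * g⁻¹)} :
        Set Gal(L/ℚ)) := by
      rintro σ (rfl | ⟨δ, hδ, rfl⟩) (h | ⟨δ', hδ', h⟩)
      · rw [Set.mem_singleton_iff, mul_one] at h
        exact hc1 h
      · rw [mul_one, left_eq_mul, mul_inv_eq_one] at h
        rw [h] at hδ'
        exact hne (by rw [hg, hδ'])
      · rw [Set.mem_singleton_iff, ← mul_assoc, hc, one_mul, mul_inv_eq_one] at h
        rw [h] at hδ
        exact hne (by rw [hg, hδ])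
      · rw [← mul_assoc, hc, one_mul, ← mul_assoc, mul_left_inj] at h
        rw [h, mul_smul, hδ'] at hδ
        exact hcP hδ
    obtain ⟨Φ, hΦ, hAΦ⟩ := exists_type c hc hc1 _ hA
    obtain ⟨t, ht⟩ := htp Φ hΦ
    obtain ⟨m, hm, hs⟩ := hπ t
    rw [ht] at hs
    have h1 : π t ∈ P := by
      have h2 : π t ∈ ∏ φ ∈ Φ, (φ⁻¹ • P) ^ m := by
        rw [← hs]; exact Ideal.mem_span_singleton_self _
      have h3 : (1 : Gal(L/ℚ)) ∈ Φ := hAΦ 1 (Or.inl rfl)
      have h4 : ∏ φ ∈ Φ, (φ⁻¹ • P) ^ m ≤ ((1 : Gal(L/ℚ))⁻¹ • P) ^ m :=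
        Ideal.prod_le_inf.trans (Finset.inf_le h3)
      have h5 := h4 h2
      rw [inv_one, one_smul] at h5
      exact Ideal.pow_le_self (by omega) h5
    have h2 : π t ∈ Q := hIQ (Ideal.subset_span (Set.mem_insert_of_mem _ ⟨t, h1, rfl⟩))
    have h3 : ∏ φ ∈ Φ, (φ⁻¹ • P) ^ m ≤ Q := by
      rw [← hs, Ideal.span_singleton_le_iff_mem]; exact h2
    obtain ⟨φ, hφ, hφQ⟩ := (Ideal.IsPrime.prod_le hQ).1 h3
    have h4 : φ⁻¹ • P ≤ Q := Ideal.IsPrime.le_of_pow_le hφQ
    have hP0 : P ≠ ⊥ := fun h => hp0 (by rw [h] at hpP; simpa using hpP)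
    have h5 : φ⁻¹ • P = Q := by
      have hpr : (φ⁻¹ • P).IsPrime := inferInstance
      have hpφ : (p : 𝓞 L) ∈ φ⁻¹ • P := by
        rw [Ideal.mem_inv_pointwise_smul_iff]
        have : φ • (p : 𝓞 L) = (p : 𝓞 L) := map_natCast (MulSemiringAction.toRingHom _ _ φ) p
        rw [this]
        exact hpP
      have hmax : (φ⁻¹ • P).IsMaximal := Ideal.IsPrime.isMaximal hpr
        (fun h => hp0 (by rw [h] at hpφ; simpa using hpφ))
      exact hmax.eq_of_le hQ.ne_top h4
    have h6 : (φ * g) • P = P := by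
      rw [mul_smul, ← hg, ← h5, smul_inv_smul]
    have h7 : c * φ ∈ Φ := by
      apply hAΦ
      right
      exact ⟨φ * g, h6, by group⟩
    exact ((hΦ φ).1 hφ) h7
  have hdvd : I ∣ Ideal.span {(p : 𝓞 L)} := by
    rw [Ideal.dvd_iff_le, Ideal.span_singleton_le_iff_mem]; exact hpI
  have hsq : Squarefree I := (squarefree_p hp hur).squarefree_of_dvd hdvd
  have hmem : ∀ Q ∈ UniqueFactorizationMonoid.normalizedFactors I, Q = P := by
    intro Q hQ
    have hQp : Prime Q := UniqueFactorizationMonoid.prime_of_normalized_factor Q hQ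
    have hQd : Q ∣ I := UniqueFactorizationMonoid.dvd_of_mem_normalizedFactors hQ
    exact key Q (Ideal.isPrime_of_prime hQp) (Ideal.dvd_iff_le.1 hQd)
  have hrep := Multiset.eq_replicate_of_mem hmem
  have hnd := (UniqueFactorizationMonoid.squarefree_iff_nodup_normalizedFactors hI0).1 hsq
  have hcard : (UniqueFactorizationMonoid.normalizedFactors I).card ≤ 1 := by
    rw [Multiset.nodup_iff_count_le_one] at hnd
    have := hnd P
    rw [hrep, Multiset.count_replicate_self] at this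
    simpa using this
  have hprod : (UniqueFactorizationMonoid.normalizedFactors I).prod = I := by
    have := UniqueFactorizationMonoid.prod_normalizedFactors hI0
    exact associated_iff_eq.1 this
  have hcard' : (UniqueFactorizationMonoid.normalizedFactors I).card = 0 ∨
      (UniqueFactorizationMonoid.normalizedFactors I).card = 1 := by omega
  rcases hcard' with h | h
  · rw [Multiset.card_eq_zero] at h
    rw [h, Multiset.prod_zero] at hprod
    exfalso
    apply hP.ne_top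
    rw [eq_top_iff, ← Ideal.one_eq_top, hprod]
    exact hIP
  · rw [h] at hrep
    rw [hrep] at hprod
    simpa using hprod.symm

end NT

section Coord

variable {L : Type*} [Field L] [NumberField L] {ι : Type*} [Fintype ι] [DecidableEq ι]
  (b : Module.Basis ι ℤ (𝓞 L))

/-- coordinates modulo p -/
noncomputable def red (p : ℕ) (x : 𝓞 L) : ι → ZMod p := fun i => ((b.repr x i : ℤ) : ZMod p)

theorem red_add (p : ℕ) (x y : 𝓞 L) : red b p (x + y) = red b p x + red b p y := by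
  ext i; simp [red]

theorem red_sub (p : ℕ) (x y : 𝓞 L) : red b p (x - y) = red b p x - red b p y := by
  ext i; simp [red]

theorem red_zero (p : ℕ) : red b p (0 : 𝓞 L) = 0 := by
  ext i; simp [red]

theorem red_zsmul (p : ℕ) (n : ℤ) (x : 𝓞 L) : red b p (n • x) = (n : ZMod p) • red b p x := by
  ext i
  simp only [red, Pi.smul_apply, map_zsmul, Finsupp.smul_apply, smul_eq_mul]
  push_cast
  rfl

theorem red_intMul (p : ℕ) (n : ℤ) (x : 𝓞 L) :
    red b p ((n : 𝓞 L) * x) = (n : ZMod p) • red b p x := by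
  rw [← red_zsmul]; simp

theorem red_sum (p : ℕ) {α : Type*} (s : Finset α) (g : α → 𝓞 L) :
    red b p (∑ k ∈ s, g k) = ∑ k ∈ s, red b p (g k) := by
  classical
  induction s using Finset.induction_on with
  | empty => simp [red_zero]
  | insert a s ha ih => rw [Finset.sum_insert ha, Finset.sum_insert ha, red_add, ih]

theorem dvd_of_red (p : ℕ) {x : 𝓞 L} (h : red b p x = 0) : (p : 𝓞 L) ∣ x := by
  have h1 : ∀ i, ∃ k : ℤ, b.repr x i = p * k := by
    intro i
    have h2 := congrFun h i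
    simp only [red, Pi.zero_apply] at h2
    exact (ZMod.intCast_zmod_eq_zero_iff_dvd _ _).1 h2
  choose k hk using h1
  refine ⟨∑ i, k i • b i, ?_⟩
  conv_lhs => rw [← b.sum_repr x]
  rw [Finset.mul_sum]
  refine Finset.sum_congr rfl fun i _ => ?_
  rw [hk i]
  simp only [zsmul_eq_mul]
  push_cast
  ring

variable {T : Type*} (π : T → 𝓞 L)

/-- the rows -/
noncomputable def pool (p : ℕ) : (T × ι) ⊕ ι → (ι → ZMod p) :=
  Sum.elim (fun q => red b p (b q.2 * π q.1)) (fun l => Pi.single l 1)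

theorem red_mem (p : ℕ) (hp : p.Prime) (P : Ideal (𝓞 L)) (y : 𝓞 L)
    (hy : y ∈ Ideal.span (insert (p : 𝓞 L) (π '' {t | π t ∈ P}))) :
    red b p y ∈ Submodule.span (ZMod p) (pool b π p '' (Sum.inl '' {q | π q.1 ∈ P})) := by
  have key : ∀ a : 𝓞 L, red b p (a * y) ∈
      Submodule.span (ZMod p) (pool b π p '' (Sum.inl '' {q | π q.1 ∈ P})) := by
    unfold Ideal.span at hy
    induction hy using Submodule.span_induction with
    | mem x hx =>
      intro a
      rcases hx with rfl | ⟨t, ht, rfl⟩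
      · have h1 : red b p (a * (p : 𝓞 L)) = 0 := by
          rw [mul_comm]
          have := red_intMul b p (p : ℤ) a
          simp only [Int.cast_natCast, CharP.cast_eq_zero, zero_smul] at this
          exact this
        rw [h1]
        exact Submodule.zero_mem _
      · have h1 : a * π t = ∑ i, ((b.repr a i : ℤ) : 𝓞 L) * (b i * π t) := by
          conv_lhs => rw [← b.sum_repr a]
          rw [Finset.sum_mul]
          refine Finset.sum_congr rfl fun i _ => ?_
          simp only [zsmul_eq_mul]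
          ring
        rw [h1, red_sum]
        refine Submodule.sum_mem _ fun i _ => ?_
        rw [red_intMul]
        apply Submodule.smul_mem
        apply Submodule.subset_span
        exact ⟨Sum.inl (t, i), ⟨(t, i), ht, rfl⟩, rfl⟩
    | zero => intro a; simp [red_zero]
    | add x y _ _ hx hy => intro a; rw [mul_add, red_add]; exact Submodule.add_mem _ (hx a) (hy a)
    | smul c x _ hx => intro a; rw [smul_eq_mul, ← mul_assoc]; exact hx _
  simpa using key 1

theorem one_notMem (p : ℕ) (hp : p.Prime) (P : Ideal (𝓞 L)) (hP : P.IsPrime)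
    (hpP : (p : 𝓞 L) ∈ P) :
    red b p 1 ∉ Submodule.span (ZMod p) (pool b π p '' (Sum.inl '' {q | π q.1 ∈ P})) := by
  have key : ∀ v ∈ Submodule.span (ZMod p) (pool b π p '' (Sum.inl '' {q | π q.1 ∈ P})),
      ∃ y ∈ P, red b p y = v := by
    intro v hv
    induction hv using Submodule.span_induction with
    | mem x hx =>
      obtain ⟨_, ⟨q, hq, rfl⟩, rfl⟩ := hx
      exact ⟨b q.2 * π q.1, P.mul_mem_left _ hq, rfl⟩
    | zero => exact ⟨0, P.zero_mem, red_zero b p⟩
    | add x y _ _ hx hy =>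
      obtain ⟨x', hx', rfl⟩ := hx
      obtain ⟨y', hy', rfl⟩ := hy
      exact ⟨x' + y', P.add_mem hx' hy', red_add b p _ _⟩
    | smul c x _ hx =>
      obtain ⟨x', hx', rfl⟩ := hx
      refine ⟨((c.cast : ℤ) : 𝓞 L) * x', P.mul_mem_left _ hx', ?_⟩
      rw [red_intMul]
      congr 1
      exact ZMod.intCast_zmod_cast c
  intro h
  obtain ⟨y, hy, hy1⟩ := key _ h
  have h2 : red b p (1 - y) = 0 := by rw [red_sub, hy1, sub_self]
  obtain ⟨z, hz⟩ := dvd_of_red b p h2
  have h3 : (1 : 𝓞 L) = p * z + y := by rw [← hz]; ring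
  apply hP.ne_top
  rw [Ideal.eq_top_iff_one, h3]
  exact P.add_mem (P.mul_mem_right _ hpP) hy

/-- the universal matrices -/
noncomputable def upoly (i0 : ι) (α : 𝓞 L) (s : ι → (T × ι) ⊕ ι) : MvPolynomial (T × ι) ℤ :=
  (mat i0 (fun l => MvPolynomial.C (b.repr α l))
    (fun j => Sum.elim (fun q l => ∑ k, MvPolynomial.X (q.1, k) *
        MvPolynomial.C (b.repr (b q.2 * b k) l))
      (fun m l => MvPolynomial.C (if l = m then 1 else 0)) (s j))).det

theorem eval_upoly (p : ℕ) (i0 : ι) (α : 𝓞 L) (s : ι → (T × ι) ⊕ ι) :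
    ((MvPolynomial.eval (fun q : T × ι => b.repr (π q.1) q.2) (upoly b i0 α s) : ℤ) : ZMod p) =
      (mat i0 (red b p α) (fun j => pool b π p (s j))).det := by
  have h0 : ∀ z : MvPolynomial (T × ι) ℤ,
      ((MvPolynomial.eval (fun q : T × ι => b.repr (π q.1) q.2) z : ℤ) : ZMod p) =
      ((Int.castRingHom (ZMod p)).comp
        (MvPolynomial.eval (fun q : T × ι => b.repr (π q.1) q.2))) z := fun z => rfl
  rw [h0, upoly, RingHom.map_det]
  congr 1
  ext j l
  by_cases hj : j = i0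
  · subst hj
    simp [mat, red]
  · simp only [RingHom.mapMatrix_apply, Matrix.map_apply, mat, Matrix.of_apply, if_neg hj]
    rcases s j with q | m
    · simp only [Sum.elim_inl, pool, red]
      rw [map_sum]
      simp only [RingHom.comp_apply, map_mul, MvPolynomial.eval_X, MvPolynomial.eval_C]
      have h1 : b q.2 * π q.1 = ∑ k, (b.repr (π q.1) k) • (b q.2 * b k) := by
        conv_lhs => rw [← b.sum_repr (π q.1)]
        rw [Finset.mul_sum]
        refine Finset.sum_congr rfl fun k _ => ?_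
        simp only [zsmul_eq_mul]
        ring
      rw [h1, map_sum, Finsupp.finsetSum_apply, Int.cast_sum]
      refine Finset.sum_congr rfl fun k _ => ?_
      rw [map_zsmul, Finsupp.smul_apply, smul_eq_mul, Int.cast_mul]
      rfl
    · simp only [Sum.elim_inr, pool, RingHom.comp_apply, MvPolynomial.eval_C]
      by_cases hml : l = m
      · subst hml; simp
      · simp [hml]

theorem coord_main (p : ℕ) (hp : p.Prime) (i0 : ι) (P : Ideal (𝓞 L)) (hP : P.IsPrime)
    (hpP : (p : 𝓞 L) ∈ P)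
    (hspan : Ideal.span (insert (p : 𝓞 L) (π '' {t | π t ∈ P})) = P) (α : 𝓞 L) (r : ℤ)
    (hr : α - (r : 𝓞 L) ∈ P) :
    ∃ s : ι → (T × ι) ⊕ ι,
      ¬ (p : ℤ) ∣ MvPolynomial.eval (fun q : T × ι => b.repr (π q.1) q.2) (upoly b i0 1 s) ∧
      (p : ℤ) ∣ r * MvPolynomial.eval (fun q : T × ι => b.repr (π q.1) q.2) (upoly b i0 1 s) -
        MvPolynomial.eval (fun q : T × ι => b.repr (π q.1) q.2) (upoly b i0 α s) := by
  have := Fact.mk hp
  obtain ⟨s, hs1, hs2⟩ := exists_rows i0 (pool b π p) (Sum.inl '' {q | π q.1 ∈ P}) (red b p 1)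
    (one_notMem b π p hp P hP hpP) (fun i => ⟨Sum.inr i, rfl⟩)
  refine ⟨s, ?_, ?_⟩
  · rw [← ZMod.intCast_zmod_eq_zero_iff_dvd, eval_upoly]
    exact hs1
  · rw [← ZMod.intCast_zmod_eq_zero_iff_dvd]
    push_cast
    rw [eval_upoly, eval_upoly, sub_eq_zero, eq_comm]
    apply det_add_smul
    apply hs2
    have h1 : red b p α - (r : ZMod p) • red b p 1 = red b p (α - (r : 𝓞 L)) := by
      rw [red_sub, ← red_intMul, mul_one]
    rw [h1]
    apply red_mem b π p hp P
    rw [hspan]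
    exact hr

end Coord

section Exist

variable {L : Type*} [Field L] [NumberField L] [IsGalois ℚ L]

open Classical in
/-- the product of all conjugates of P is a power of p, the exponent divides the order of the group -/
theorem prod_smul_eq {p : ℕ} (hp : p.Prime) (hur : ¬ (p : ℤ) ∣ NumberField.discr L)
    (P : Ideal (𝓞 L)) [hP : P.IsPrime] (hpP : (p : 𝓞 L) ∈ P) :
    ∃ k : ℕ, 0 < k ∧ k ∣ Fintype.card Gal(L/ℚ) ∧
      ∏ σ : Gal(L/ℚ), σ • P = Ideal.span {(p : 𝓞 L)} ^ k := by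
  have hp0 : (p : 𝓞 L) ≠ 0 := Nat.cast_ne_zero.2 hp.ne_zero
  have hs0 : Ideal.span {(p : 𝓞 L)} ≠ ⊥ := by
    rw [Ne, Ideal.span_singleton_eq_bot]; exact hp0
  have hpσ : ∀ σ : Gal(L/ℚ), (p : 𝓞 L) ∈ σ • P := by
    intro σ
    have h1 := Ideal.smul_mem_pointwise_smul σ _ _ hpP
    have h2 : σ • (p : 𝓞 L) = (p : 𝓞 L) := map_natCast (MulSemiringAction.toRingHom _ _ σ) p
    rwa [h2] at h1
  set S : Finset (Ideal (𝓞 L)) := Finset.univ.image fun σ : Gal(L/ℚ) => σ • P with hS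
  set D : Subgroup Gal(L/ℚ) := MulAction.stabilizer Gal(L/ℚ) P with hD
  have hfib : ∀ Q ∈ S, (Finset.univ.filter fun σ : Gal(L/ℚ) => σ • P = Q).card =
      Fintype.card D := by
    intro Q hQ
    obtain ⟨τ, -, rfl⟩ := Finset.mem_image.1 hQ
    rw [← Finset.card_univ]
    symm
    apply Finset.card_bij (fun (d : D) _ => τ * (d : Gal(L/ℚ)))
    · intro d _
      have hd : (d : Gal(L/ℚ)) • P = P := d.2
      simp [mul_smul, hd]
    · intro d _ d' _ h
      exact Subtype.ext (mul_left_cancel h)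
    · intro σ hσ
      have h1 : σ • P = τ • P := (Finset.mem_filter.1 hσ).2
      refine ⟨⟨τ⁻¹ * σ, ?_⟩, Finset.mem_univ _, by simp⟩
      rw [hD, MulAction.mem_stabilizer_iff, mul_smul, h1, inv_smul_smul]
  have hprod : ∏ σ : Gal(L/ℚ), σ • P = (∏ Q ∈ S, Q) ^ Fintype.card D := by
    have h1 := Finset.prod_comp (s := (Finset.univ : Finset Gal(L/ℚ)))
      (f := fun Q : Ideal (𝓞 L) => Q) (g := fun σ : Gal(L/ℚ) => σ • P)
    rw [h1, ← Finset.prod_pow]
    apply Finset.prod_congr rfl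
    intro Q hQ
    rw [hfib Q hQ]
  have hnf : (UniqueFactorizationMonoid.normalizedFactors (Ideal.span {(p : 𝓞 L)})).toFinset = S := by
    ext Q
    rw [Multiset.mem_toFinset]
    constructor
    · intro hQ
      have hQp : Prime Q := UniqueFactorizationMonoid.prime_of_normalized_factor Q hQ
      have hQd := UniqueFactorizationMonoid.dvd_of_mem_normalizedFactors hQ
      have : Q.IsPrime := Ideal.isPrime_of_prime hQp
      have hpQ : (p : 𝓞 L) ∈ Q := Ideal.dvd_iff_le.1 hQd (Ideal.mem_span_singleton_self _)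
      have hun : P.under ℤ = Q.under ℤ := by rw [under_eq hp hpP, under_eq hp hpQ]
      obtain ⟨g, hg⟩ := Algebra.IsInvariant.exists_smul_of_under_eq ℤ (𝓞 L) Gal(L/ℚ) P Q hun
      rw [hS, Finset.mem_image]
      exact ⟨g, Finset.mem_univ _, hg.symm⟩
    · intro hQ
      obtain ⟨τ, -, rfl⟩ := Finset.mem_image.1 hQ
      have h1 : (τ • P).IsPrime := inferInstance
      have h2 : τ • P ≠ ⊥ := fun h => hp0 (by have := hpσ τ; rw [h] at this; simpa using this)
      rw [UniqueFactorizationMonoid.mem_normalizedFactors_iff' hs0]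
      refine ⟨(Ideal.prime_of_isPrime h2 h1).irreducible, normalize_eq _, ?_⟩
      rw [Ideal.dvd_iff_le, Ideal.span_singleton_le_iff_mem]
      exact hpσ τ
  have hpeq : ∏ Q ∈ S, Q = Ideal.span {(p : 𝓞 L)} := by
    rw [← hnf]
    have hnd := (UniqueFactorizationMonoid.squarefree_iff_nodup_normalizedFactors hs0).1
      (squarefree_p hp hur)
    have h1 := UniqueFactorizationMonoid.prod_normalizedFactors hs0
    rw [associated_iff_eq] at h1
    conv_rhs => rw [← h1]
    rw [Finset.prod, Multiset.toFinset_val, hnd.dedup]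
    simp
  refine ⟨Fintype.card D, Fintype.card_pos, ?_, ?_⟩
  · rw [← Nat.card_eq_fintype_card, ← Nat.card_eq_fintype_card]
    exact Subgroup.card_subgroup_dvd_card D
  · rw [hprod, hpeq]

theorem exists_generator (I : Ideal (𝓞 L)) (hI : I ≠ ⊥) :
    ∃ g : 𝓞 L, Ideal.span {g} = I ^ Nat.card (ClassGroup (𝓞 L)) := by
  set n := Nat.card (ClassGroup (𝓞 L)) with hn
  have h1 : ClassGroup.mk0 ⟨I ^ n, pow_mem (mem_nonZeroDivisors_of_ne_zero hI) n⟩ = 1 := by
    have h2 : ClassGroup.mk0 (⟨I, mem_nonZeroDivisors_of_ne_zero hI⟩ ^ n) =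
        ClassGroup.mk0 ⟨I, mem_nonZeroDivisors_of_ne_zero hI⟩ ^ n := map_pow _ _ _
    have h3 : ClassGroup.mk0 ⟨I, mem_nonZeroDivisors_of_ne_zero hI⟩ ^ n = 1 := pow_card_eq_one'
    rw [h3] at h2
    exact h2
  have h4 := (ClassGroup.mk0_eq_one_iff (pow_mem (mem_nonZeroDivisors_of_ne_zero hI) n)).1 h1
  obtain ⟨g, hg⟩ := h4
  exact ⟨g, hg.symm⟩

theorem exists_norm_eq (c : Gal(L/ℚ)) (hc : c * c = 1) (hcomm : ∀ σ : Gal(L/ℚ), c * σ = σ * c)
    {p : ℕ} (hp : p.Prime) (hur : ¬ (p : ℤ) ∣ NumberField.discr L)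
    (P : Ideal (𝓞 L)) [hP : P.IsPrime] (hpP : (p : 𝓞 L) ∈ P)
    (Φ : Finset Gal(L/ℚ)) (hΦ : ∀ σ, σ ∈ Φ ↔ c * σ ∉ Φ) :
    ∃ (z : 𝓞 L) (m : ℕ), 1 ≤ m ∧ Ideal.span {z} = ∏ φ ∈ Φ, (φ⁻¹ • P) ^ m ∧
      z * (c • z) = (p : 𝓞 L) ^ (2 * Nat.card (ClassGroup (𝓞 L)) * Nat.card Gal(L/ℚ)) := by
  classical
  obtain ⟨k, hk0, ⟨k', hk'⟩, hk⟩ := prod_smul_eq hp hur P hpP
  set h := Nat.card (ClassGroup (𝓞 L)) with hh
  have hh0 : 0 < h := Nat.card_pos
  have hp0 : (p : 𝓞 L) ≠ 0 := Nat.cast_ne_zero.2 hp.ne_zero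
  have hP0 : P ≠ ⊥ := fun h => hp0 (by rw [h] at hpP; simpa using hpP)
  have hcc : ∀ σ : Gal(L/ℚ), c * (c * σ) = σ := by intro σ; rw [← mul_assoc, hc, one_mul]
  have hφP0 : ∀ φ : Gal(L/ℚ), φ⁻¹ • P ≠ ⊥ := by
    intro φ h
    apply hP0
    have h1 := congrArg (fun I : Ideal (𝓞 L) => φ • I) h
    simp only [smul_inv_smul] at h1
    rw [h1]
    exact Ideal.smul_bot φ
  set I := ∏ φ ∈ Φ, φ⁻¹ • P with hI
  have hI0 : I ≠ ⊥ := by
    rw [hI, ← Ideal.zero_eq_bot, Finset.prod_ne_zero_iff]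
    intro φ _
    exact hφP0 φ
  obtain ⟨g, hg⟩ := exists_generator I hI0
  have hcI : c • I = ∏ φ ∈ Φᶜ, φ⁻¹ • P := by
    rw [hI, Finset.smul_prod']
    apply Finset.prod_nbij' (i := fun φ => c * φ) (j := fun φ => c * φ)
    · intro φ hφ
      rw [Finset.mem_compl]
      exact (hΦ φ).1 hφ
    · intro φ hφ
      rw [Finset.mem_compl] at hφ
      by_contra h
      exact hφ ((hΦ φ).2 h)
    · intro φ _; exact hcc φ
    · intro φ _; exact hcc φ
    · intro φ _
      rw [← mul_smul]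
      congr 1
      rw [hcomm, mul_inv_rev, inv_eq_of_mul_eq_one_right hc]
  have hIcI : I * (c • I) = Ideal.span {(p : 𝓞 L)} ^ k := by
    rw [hcI, hI, Finset.prod_mul_prod_compl, ← hk]
    exact Fintype.prod_equiv (Equiv.inv _) _ _ (fun σ => rfl)
  have hcg : Ideal.span {c • g} = (c • I) ^ h := by
    have h1 : c • Ideal.span {g} = Ideal.span {c • g} := by
      rw [Ideal.pointwise_smul_def, Ideal.map_span, Set.image_singleton]
      rfl
    rw [← h1, hg]
    exact smul_pow' _ _ _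
  have hspan : Ideal.span {g * (c • g)} = Ideal.span {(p : 𝓞 L) ^ (k * h)} := by
    rw [← Ideal.span_singleton_mul_span_singleton, hg, hcg, ← mul_pow, hIcI, ← pow_mul,
      Ideal.span_singleton_pow]
  obtain ⟨u, hu⟩ := Ideal.span_singleton_eq_span_singleton.1 hspan.symm
  -- hu : p ^ (k*h) * u = g * c • g
  have hpn : (p : 𝓞 L) ^ (k * h) ≠ 0 := pow_ne_zero _ hp0
  have hcp : ∀ n : ℕ, c • ((p : 𝓞 L) ^ n) = (p : 𝓞 L) ^ n := by
    intro n
    have h2 : c • (p : 𝓞 L) = (p : 𝓞 L) := map_natCast (MulSemiringAction.toRingHom _ _ c) p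
    rw [smul_pow', h2]
  have hcu : c • (u : 𝓞 L) = u := by
    have h1 := congrArg (fun x : 𝓞 L => c • x) hu
    simp only [smul_mul', ← mul_smul, hc, one_smul] at h1
    rw [hcp, mul_comm (c • g) g, ← hu] at h1
    exact mul_left_cancel₀ hpn h1
  have huv : (u : 𝓞 L) * ((u⁻¹ : (𝓞 L)ˣ) : 𝓞 L) = 1 := u.mul_inv
  have hcv : c • ((u⁻¹ : (𝓞 L)ˣ) : 𝓞 L) = ((u⁻¹ : (𝓞 L)ˣ) : 𝓞 L) := by
    have h1 := congrArg (fun x : 𝓞 L => c • x) huv
    simp only [smul_mul', smul_one, hcu] at h1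
    rw [← huv] at h1
    exact mul_left_cancel₀ u.ne_zero h1
  refine ⟨(g ^ 2 * ((u⁻¹ : (𝓞 L)ˣ) : 𝓞 L)) ^ k', 2 * h * k', ?_, ?_, ?_⟩
  · have : k' ≠ 0 := by
      rintro rfl
      rw [mul_zero] at hk'
      exact Fintype.card_ne_zero hk'
    have h3 : 0 < 2 * h * k' := by positivity
    omega
  · rw [Finset.prod_pow, ← hI, ← Ideal.span_singleton_pow, pow_mul, pow_mul']
    congr 1
    rw [← hg, Ideal.span_singleton_pow]
    exact (Ideal.span_singleton_mul_right_unit u⁻¹.isUnit _)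
  · rw [smul_pow', ← mul_pow, smul_mul', smul_pow', hcv]
    have h4 : g ^ 2 * ((u⁻¹ : (𝓞 L)ˣ) : 𝓞 L) * ((c • g) ^ 2 * ((u⁻¹ : (𝓞 L)ˣ) : 𝓞 L)) =
        (p : 𝓞 L) ^ (2 * k * h) := by
      have h5 : g ^ 2 * ((u⁻¹ : (𝓞 L)ˣ) : 𝓞 L) * ((c • g) ^ 2 * ((u⁻¹ : (𝓞 L)ˣ) : 𝓞 L)) =
        (g * (c • g)) ^ 2 * ((u⁻¹ : (𝓞 L)ˣ) : 𝓞 L) ^ 2 := by ring
      rw [h5, ← hu]
      have h6 : ((p : 𝓞 L) ^ (k * h) * u) ^ 2 * ((u⁻¹ : (𝓞 L)ˣ) : 𝓞 L) ^ 2 =
        ((p : 𝓞 L) ^ (k * h)) ^ 2 * (u * ((u⁻¹ : (𝓞 L)ˣ) : 𝓞 L)) ^ 2 := by ring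
      rw [h6, huv, one_pow, mul_one, ← pow_mul]
      congr 1
      ring
    rw [h4, ← pow_mul]
    congr 1
    rw [Nat.card_eq_fintype_card (α := Gal(L/ℚ)), hk']
    ring

end Exist

end CMW
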