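import Mathlib

open NumberField Polynomial

namespace Pool.Agent.Lib.MP_6ac54e_lc.NoF

/-- homogenised value of `f` at `(a, b)` -/
def hv {S : Type*} [CommRing S] (f : ℤ[X]) (a b : S) : S :=
  ∑ k ∈ Finset.range (f.natDegree + 1), (f.coeff k : S) * a ^ k * b ^ (f.natDegree - k)

theorem map_hv {S T : Type*} [CommRing S] [CommRing T] (φ : S →+* T) (f : ℤ[X]) (a b : S) :
    φ (hv f a b) = hv f (φ a) (φ b) := by
  simp [hv, map_sum]

theorem hv_mul {S : Type*} [CommRing S] (f : ℤ[X]) (r b : S) :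
    hv f (r * b) b = b ^ f.natDegree * aeval r f := by
  rw [aeval_eq_sum_range, Finset.mul_sum, hv]
  refine Finset.sum_congr rfl fun k hk => ?_
  have hk' : k ≤ f.natDegree := Nat.lt_succ_iff.1 (Finset.mem_range.1 hk)
  rw [zsmul_eq_mul, mul_pow]
  calc (f.coeff k : S) * (r ^ k * b ^ k) * b ^ (f.natDegree - k)
      = (b ^ k * b ^ (f.natDegree - k)) * ((f.coeff k : S) * r ^ k) := by ring
    _ = _ := by rw [← pow_add, Nat.add_sub_cancel' hk']

theorem hv_ne_zero {K : Type*} [Field K] {f : ℤ[X]} (hf : ∀ θ : K, aeval θ f ≠ 0) (a b : K)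
    (hb : b ≠ 0) : hv f a b ≠ 0 := by
  have h := hv_mul f (a / b) b
  rw [div_mul_cancel₀ a hb] at h
  rw [h]
  exact mul_ne_zero (pow_ne_zero _ hb) (hf _)

/-- polynomials have polynomial growth -/
theorem growth {n : ℕ} (G : MvPolynomial (Fin n) ℤ) : ∃ C K : ℕ, ∀ t : ℝ, 1 ≤ t →
    ∀ z : Fin n → ℂ, (∀ i, ‖z i‖ ≤ t) → ‖MvPolynomial.aeval z G‖ ≤ C * t ^ K := by
  induction G using MvPolynomial.induction_on with
  | C a =>
    refine ⟨a.natAbs, 0, fun t ht z hz => ?_⟩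
    simp [Nat.cast_natAbs]
  | add p q hp hq =>
    obtain ⟨C1, K1, h1⟩ := hp
    obtain ⟨C2, K2, h2⟩ := hq
    refine ⟨C1 + C2, K1 + K2, fun t ht z hz => ?_⟩
    rw [map_add]
    refine (norm_add_le _ _).trans ?_
    have e1 : t ^ K1 ≤ t ^ (K1 + K2) := pow_le_pow_right₀ ht (Nat.le_add_right _ _)
    have e2 : t ^ K2 ≤ t ^ (K1 + K2) := pow_le_pow_right₀ ht (Nat.le_add_left _ _)
    calc _ ≤ C1 * t ^ K1 + C2 * t ^ K2 := add_le_add (h1 t ht z hz) (h2 t ht z hz)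
      _ ≤ C1 * t ^ (K1 + K2) + C2 * t ^ (K1 + K2) := by gcongr
      _ = _ := by push_cast; ring
  | mul_X p i hp =>
    obtain ⟨C1, K1, h1⟩ := hp
    refine ⟨C1, K1 + 1, fun t ht z hz => ?_⟩
    rw [map_mul, MvPolynomial.aeval_X, norm_mul]
    calc _ ≤ (C1 * t ^ K1) * t := mul_le_mul (h1 t ht z hz) (hz i) (norm_nonneg _) (by positivity)
      _ = _ := by ring

variable {L : Type*} [Field L] [NumberField L]

/-- norm bound by a bound for all conjugates -/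
theorem absNorm_le (Y : 𝓞 L) (T : ℝ) (hT : ∀ σ : L →+* ℂ, ‖σ (Y : L)‖ ≤ T) :
    ((Ideal.absNorm (Ideal.span {Y}) : ℕ) : ℝ) ≤ T ^ Module.finrank ℚ L := by
  have h0 : 0 ≤ T := (norm_nonneg _).trans (hT (Classical.choice inferInstance))
  have h1 : ((Ideal.absNorm (Ideal.span {Y}) : ℕ) : ℝ) = |((Algebra.norm ℚ (Y : L) : ℚ) : ℝ)| := by
    rw [Ideal.absNorm_span_singleton, Nat.cast_natAbs, ← Algebra.coe_norm_int]
    push_cast
    rfl
  have h2 : |((Algebra.norm ℚ (Y : L) : ℚ) : ℝ)| = ∏ σ : L →ₐ[ℚ] ℂ, ‖σ (Y : L)‖ := by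
    rw [← norm_prod, ← Algebra.norm_eq_prod_embeddings ℚ ℂ (Y : L)]
    simp
  rw [h1, h2]
  calc ∏ σ : L →ₐ[ℚ] ℂ, ‖σ (Y : L)‖ ≤ ∏ σ : L →ₐ[ℚ] ℂ, T :=
        Finset.prod_le_prod (fun _ _ => norm_nonneg _) fun σ _ => hT σ
    _ = _ := by
        rw [Finset.prod_const, Finset.card_univ, AlgHom.card]


/-- the point `(-(∑ c_i e_i), c_1, …, c_m)` -/
def pt {m : ℕ} (e : Fin m → 𝓞 L) (c : Fin m → ℤ) : Fin (m + 1) → 𝓞 L :=
  Fin.cons (-(∑ i, (c i : 𝓞 L) * e i)) fun i => (c i : 𝓞 L)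

theorem norm_pt {m : ℕ} (e : Fin m → 𝓞 L) : ∃ B : ℕ, 1 ≤ B ∧ ∀ t : ℝ, 1 ≤ t → ∀ c : Fin m → ℤ,
    (∀ i, |(c i : ℝ)| ≤ t) → ∀ σ : L →+* ℂ, ∀ j, ‖σ (pt e c j : L)‖ ≤ B * t := by
  set S : ℝ := ∑ σ : L →+* ℂ, ∑ i, ‖σ (e i : L)‖ with hS
  have hS0 : 0 ≤ S := Finset.sum_nonneg fun _ _ => Finset.sum_nonneg fun _ _ => norm_nonneg _
  refine ⟨⌈S⌉₊ + 1, by omega, fun t ht c hc σ j => ?_⟩
  have hB : S ≤ ((⌈S⌉₊ + 1 : ℕ) : ℝ) := by
    push_cast
    linarith [Nat.le_ceil S]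
  have hB1 : (1 : ℝ) ≤ ((⌈S⌉₊ + 1 : ℕ) : ℝ) := by
    push_cast
    have : (0 : ℝ) ≤ (⌈S⌉₊ : ℝ) := Nat.cast_nonneg _
    linarith
  refine Fin.cases ?_ (fun i => ?_) j
  · have h1 : (pt e c 0 : 𝓞 L) = -(∑ i, (c i : 𝓞 L) * e i) := rfl
    rw [h1]
    have h2 : σ ((-(∑ i, (c i : 𝓞 L) * e i) : 𝓞 L) : L) = -∑ i, (c i : ℂ) * σ (e i : L) := by
      simp [map_sum, map_neg]
    rw [h2, norm_neg]
    calc ‖∑ i, (c i : ℂ) * σ (e i : L)‖ ≤ ∑ i, ‖(c i : ℂ) * σ (e i : L)‖ := norm_sum_le _ _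
      _ ≤ ∑ i, t * ‖σ (e i : L)‖ := by
          refine Finset.sum_le_sum fun i _ => ?_
          rw [norm_mul]
          refine mul_le_mul_of_nonneg_right ?_ (norm_nonneg _)
          rw [Complex.norm_intCast]
          exact hc i
      _ = t * ∑ i, ‖σ (e i : L)‖ := by rw [Finset.mul_sum]
      _ ≤ t * S := by
          refine mul_le_mul_of_nonneg_left ?_ (by linarith)
          exact Finset.single_le_sum (f := fun σ : L →+* ℂ => ∑ i, ‖σ (e i : L)‖)
            (fun _ _ => Finset.sum_nonneg fun _ _ => norm_nonneg _) (Finset.mem_univ σ)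
      _ ≤ t * ((⌈S⌉₊ + 1 : ℕ) : ℝ) := mul_le_mul_of_nonneg_left hB (by linarith)
      _ = _ := mul_comm _ _
  · have h1 : (pt e c i.succ : 𝓞 L) = (c i : 𝓞 L) := rfl
    rw [h1]
    have h2 : σ ((c i : 𝓞 L) : L) = (c i : ℂ) := by simp
    rw [h2, Complex.norm_intCast]
    calc |(c i : ℝ)| ≤ t := hc i
      _ = 1 * t := (one_mul t).symm
      _ ≤ _ := mul_le_mul_of_nonneg_right hB1 (by linarith)

theorem growthW {m : ℕ} (e : Fin m → 𝓞 L) (G : MvPolynomial (Fin (m + 1)) ℤ) :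
    ∃ C K : ℕ, ∀ t : ℝ, 1 ≤ t → ∀ c : Fin m → ℤ, (∀ i, |(c i : ℝ)| ≤ t) →
      ((Ideal.absNorm (Ideal.span {MvPolynomial.aeval (pt e c) G}) : ℕ) : ℝ) ≤ C * t ^ K := by
  obtain ⟨B, hB, h1⟩ := norm_pt e
  obtain ⟨C, K, h2⟩ := growth G
  refine ⟨(C * B ^ K) ^ Module.finrank ℚ L, K * Module.finrank ℚ L, fun t ht c hc => ?_⟩
  have hB' : (1 : ℝ) ≤ B := by exact_mod_cast hB
  have h3 := absNorm_le (MvPolynomial.aeval (pt e c) G) (C * (B * t) ^ K) fun σ => by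
    have h4 : σ ((MvPolynomial.aeval (pt e c) G : 𝓞 L) : L) =
        MvPolynomial.aeval (fun j => σ (pt e c j : L)) G := by
      have := MvPolynomial.map_aeval (pt e c) (σ.comp (algebraMap (𝓞 L) L)) G
      rw [MvPolynomial.coe_eval₂Hom] at this
      simp only [RingHom.comp_apply] at this
      refine this.trans ?_
      rw [MvPolynomial.aeval_def]
      congr 1
      exact Subsingleton.elim _ _
    rw [h4]
    refine h2 (B * t) ?_ _ fun i => h1 t ht c hc σ i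
    nlinarith
  refine h3.trans (le_of_eq ?_)
  push_cast
  rw [mul_pow, mul_pow, mul_pow, pow_mul]
  ring

theorem kappa_pt {m p : ℕ} (e : Fin m → 𝓞 L) (κ : 𝓞 L →+* ZMod p) (c0 : ℤ) (c : Fin m → ℤ)
    (h0 : κ (c0 + ∑ i, (c i : 𝓞 L) * e i) = 0) (G : MvPolynomial (Fin (m + 1)) ℤ) :
    κ (MvPolynomial.aeval (pt e c) G) =
      ((MvPolynomial.eval (Fin.cons c0 c : Fin (m + 1) → ℤ) G : ℤ) : ZMod p) := by
  have h1 : (fun j => κ (pt e c j)) =
      fun j => (((Fin.cons c0 c : Fin (m + 1) → ℤ) j : ℤ) : ZMod p) := by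
    funext j
    refine Fin.cases ?_ (fun i => ?_) j
    · have h2 : (pt e c 0 : 𝓞 L) = -(∑ i, (c i : 𝓞 L) * e i) := rfl
      rw [h2, map_neg, Fin.cons_zero]
      rw [map_add, map_intCast] at h0
      rw [neg_eq_iff_add_eq_zero, add_comm]
      exact h0
    · have h2 : (pt e c i.succ : 𝓞 L) = (c i : 𝓞 L) := rfl
      rw [h2, Fin.cons_succ, map_intCast]
  have h3 := MvPolynomial.map_aeval (pt e c) κ G
  rw [h3, h1]
  have h4 := MvPolynomial.eval₂_comp_left (Int.castRingHom (ZMod p)) (RingHom.id ℤ)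
    (Fin.cons c0 c : Fin (m + 1) → ℤ) G
  refine Eq.trans ?_ h4.symm
  rw [MvPolynomial.coe_eval₂Hom]
  congr 1
  exact Subsingleton.elim _ _

theorem card_primeFactors_le (W : ℕ) (hW : W ≠ 0) :
    (W.primeFactors.card : ℝ) ≤ Real.log W / Real.log 2 := by
  have h1 : 2 ^ W.primeFactors.card ≤ W := by
    calc 2 ^ W.primeFactors.card = ∏ p ∈ W.primeFactors, 2 := by simp
      _ ≤ ∏ p ∈ W.primeFactors, p :=
          Finset.prod_le_prod' fun p hp => (Nat.prime_of_mem_primeFactors hp).two_le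
      _ ≤ W := Nat.le_of_dvd (Nat.pos_of_ne_zero hW) (Nat.prod_primeFactors_dvd W)
  have h2 : (0 : ℝ) < Real.log 2 := Real.log_pos (by norm_num)
  rw [le_div_iff₀ h2, ← Real.log_pow]
  apply Real.log_le_log (by positivity)
  exact_mod_cast h1

theorem count {m : ℕ} (e : Fin m → 𝓞 L) (f : ℤ[X]) (hf : ∀ θ : L, aeval θ f ≠ 0)
    (R : Finset (MvPolynomial (Fin (m + 1)) ℤ × MvPolynomial (Fin (m + 1)) ℤ)) :
    ∃ C : ℝ, 0 ≤ C ∧ ∀ X : ℝ, 2 ≤ X → ∀ H : ℕ, 1 ≤ H → (H : ℝ) ≤ X → ∀ S : Finset ℕ,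
      (∀ p ∈ S, p.Prime ∧ ∃ (κ : 𝓞 L →+* ZMod p) (c0 : ℤ) (c : Fin m → ℤ),
        (∀ i, |c i| ≤ H) ∧ κ (c0 + ∑ i, (c i : 𝓞 L) * e i) = 0 ∧ ∃ AB ∈ R,
          ¬ (p : ℤ) ∣ MvPolynomial.eval (Fin.cons c0 c : Fin (m + 1) → ℤ) AB.2 ∧
          (p : ℤ) ∣ hv f (MvPolynomial.eval (Fin.cons c0 c : Fin (m + 1) → ℤ) AB.1)
            (MvPolynomial.eval (Fin.cons c0 c : Fin (m + 1) → ℤ) AB.2)) →
      (S.card : ℝ) ≤ C * (H : ℝ) ^ m * Real.log X := by
  classical
  have hg : ∀ AB : MvPolynomial (Fin (m + 1)) ℤ × MvPolynomial (Fin (m + 1)) ℤ, ∃ C K : ℕ,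
      ∀ t : ℝ, 1 ≤ t → ∀ c : Fin m → ℤ, (∀ i, |(c i : ℝ)| ≤ t) →
      ((Ideal.absNorm (Ideal.span {MvPolynomial.aeval (pt e c) (hv f AB.1 AB.2)}) : ℕ) : ℝ) ≤
        C * t ^ K := fun AB => growthW e (hv f AB.1 AB.2)
  choose CC KK hCK using hg
  let C' : MvPolynomial (Fin (m + 1)) ℤ × MvPolynomial (Fin (m + 1)) ℤ → ℝ := fun AB =>
    (Real.log (CC AB + 1) / Real.log 2 + KK AB) / Real.log 2
  have hl2 : (0 : ℝ) < Real.log 2 := Real.log_pos (by norm_num)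
  have hC'0 : ∀ AB, 0 ≤ C' AB := by
    intro AB
    have : 0 ≤ Real.log ((CC AB : ℝ) + 1) := Real.log_nonneg (by
      have : (0 : ℝ) ≤ CC AB := Nat.cast_nonneg _
      linarith)
    positivity
  refine ⟨3 ^ m * ∑ AB ∈ R, C' AB, ?_, ?_⟩
  · exact mul_nonneg (by positivity) (Finset.sum_nonneg fun AB _ => hC'0 AB)
  intro X hX H hH hHX S hS
  set box : Finset (Fin m → ℤ) := Fintype.piFinset fun _ => Finset.Icc (-(H : ℤ)) H with hbox
  let W : MvPolynomial (Fin (m + 1)) ℤ × MvPolynomial (Fin (m + 1)) ℤ → (Fin m → ℤ) → ℕ :=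
    fun AB c => Ideal.absNorm (Ideal.span {MvPolynomial.aeval (pt e c) (hv f AB.1 AB.2)})
  have hcov : S ⊆ R.biUnion fun AB => box.biUnion fun c => (W AB c).primeFactors := by
    intro p hp
    obtain ⟨hpp, κ, c0, c, hc, h0, AB, hAB, h1, h2⟩ := hS p hp
    rw [Finset.mem_biUnion]
    refine ⟨AB, hAB, ?_⟩
    rw [Finset.mem_biUnion]
    refine ⟨c, ?_, ?_⟩
    · rw [hbox, Fintype.mem_piFinset]
      intro i
      rw [Finset.mem_Icc]
      exact abs_le.1 (hc i)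
    · have : Fact p.Prime := ⟨hpp⟩
      have h3 : (MvPolynomial.aeval (pt e c) AB.2 : 𝓞 L) ≠ 0 := by
        intro h
        apply h1
        have h4 := kappa_pt e κ c0 c h0 AB.2
        rw [h, map_zero] at h4
        exact (ZMod.intCast_zmod_eq_zero_iff_dvd _ p).1 h4.symm
      have h4 : (MvPolynomial.aeval (pt e c) (hv f AB.1 AB.2) : 𝓞 L) ≠ 0 := by
        have e1 : (MvPolynomial.aeval (pt e c) (hv f AB.1 AB.2) : 𝓞 L) =
            hv f (MvPolynomial.aeval (pt e c) AB.1) (MvPolynomial.aeval (pt e c) AB.2) :=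
          map_hv (MvPolynomial.aeval (pt e c) : MvPolynomial (Fin (m + 1)) ℤ →ₐ[ℤ] 𝓞 L).toRingHom
            f AB.1 AB.2
        rw [e1]
        intro h
        have h5 := congrArg (algebraMap (𝓞 L) L) h
        rw [map_hv, map_zero] at h5
        refine hv_ne_zero hf _ _ ?_ h5
        intro h6
        exact h3 ((FaithfulSMul.algebraMap_eq_zero_iff (𝓞 L) L).1 h6)
      have h5 : κ (MvPolynomial.aeval (pt e c) (hv f AB.1 AB.2)) = 0 := by
        rw [kappa_pt e κ c0 c h0]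
        have e2 : MvPolynomial.eval (Fin.cons c0 c : Fin (m + 1) → ℤ) (hv f AB.1 AB.2) =
            hv f (MvPolynomial.eval (Fin.cons c0 c : Fin (m + 1) → ℤ) AB.1)
              (MvPolynomial.eval (Fin.cons c0 c : Fin (m + 1) → ℤ) AB.2) :=
          map_hv (MvPolynomial.eval (Fin.cons c0 c : Fin (m + 1) → ℤ)) f AB.1 AB.2
        rw [e2]
        exact (ZMod.intCast_zmod_eq_zero_iff_dvd _ p).2 h2
      have h6 : W AB c ≠ 0 := by
        intro h
        rw [Ideal.absNorm_eq_zero_iff, Ideal.span_singleton_eq_bot] at h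
        exact h4 h
      refine Nat.mem_primeFactors.2 ⟨hpp, ?_, h6⟩
      have h7 : ((W AB c : ℕ) : 𝓞 L) ∈ Ideal.span
          {(MvPolynomial.aeval (pt e c) (hv f AB.1 AB.2) : 𝓞 L)} := Ideal.absNorm_mem _
      obtain ⟨y, hy⟩ := Ideal.mem_span_singleton.1 h7
      have h8 := congrArg κ hy
      rw [map_mul, h5, zero_mul, map_natCast] at h8
      exact (ZMod.natCast_eq_zero_iff _ _).1 h8
  have hcard : (S.card : ℝ) ≤ ∑ AB ∈ R, ∑ c ∈ box, ((W AB c).primeFactors.card : ℝ) := by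
    have h1 := (Finset.card_le_card hcov).trans Finset.card_biUnion_le
    have h2 : ∑ AB ∈ R, (box.biUnion fun c => (W AB c).primeFactors).card ≤
        ∑ AB ∈ R, ∑ c ∈ box, (W AB c).primeFactors.card :=
      Finset.sum_le_sum fun AB _ => Finset.card_biUnion_le
    exact_mod_cast h1.trans h2
  have hX1 : 0 < Real.log X := Real.log_pos (by linarith)
  have hlX : Real.log 2 ≤ Real.log X := Real.log_le_log (by norm_num) hX
  have hH1 : (1 : ℝ) ≤ H := by exact_mod_cast hH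
  have hone : ∀ AB ∈ R, ∀ c ∈ box, ((W AB c).primeFactors.card : ℝ) ≤ C' AB * Real.log X := by
    intro AB _ c hc
    by_cases h0 : W AB c = 0
    · rw [h0]
      simp only [Nat.primeFactors_zero, Finset.card_empty, Nat.cast_zero]
      exact mul_nonneg (hC'0 AB) hX1.le
    · have h1 := card_primeFactors_le (W AB c) h0
      have h2 : ((W AB c : ℕ) : ℝ) ≤ (CC AB + 1) * X ^ KK AB := by
        have h3 := hCK AB H hH1 c (by
          intro i
          rw [hbox, Fintype.mem_piFinset] at hc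
          have := Finset.mem_Icc.1 (hc i)
          have h4 : |c i| ≤ H := abs_le.2 this
          exact_mod_cast h4)
        refine h3.trans ?_
        have h5 : (0 : ℝ) ≤ CC AB := Nat.cast_nonneg _
        have h6 : (H : ℝ) ^ KK AB ≤ X ^ KK AB := pow_le_pow_left₀ (by linarith) hHX _
        have h7 : (0 : ℝ) ≤ X ^ KK AB := by positivity
        nlinarith
      have hW1 : (0 : ℝ) < (W AB c : ℕ) := by exact_mod_cast Nat.pos_of_ne_zero h0
      have h3 := Real.log_le_log hW1 h2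
      have hcc : (0 : ℝ) < (CC AB : ℝ) + 1 := by
        have : (0 : ℝ) ≤ CC AB := Nat.cast_nonneg _
        linarith
      rw [Real.log_mul hcc.ne' (by positivity), Real.log_pow] at h3
      have h4 : 0 ≤ Real.log ((CC AB : ℝ) + 1) := Real.log_nonneg (by
        have : (0 : ℝ) ≤ CC AB := Nat.cast_nonneg _
        linarith)
      calc ((W AB c).primeFactors.card : ℝ) ≤ Real.log (W AB c : ℕ) / Real.log 2 := h1
        _ ≤ (Real.log (CC AB + 1) + KK AB * Real.log X) / Real.log 2 := by gcongr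
        _ ≤ (Real.log (CC AB + 1) / Real.log 2 * Real.log X + KK AB * Real.log X) /
            Real.log 2 := by
            have : Real.log ((CC AB : ℝ) + 1) ≤
                Real.log ((CC AB : ℝ) + 1) / Real.log 2 * Real.log X := by
              rw [div_mul_eq_mul_div, le_div_iff₀ hl2]
              exact mul_le_mul_of_nonneg_left hlX h4
            gcongr
        _ = C' AB * Real.log X := by
            simp only [C']
            ring
  have hboxcard : (box.card : ℝ) ≤ 3 ^ m * (H : ℝ) ^ m := by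
    rw [hbox, Fintype.card_piFinset]
    simp only [Finset.prod_const, Finset.card_univ, Fintype.card_fin, Int.card_Icc]
    have h1 : ((H : ℤ) + 1 - -(H : ℤ)).toNat = 2 * H + 1 := by omega
    rw [h1, ← mul_pow]
    push_cast
    refine pow_le_pow_left₀ (by positivity) ?_ _
    linarith
  calc (S.card : ℝ) ≤ ∑ AB ∈ R, ∑ c ∈ box, ((W AB c).primeFactors.card : ℝ) := hcard
    _ ≤ ∑ AB ∈ R, ∑ c ∈ box, C' AB * Real.log X :=
        Finset.sum_le_sum fun AB hAB => Finset.sum_le_sum fun c hc => hone AB hAB c hc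
    _ = box.card * ((∑ AB ∈ R, C' AB) * Real.log X) := by
        simp only [Finset.sum_const, nsmul_eq_mul, Finset.sum_mul, Finset.mul_sum]
    _ ≤ (3 ^ m * (H : ℝ) ^ m) * ((∑ AB ∈ R, C' AB) * Real.log X) := by
        refine mul_le_mul_of_nonneg_right hboxcard ?_
        exact mul_nonneg (Finset.sum_nonneg fun AB _ => hC'0 AB) hX1.le
    _ = _ := by ring

end Pool.Agent.Lib.MP_6ac54e_lc.NoF
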