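import Mathlib
import Pool.Agent.Lib.MP_6ac54e_lc.NoCount

open NumberField Polynomial

namespace Pool.Agent.Lib.MP_6ac54e_lc.NoF

/-- A list each of whose members is the sum, difference, product or quotient of two elements which
belong to `A` or stand to the right of it in the list. -/
inductive Run {F : Type*} [Field F] (A : Set F) : List F → Prop
  | nil : Run A []
  | cons {l : List F} {x y z : F} : Run A l → (x ∈ A ∨ x ∈ l) → (y ∈ A ∨ y ∈ l) →
      (z = x + y ∨ z = x - y ∨ z = x * y ∨ z = x / y) → Run A (z :: l)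

section lifts

variable {O : Type*} [CommRing O] [DecidableEq O]

/-- operations on fractions -/
def op : Fin 5 → O × O → O × O → O × O
  | 0, u, v => (u.1 * v.2 + v.1 * u.2, u.2 * v.2)
  | 1, u, v => (u.1 * v.2 - v.1 * u.2, u.2 * v.2)
  | 2, u, v => (u.1 * v.1, u.2 * v.2)
  | 3, u, v => (u.1 * v.2, u.2 * v.1)
  | 4, _, _ => (0, 1)

/-- all lists arising by one more operation -/
def nexts (I : Finset (O × O)) (w : List (O × O)) : Finset (List (O × O)) :=
  (((I ∪ w.toFinset) ×ˢ (I ∪ w.toFinset)) ×ˢ (Finset.univ : Finset (Fin 5))).image fun t =>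
    op t.2 t.1.1 t.1.2 :: w

/-- all lists arising by `t` operations -/
def lifts (I : Finset (O × O)) : ℕ → Finset (List (O × O))
  | 0 => {[]}
  | t + 1 => (lifts I t).biUnion (nexts I)

theorem length_of_mem_lifts (I : Finset (O × O)) (t : ℕ) (w : List (O × O))
    (hw : w ∈ lifts I t) : w.length = t := by
  induction t generalizing w with
  | zero =>
    rw [lifts, Finset.mem_singleton] at hw
    subst hw
    rfl
  | succ t ih =>
    rw [lifts, Finset.mem_biUnion] at hw
    obtain ⟨w', hw', h⟩ := hw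
    rw [nexts, Finset.mem_image] at h
    obtain ⟨q, -, rfl⟩ := h
    rw [List.length_cons, ih w' hw']

theorem card_union_le' (I : Finset (O × O)) (t : ℕ) (w : List (O × O)) (hw : w ∈ lifts I t) :
    (I ∪ w.toFinset).card ≤ I.card + t := by
  refine (Finset.card_union_le _ _).trans ?_
  have h1 := w.toFinset_card_le
  rw [length_of_mem_lifts I t w hw] at h1
  omega

theorem card_lifts_le (I : Finset (O × O)) (t : ℕ) :
    (lifts I t).card ≤ (5 * (I.card + t) ^ 2) ^ t := by
  induction t with
  | zero => simp [lifts]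
  | succ t ih =>
    rw [lifts]
    refine Finset.card_biUnion_le.trans ?_
    have h1 : ∀ w ∈ lifts I t, (nexts I w).card ≤ 5 * (I.card + t) ^ 2 := by
      intro w hw
      refine Finset.card_image_le.trans ?_
      rw [Finset.card_product, Finset.card_product, Finset.card_univ, Fintype.card_fin]
      have h2 := card_union_le' I t w hw
      nlinarith [Nat.mul_le_mul h2 h2]
    calc ∑ w ∈ lifts I t, (nexts I w).card ≤ ∑ w ∈ lifts I t, 5 * (I.card + t) ^ 2 :=
          Finset.sum_le_sum h1
      _ = (lifts I t).card * (5 * (I.card + t) ^ 2) := by rw [Finset.sum_const, smul_eq_mul]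
      _ ≤ (5 * (I.card + t) ^ 2) ^ t * (5 * (I.card + t) ^ 2) := Nat.mul_le_mul_right _ ih
      _ = (5 * (I.card + t) ^ 2) ^ (t + 1) := (pow_succ _ _).symm
      _ ≤ _ := by
          refine Nat.pow_le_pow_left ?_ _
          have : I.card + t ≤ I.card + (t + 1) := by omega
          have := Nat.pow_le_pow_left this 2
          omega

theorem mem_nexts (I : Finset (O × O)) (w : List (O × O)) (i : Fin 5) (u v : O × O)
    (hu : u ∈ I ∪ w.toFinset) (hv : v ∈ I ∪ w.toFinset) : op i u v :: w ∈ nexts I w := by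
  rw [nexts, Finset.mem_image]
  exact ⟨((u, v), i), by simp only [Finset.mem_product, Finset.mem_univ, and_true]; exact ⟨hu, hv⟩,
    rfl⟩

/-- computations lift to computations with fractions -/
theorem lift_run {F : Type*} [Field F] (κ : O →+* F) (A : Set F) (I : Finset (O × O))
    (hI : ∀ a ∈ A, ∃ u ∈ I, κ u.2 ≠ 0 ∧ a * κ u.2 = κ u.1) (l : List F) (hl : Run A l) :
    ∃ w ∈ lifts I l.length, ∀ a ∈ l, ∃ u ∈ w, κ u.2 ≠ 0 ∧ a * κ u.2 = κ u.1 := by
  induction hl with
  | nil => exact ⟨[], by simp [lifts], by simp⟩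
  | @cons l x y z hl hx hy hz ih =>
    obtain ⟨w, hw, h⟩ := ih
    have key : ∀ a : F, (a ∈ A ∨ a ∈ l) → ∃ u ∈ I ∪ w.toFinset, κ u.2 ≠ 0 ∧ a * κ u.2 = κ u.1 := by
      intro a ha
      rcases ha with ha | ha
      · obtain ⟨u, hu, h1⟩ := hI a ha
        exact ⟨u, Finset.mem_union_left _ hu, h1⟩
      · obtain ⟨u, hu, h1⟩ := h a ha
        exact ⟨u, Finset.mem_union_right _ (List.mem_toFinset.2 hu), h1⟩
    obtain ⟨u, hu, hu1, hu2⟩ := key x hx
    obtain ⟨v, hv, hv1, hv2⟩ := key y hy
    have hgo : ∀ i : Fin 5, κ (op i u v).2 ≠ 0 → z * κ (op i u v).2 = κ (op i u v).1 →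
        ∃ w ∈ lifts I (z :: l).length, ∀ a ∈ z :: l, ∃ u ∈ w, κ u.2 ≠ 0 ∧ a * κ u.2 = κ u.1 := by
      intro i h1 h2
      refine ⟨op i u v :: w, ?_, ?_⟩
      · rw [List.length_cons, lifts, Finset.mem_biUnion]
        exact ⟨w, hw, mem_nexts I w i u v hu hv⟩
      · intro a ha
        rcases List.mem_cons.1 ha with rfl | ha
        · exact ⟨op i u v, List.mem_cons_self, h1, h2⟩
        · obtain ⟨u', hu', h3⟩ := h a ha
          exact ⟨u', List.mem_cons_of_mem _ hu', h3⟩
    rcases hz with rfl | rfl | rfl | rfl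
    · refine hgo 0 ?_ ?_
      · simp only [op, map_mul]
        exact mul_ne_zero hu1 hv1
      · simp only [op, map_mul, map_add]
        rw [← hu2, ← hv2]
        ring
    · refine hgo 1 ?_ ?_
      · simp only [op, map_mul]
        exact mul_ne_zero hu1 hv1
      · simp only [op, map_mul, map_sub]
        rw [← hu2, ← hv2]
        ring
    · refine hgo 2 ?_ ?_
      · simp only [op, map_mul]
        exact mul_ne_zero hu1 hv1
      · simp only [op, map_mul]
        rw [← hu2, ← hv2]
        ring
    · by_cases h0 : y = 0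
      · subst h0
        refine hgo 4 ?_ ?_
        · simp [op]
        · simp [op]
      · have hv3 : κ v.1 ≠ 0 := by
          rw [← hv2]
          exact mul_ne_zero h0 hv1
        refine hgo 3 ?_ ?_
        · simp only [op, map_mul]
          exact mul_ne_zero hu1 hv3
        · simp only [op, map_mul]
          rw [← hu2, ← hv2]
          field_simp

/-- size of the members -/
theorem size_lifts (σ : O →+* ℂ) (I : Finset (O × O)) (T : ℝ) (hT : 1 ≤ T)
    (hI : ∀ u ∈ I, ‖σ u.1‖ ≤ T ∧ ‖σ u.2‖ ≤ T) (t : ℕ) (w : List (O × O)) (hw : w ∈ lifts I t) :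
    ∀ u ∈ w, 2 * ‖σ u.1‖ ≤ (2 * T) ^ 2 ^ t ∧ 2 * ‖σ u.2‖ ≤ (2 * T) ^ 2 ^ t := by
  induction t generalizing w with
  | zero =>
    rw [lifts, Finset.mem_singleton] at hw
    subst hw
    simp
  | succ t ih =>
    rw [lifts, Finset.mem_biUnion] at hw
    obtain ⟨w, hw, h⟩ := hw
    rw [nexts, Finset.mem_image] at h
    obtain ⟨q, hq, rfl⟩ := h
    simp only [Finset.mem_product, Finset.mem_univ, and_true] at hq
    set Y : ℝ := (2 * T) ^ 2 ^ t with hY
    have h2T : 2 * T ≤ Y := le_self_pow₀ (by linarith) (by positivity)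
    have hY2 : 2 ≤ Y := by linarith
    have hYY : (2 * T) ^ 2 ^ (t + 1) = Y ^ 2 := by
      rw [hY, ← pow_mul, pow_succ]
    rw [hYY]
    have key : ∀ u ∈ I ∪ w.toFinset, ‖σ u.1‖ ≤ Y / 2 ∧ ‖σ u.2‖ ≤ Y / 2 := by
      intro u hu
      rcases Finset.mem_union.1 hu with hu | hu
      · obtain ⟨h1, h2⟩ := hI u hu
        constructor <;> linarith
      · obtain ⟨h1, h2⟩ := ih w hw u (List.mem_toFinset.1 hu)
        constructor <;> linarith
    have hprod : ∀ a b : O, ‖σ a‖ ≤ Y / 2 → ‖σ b‖ ≤ Y / 2 → ‖σ (a * b)‖ ≤ Y ^ 2 / 4 := by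
      intro a b ha hb
      rw [map_mul, norm_mul]
      have := mul_le_mul ha hb (norm_nonneg _) (by linarith)
      nlinarith
    intro u hu
    rcases List.mem_cons.1 hu with rfl | hu
    · obtain ⟨⟨u, v⟩, i⟩ := q
      obtain ⟨hu1, hu2⟩ := key u hq.1
      obtain ⟨hv1, hv2⟩ := key v hq.2
      have e1 := hprod _ _ hu1 hv2
      have e2 := hprod _ _ hv1 hu2
      have e3 := hprod _ _ hu2 hv2
      have e4 := hprod _ _ hu1 hv1
      have e5 := hprod _ _ hu2 hv1
      have hYnn : 0 ≤ Y ^ 2 := by positivity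
      fin_cases i
      · simp only [op]
        constructor
        · rw [map_add]
          have := norm_add_le (σ (u.1 * v.2)) (σ (v.1 * u.2))
          linarith
        · linarith
      · simp only [op]
        constructor
        · rw [map_sub]
          have := norm_sub_le (σ (u.1 * v.2)) (σ (v.1 * u.2))
          linarith
        · linarith
      · simp only [op]
        constructor <;> linarith
      · simp only [op]
        constructor <;> linarith
      · simp only [op]
        constructor
        · simp only [map_zero, norm_zero, mul_zero]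
          exact hYnn
        · simp only [map_one, norm_one, mul_one]
          nlinarith
    · obtain ⟨h1, h2⟩ := ih w hw u hu
      have h3 : Y ≤ Y ^ 2 := by nlinarith
      exact ⟨h1.trans h3, h2.trans h3⟩

end lifts

end Pool.Agent.Lib.MP_6ac54e_lc.NoF
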