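import Mathlib
import Pool.Agent.Lib.MP_6ac54e_lc.NoCount
import Pool.Agent.Lib.MP_6ac54e_lc.NoSteps

open NumberField Polynomial

namespace Pool.Agent.Lib.MP_6ac54e_lc.NoF

variable {K : Type*} [Field K] [NumberField K]

/-- the sum of the absolute values of the coefficients -/
noncomputable def len (f : ℤ[X]) : ℝ := ∑ k ∈ Finset.range (f.natDegree + 1), |(f.coeff k : ℝ)|

theorem norm_hv_le (σ : K →+* ℂ) (f : ℤ[X]) (A B : 𝓞 K) (Y : ℝ) (hY : 0 ≤ Y)
    (hA : ‖σ (A : K)‖ ≤ Y) (hB : ‖σ (B : K)‖ ≤ Y) :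
    ‖σ ((hv f A B : 𝓞 K) : K)‖ ≤ len f * Y ^ f.natDegree := by
  have h1 : σ ((hv f A B : 𝓞 K) : K) = hv f (σ (A : K)) (σ (B : K)) := by
    have := map_hv (σ.comp (algebraMap (𝓞 K) K)) f A B
    exact this
  rw [h1, hv, len, Finset.sum_mul]
  refine (norm_sum_le _ _).trans (Finset.sum_le_sum fun k hk => ?_)
  have hk' : k ≤ f.natDegree := Nat.lt_succ_iff.1 (Finset.mem_range.1 hk)
  rw [norm_mul, norm_mul, norm_pow, norm_pow, Complex.norm_intCast]
  calc |(f.coeff k : ℝ)| * ‖σ (A : K)‖ ^ k * ‖σ (B : K)‖ ^ (f.natDegree - k)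
      ≤ |(f.coeff k : ℝ)| * Y ^ k * Y ^ (f.natDegree - k) := by gcongr
    _ = |(f.coeff k : ℝ)| * (Y ^ k * Y ^ (f.natDegree - k)) := by ring
    _ = _ := by rw [← pow_add, Nat.add_sub_cancel' hk']

theorem log_absNorm_le (f : ℤ[X]) : ∃ C : ℝ, 0 ≤ C ∧ ∀ (T : ℝ), 1 ≤ T → ∀ (t : ℕ) (A B : 𝓞 K),
    (∀ σ : K →+* ℂ, 2 * ‖σ (A : K)‖ ≤ (2 * T) ^ 2 ^ t ∧ 2 * ‖σ (B : K)‖ ≤ (2 * T) ^ 2 ^ t) →
    (((Ideal.absNorm (Ideal.span {hv f A B})).primeFactors.card : ℕ) : ℝ) ≤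
      C * 2 ^ t * Real.log (2 * T) := by
  have hl2 : (0 : ℝ) < Real.log 2 := Real.log_pos (by norm_num)
  have hlen0 : 0 ≤ len f := Finset.sum_nonneg fun _ _ => abs_nonneg _
  refine ⟨(Module.finrank ℚ K * (Real.log (len f + 1) / Real.log 2 + f.natDegree)) / Real.log 2,
    ?_, fun T hT t A B h => ?_⟩
  · have : 0 ≤ Real.log (len f + 1) := Real.log_nonneg (by linarith)
    positivity
  have h2T : Real.log 2 ≤ Real.log (2 * T) := Real.log_le_log (by norm_num) (by linarith)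
  have hlT : 0 < Real.log (2 * T) := lt_of_lt_of_le hl2 h2T
  have hlenl : 0 ≤ Real.log (len f + 1) := Real.log_nonneg (by linarith)
  have hCnn : 0 ≤ (Module.finrank ℚ K * (Real.log (len f + 1) / Real.log 2 + f.natDegree)) /
      Real.log 2 * 2 ^ t * Real.log (2 * T) := by positivity
  by_cases h0 : Ideal.absNorm (Ideal.span {hv f A B}) = 0
  · rw [h0]
    simpa using hCnn
  set Y : ℝ := (2 * T) ^ 2 ^ t with hY
  have hY1 : 1 ≤ Y := one_le_pow₀ (by linarith)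
  have h1 := absNorm_le (hv f A B) ((len f + 1) * Y ^ f.natDegree) fun σ => by
    obtain ⟨h2, h3⟩ := h σ
    have h4 := norm_hv_le σ f A B Y (by linarith)
      (by linarith [norm_nonneg (σ (A : K))]) (by linarith [norm_nonneg (σ (B : K))])
    have h5 : 0 ≤ Y ^ f.natDegree := by positivity
    nlinarith
  have h2 := card_primeFactors_le _ h0
  have hpos : (0 : ℝ) < (Ideal.absNorm (Ideal.span {hv f A B}) : ℕ) := by
    exact_mod_cast Nat.pos_of_ne_zero h0
  have h3 := Real.log_le_log hpos h1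
  rw [Real.log_pow, Real.log_mul (by linarith) (by positivity), Real.log_pow, hY, Real.log_pow] at h3
  refine h2.trans ?_
  rw [div_mul_eq_mul_div, div_mul_eq_mul_div]
  apply div_le_div_of_nonneg_right _ hl2.le
  refine h3.trans ?_
  rw [mul_assoc (Module.finrank ℚ K : ℝ), mul_assoc (Module.finrank ℚ K : ℝ)]
  refine mul_le_mul_of_nonneg_left ?_ (Nat.cast_nonneg _)
  have h4 : Real.log (len f + 1) ≤ Real.log (len f + 1) / Real.log 2 * 2 ^ t * Real.log (2 * T) := by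
    have h5 : (1 : ℝ) ≤ 2 ^ t := one_le_pow₀ (by norm_num)
    calc Real.log (len f + 1) = Real.log (len f + 1) / Real.log 2 * 1 * Real.log 2 := by
          field_simp
      _ ≤ _ := by gcongr
  calc Real.log (len f + 1) + f.natDegree * (((2 ^ t : ℕ) : ℝ) * Real.log (2 * T))
      ≤ Real.log (len f + 1) / Real.log 2 * 2 ^ t * Real.log (2 * T) +
        f.natDegree * (((2 ^ t : ℕ) : ℝ) * Real.log (2 * T)) := by linarith
    _ = _ := by push_cast; ring

theorem exists_dvd {p : ℕ} [Fact p.Prime] (κ : 𝓞 K →+* ZMod p) (f : ℤ[X])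
    (hf : ∀ θ : K, aeval θ f ≠ 0) (u : 𝓞 K × 𝓞 K) (r : ZMod p) (h1 : κ u.2 ≠ 0)
    (h2 : r * κ u.2 = κ u.1) (hr : aeval r f = 0) :
    p ∈ (Ideal.absNorm (Ideal.span {hv f u.1 u.2})).primeFactors := by
  have h3 : u.2 ≠ 0 := by
    intro h
    rw [h, map_zero] at h1
    exact h1 rfl
  have h4 : hv f u.1 u.2 ≠ 0 := by
    intro h
    have h5 := congrArg (algebraMap (𝓞 K) K) h
    rw [map_hv, map_zero] at h5
    refine hv_ne_zero hf _ _ ?_ h5
    intro h6
    exact h3 ((FaithfulSMul.algebraMap_eq_zero_iff (𝓞 K) K).1 h6)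
  have h5 : κ (hv f u.1 u.2) = 0 := by
    rw [map_hv, ← h2, hv_mul, hr, mul_zero]
  have h6 : Ideal.absNorm (Ideal.span {hv f u.1 u.2}) ≠ 0 := by
    intro h
    rw [Ideal.absNorm_eq_zero_iff, Ideal.span_singleton_eq_bot] at h
    exact h4 h
  refine Nat.mem_primeFactors.2 ⟨Fact.out, ?_, h6⟩
  have h7 : ((Ideal.absNorm (Ideal.span {hv f u.1 u.2}) : ℕ) : 𝓞 K) ∈ Ideal.span
      {(hv f u.1 u.2 : 𝓞 K)} := Ideal.absNorm_mem _
  obtain ⟨y, hy⟩ := Ideal.mem_span_singleton.1 h7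
  have h8 := congrArg κ hy
  rw [map_mul, h5, zero_mul, map_natCast] at h8
  exact (ZMod.natCast_eq_zero_iff _ _).1 h8

/-- the inputs -/
def inp {m k : ℕ} {ι : Type*} (p : ℕ) [Fact p.Prime]
    (QD : (ι → MvPolynomial (Fin (m + 1)) ℤ) × (ι → ℤ)) (c0 : ℤ) (c : Fin m → ℤ)
    (a : Fin k → ℤ) : Set (ZMod p) :=
  (Set.range fun i => ((MvPolynomial.eval (Fin.cons c0 c : Fin (m + 1) → ℤ) (QD.1 i) : ℤ) :
    ZMod p) / ((QD.2 i : ℤ) : ZMod p)) ∪ Set.range fun j => ((a j : ℤ) : ZMod p)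

theorem count2 {m : ℕ} (e : Fin m → 𝓞 K) (f : ℤ[X]) (hf : ∀ θ : K, aeval θ f ≠ 0)
    {ι : Type*} [Fintype ι] [Nonempty ι] (k : ℕ)
    (W : Finset ((ι → MvPolynomial (Fin (m + 1)) ℤ) × (ι → ℤ))) :
    ∃ C : ℝ, 0 ≤ C ∧ ∀ X : ℝ, 2 ≤ X → ∀ H : ℕ, 1 ≤ H → (H : ℝ) ≤ X →
      ∀ Y : ℕ, 1 ≤ Y → (Y : ℝ) ≤ X → ∀ t : ℕ, ∀ S : Finset ℕ,
      (∀ p ∈ S, ∃ _ : Fact p.Prime, ∃ (κ : 𝓞 K →+* ZMod p) (c0 : ℤ) (c : Fin m → ℤ)
        (a : Fin k → ℤ), (∀ i, |c i| ≤ H) ∧ (∀ i, |a i| ≤ Y) ∧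
        κ (c0 + ∑ i, (c i : 𝓞 K) * e i) = 0 ∧ ∃ QD ∈ W,
          (∀ i, ¬ (p : ℤ) ∣ QD.2 i) ∧ ∃ l : List (ZMod p), l.length ≤ t ∧
            Run (inp p QD c0 c a) l ∧ ∃ r : ZMod p, (r ∈ inp p QD c0 c a ∨ r ∈ l) ∧
              aeval r f = 0) →
      (S.card : ℝ) ≤ C * ((H : ℝ) ^ m * (Y : ℝ) ^ k) * ((10 * (Fintype.card ι + k + t) ^ 2) ^ t *
        (Fintype.card ι + k + t) ^ 2) * Real.log X := by
  classical
  -- growth of the inputs
  have hg : ∀ (QD : (ι → MvPolynomial (Fin (m + 1)) ℤ) × (ι → ℤ)) (i : ι), ∃ C k : ℕ, ∀ t : ℝ,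
      1 ≤ t → ∀ c : Fin m → ℤ, (∀ i, |(c i : ℝ)| ≤ t) → ∀ σ : K →+* ℂ,
        ‖σ ((MvPolynomial.aeval (pt e c) (QD.1 i) : 𝓞 K) : K)‖ ≤ C * t ^ k := by
    intro QD i
    obtain ⟨B, hB, h1⟩ := norm_pt e
    obtain ⟨C, k, h2⟩ := growth (QD.1 i)
    refine ⟨C * B ^ k, k, fun t ht c hc σ => ?_⟩
    have hB' : (1 : ℝ) ≤ B := by exact_mod_cast hB
    have h4 : σ ((MvPolynomial.aeval (pt e c) (QD.1 i) : 𝓞 K) : K) =
        MvPolynomial.aeval (fun j => σ (pt e c j : K)) (QD.1 i) := by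
      have := MvPolynomial.map_aeval (pt e c) (σ.comp (algebraMap (𝓞 K) K)) (QD.1 i)
      rw [MvPolynomial.coe_eval₂Hom] at this
      simp only [RingHom.comp_apply] at this
      refine this.trans ?_
      rw [MvPolynomial.aeval_def]
      congr 1
      exact Subsingleton.elim _ _
    rw [h4]
    refine (h2 (B * t) ?_ _ fun i => h1 t ht c hc σ i).trans (le_of_eq ?_)
    · nlinarith
    · push_cast
      rw [mul_pow]
      ring
  choose CC kk hCk using hg
  obtain ⟨C1, hC1, hlog⟩ := log_absNorm_le (K := K) f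
  -- common bounds
  let CB : ℝ := 1 + ∑ QD ∈ W, ∑ i, ((CC QD i : ℝ) + |(QD.2 i : ℝ)|)
  let KB : ℕ := ∑ QD ∈ W, ∑ i, kk QD i
  have hCB1 : 1 ≤ CB := by
    have : 0 ≤ ∑ QD ∈ W, ∑ i, ((CC QD i : ℝ) + |(QD.2 i : ℝ)|) :=
      Finset.sum_nonneg fun QD _ => Finset.sum_nonneg fun i _ => by positivity
    simp only [CB]
    linarith
  have hCBle : ∀ QD ∈ W, ∀ i, (CC QD i : ℝ) + |(QD.2 i : ℝ)| ≤ CB := by
    intro QD hQD i
    have h1 : (CC QD i : ℝ) + |(QD.2 i : ℝ)| ≤ ∑ i, ((CC QD i : ℝ) + |(QD.2 i : ℝ)|) :=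
      Finset.single_le_sum (f := fun i => (CC QD i : ℝ) + |(QD.2 i : ℝ)|)
        (fun i _ => by positivity) (Finset.mem_univ i)
    have h2 : ∑ i, ((CC QD i : ℝ) + |(QD.2 i : ℝ)|) ≤
        ∑ QD ∈ W, ∑ i, ((CC QD i : ℝ) + |(QD.2 i : ℝ)|) :=
      Finset.single_le_sum (f := fun QD : (ι → MvPolynomial (Fin (m + 1)) ℤ) × (ι → ℤ) =>
          ∑ i, ((CC QD i : ℝ) + |(QD.2 i : ℝ)|))
        (fun QD _ => Finset.sum_nonneg fun i _ => by positivity) hQD
    simp only [CB]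
    linarith
  have hKBle : ∀ QD ∈ W, ∀ i, kk QD i ≤ KB := by
    intro QD hQD i
    have h1 : kk QD i ≤ ∑ i, kk QD i :=
      Finset.single_le_sum (f := fun i => kk QD i) (fun i _ => Nat.zero_le _) (Finset.mem_univ i)
    exact h1.trans (Finset.single_le_sum
      (f := fun QD : (ι → MvPolynomial (Fin (m + 1)) ℤ) × (ι → ℤ) => ∑ i, kk QD i)
      (fun QD _ => Nat.zero_le _) hQD)
  have hl2 : (0 : ℝ) < Real.log 2 := Real.log_pos (by norm_num)
  let C2 : ℝ := Real.log (2 * CB) / Real.log 2 + (KB + 1)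
  have hC20 : 0 ≤ C2 := by
    have : 0 ≤ Real.log (2 * CB) := Real.log_nonneg (by linarith)
    positivity
  refine ⟨3 ^ m * 3 ^ k * W.card * (C1 * C2), by positivity, ?_⟩
  intro X hX H hH hHX Y hY hYX t S hS
  have hscast : (Fintype.card ι : ℝ) + k = ((Fintype.card ι + k : ℕ) : ℝ) := by push_cast; rfl
  rw [hscast]
  set s : ℕ := Fintype.card ι + k with hs
  have hs1 : 1 ≤ s := by
    have : 0 < Fintype.card ι := Fintype.card_pos
    omega
  set box : Finset ((Fin m → ℤ) × (Fin k → ℤ)) :=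
    (Fintype.piFinset fun _ => Finset.Icc (-(H : ℤ)) H) ×ˢ
      (Fintype.piFinset fun _ => Finset.Icc (-(Y : ℤ)) Y) with hbox
  let I : ((ι → MvPolynomial (Fin (m + 1)) ℤ) × (ι → ℤ)) → ((Fin m → ℤ) × (Fin k → ℤ)) →
      Finset (𝓞 K × 𝓞 K) :=
    fun QD c => (Finset.univ.image fun i =>
      ((MvPolynomial.aeval (pt e c.1) (QD.1 i) : 𝓞 K), ((QD.2 i : ℤ) : 𝓞 K))) ∪
      (Finset.univ.image fun j => (((c.2 j : ℤ) : 𝓞 K), 1))
  have hIcard : ∀ QD c, (I QD c).card ≤ s := fun QD c => by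
    refine (Finset.card_union_le _ _).trans ?_
    have h1 : (Finset.univ.image fun i =>
      ((MvPolynomial.aeval (pt e c.1) (QD.1 i) : 𝓞 K), ((QD.2 i : ℤ) : 𝓞 K))).card ≤
        Fintype.card ι := Finset.card_image_le.trans (by rw [Finset.card_univ])
    have h2 : (Finset.univ.image fun j => (((c.2 j : ℤ) : 𝓞 K), (1 : 𝓞 K))).card ≤ k :=
      Finset.card_image_le.trans (by rw [Finset.card_univ, Fintype.card_fin])
    omega
  let N : (𝓞 K × 𝓞 K) → Finset ℕ := fun u =>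
    (Ideal.absNorm (Ideal.span {hv f u.1 u.2})).primeFactors
  have hcov : S ⊆ W.biUnion fun QD => box.biUnion fun c => (Finset.range (t + 1)).biUnion fun t' =>
      (lifts (I QD c) t').biUnion fun w => (I QD c ∪ w.toFinset).biUnion N := by
    intro p hp
    obtain ⟨hpp, κ, c0, c, a, hc, ha, h0, QD, hQD, hD, l, hlt, hl, r, hr, hrf⟩ := hS p hp
    have hcbox : (c, a) ∈ box := by
      rw [hbox, Finset.mem_product, Fintype.mem_piFinset, Fintype.mem_piFinset]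
      constructor
      · intro i
        rw [Finset.mem_Icc]
        exact abs_le.1 (hc i)
      · intro i
        rw [Finset.mem_Icc]
        exact abs_le.1 (ha i)
    have hI : ∀ x ∈ inp p QD c0 c a, ∃ u ∈ I QD (c, a), κ u.2 ≠ 0 ∧ x * κ u.2 = κ u.1 := by
      rintro x (⟨i, rfl⟩ | ⟨j, rfl⟩)
      · have hDi : ((QD.2 i : ℤ) : ZMod p) ≠ 0 := by
          intro h
          exact hD i ((ZMod.intCast_zmod_eq_zero_iff_dvd _ p).1 h)
        refine ⟨((MvPolynomial.aeval (pt e c) (QD.1 i) : 𝓞 K), ((QD.2 i : ℤ) : 𝓞 K)),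
          Finset.mem_union_left _ (Finset.mem_image_of_mem _ (Finset.mem_univ i)), ?_, ?_⟩
        · simpa using hDi
        · simp only [map_intCast]
          rw [kappa_pt e κ c0 c h0, div_mul_cancel₀ _ hDi]
      · refine ⟨(((a j : ℤ) : 𝓞 K), 1),
          Finset.mem_union_right _ (Finset.mem_image_of_mem _ (Finset.mem_univ j)), ?_, ?_⟩
        · simp
        · simp
    obtain ⟨w, hw, hwl⟩ := lift_run κ (inp p QD c0 c a) (I QD (c, a)) hI l hl
    have hfin : ∃ u ∈ I QD (c, a) ∪ w.toFinset, κ u.2 ≠ 0 ∧ r * κ u.2 = κ u.1 := by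
      rcases hr with hr | hr
      · obtain ⟨u, hu, h⟩ := hI r hr
        exact ⟨u, Finset.mem_union_left _ hu, h⟩
      · obtain ⟨u, hu, h⟩ := hwl r hr
        exact ⟨u, Finset.mem_union_right _ (List.mem_toFinset.2 hu), h⟩
    obtain ⟨u, hu, hu1, hu2⟩ := hfin
    simp only [Finset.mem_biUnion]
    exact ⟨QD, hQD, (c, a), hcbox, l.length, Finset.mem_range.2 (by omega), w, hw, u, hu,
      exists_dvd κ f hf u r hu1 hu2 hrf⟩
  have hX1 : 0 < Real.log X := Real.log_pos (by linarith)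
  have hlX : Real.log 2 ≤ Real.log X := Real.log_le_log (by norm_num) hX
  have hH1 : (1 : ℝ) ≤ H := by exact_mod_cast hH
  -- the bound for a single member
  have hone : ∀ QD ∈ W, ∀ c ∈ box, ∀ t' ∈ Finset.range (t + 1), ∀ w ∈ lifts (I QD c) t',
      ∀ u ∈ I QD c ∪ w.toFinset, ((N u).card : ℝ) ≤ (C1 * C2) * 2 ^ t * Real.log X := by
    intro QD hQD c hc t' ht' w hw u hu
    set T : ℝ := CB * X ^ (KB + 1) with hTdef
    have hXK : 1 ≤ X ^ KB := one_le_pow₀ (by linarith)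
    have hXK1 : X ≤ X ^ (KB + 1) := le_self_pow₀ (by linarith) (by omega)
    have hXK2 : X ^ KB ≤ X ^ (KB + 1) := pow_le_pow_right₀ (by linarith) (by omega)
    have hT1 : 1 ≤ T := by nlinarith
    rw [hbox, Finset.mem_product, Fintype.mem_piFinset, Fintype.mem_piFinset] at hc
    have hIT : ∀ σ : K →+* ℂ, ∀ u ∈ I QD c, ‖(σ.comp (algebraMap (𝓞 K) K)) u.1‖ ≤ T ∧
        ‖(σ.comp (algebraMap (𝓞 K) K)) u.2‖ ≤ T := by
      intro σ u hu
      rcases Finset.mem_union.1 hu with hu | hu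
      · obtain ⟨i, -, rfl⟩ := Finset.mem_image.1 hu
        have hb := hCBle QD hQD i
        have hCC0 : (0 : ℝ) ≤ CC QD i := Nat.cast_nonneg _
        constructor
        · have h1 := hCk QD i H hH1 c.1 (by
            intro i
            have := Finset.mem_Icc.1 (hc.1 i)
            have h4 : |c.1 i| ≤ H := abs_le.2 this
            exact_mod_cast h4) σ
          refine h1.trans ?_
          have h2 : (H : ℝ) ^ kk QD i ≤ X ^ (KB + 1) :=
            (pow_le_pow_right₀ hH1 (hKBle QD hQD i)).trans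
              ((pow_le_pow_left₀ (by linarith) hHX _).trans hXK2)
          have h3 : (CC QD i : ℝ) ≤ CB := by linarith [abs_nonneg (QD.2 i : ℝ)]
          rw [hTdef]
          exact mul_le_mul h3 h2 (by positivity) (by linarith)
        · have h1 : (σ.comp (algebraMap (𝓞 K) K)) ((QD.2 i : ℤ) : 𝓞 K) = ((QD.2 i : ℤ) : ℂ) :=
            map_intCast _ _
          change ‖(σ.comp (algebraMap (𝓞 K) K)) ((QD.2 i : ℤ) : 𝓞 K)‖ ≤ T
          rw [h1, Complex.norm_intCast]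
          have h3 : |(QD.2 i : ℝ)| ≤ CB := by linarith
          rw [hTdef]
          nlinarith
      · obtain ⟨j, -, rfl⟩ := Finset.mem_image.1 hu
        constructor
        · have h1 : (σ.comp (algebraMap (𝓞 K) K)) ((c.2 j : ℤ) : 𝓞 K) = ((c.2 j : ℤ) : ℂ) :=
            map_intCast _ _
          change ‖(σ.comp (algebraMap (𝓞 K) K)) ((c.2 j : ℤ) : 𝓞 K)‖ ≤ T
          rw [h1, Complex.norm_intCast]
          have h2 : |c.2 j| ≤ Y := abs_le.2 (Finset.mem_Icc.1 (hc.2 j))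
          have h3 : |(c.2 j : ℝ)| ≤ Y := by exact_mod_cast h2
          rw [hTdef]
          nlinarith
        · simp only [map_one, norm_one]
          exact hT1
    have hsz : ∀ σ : K →+* ℂ, 2 * ‖σ (u.1 : K)‖ ≤ (2 * T) ^ 2 ^ t ∧
        2 * ‖σ (u.2 : K)‖ ≤ (2 * T) ^ 2 ^ t := by
      intro σ
      have ht't : (2 * T) ^ 2 ^ t' ≤ (2 * T) ^ 2 ^ t := by
        apply pow_le_pow_right₀ (by linarith)
        apply Nat.pow_le_pow_right (by norm_num)
        have := Finset.mem_range.1 ht'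
        omega
      have h2T : 2 * T ≤ (2 * T) ^ 2 ^ t := le_self_pow₀ (by linarith) (by positivity)
      rcases Finset.mem_union.1 hu with hu | hu
      · obtain ⟨h1, h2⟩ := hIT σ u hu
        constructor
        · exact (mul_le_mul_of_nonneg_left h1 (by norm_num)).trans h2T
        · exact (mul_le_mul_of_nonneg_left h2 (by norm_num)).trans h2T
      · obtain ⟨h1, h2⟩ := size_lifts (σ.comp (algebraMap (𝓞 K) K)) (I QD c) T hT1 (hIT σ) t' w hw u
          (List.mem_toFinset.1 hu)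
        exact ⟨h1.trans ht't, h2.trans ht't⟩
    have h1 := hlog T hT1 t u.1 u.2 hsz
    refine h1.trans ?_
    have h2 : Real.log (2 * T) ≤ C2 * Real.log X := by
      have e1 : Real.log (2 * T) = Real.log (2 * CB) + (KB + 1) * Real.log X := by
        rw [hTdef, ← mul_assoc, Real.log_mul (by positivity) (by positivity), Real.log_pow]
        push_cast
        rfl
      have e2 : Real.log (2 * CB) ≤ Real.log (2 * CB) / Real.log 2 * Real.log X := by
        have h4 : 0 ≤ Real.log (2 * CB) := Real.log_nonneg (by linarith)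
        rw [div_mul_eq_mul_div, le_div_iff₀ hl2]
        exact mul_le_mul_of_nonneg_left hlX h4
      rw [e1]
      simp only [C2]
      linarith
    calc C1 * 2 ^ t * Real.log (2 * T) ≤ C1 * 2 ^ t * (C2 * Real.log X) :=
          mul_le_mul_of_nonneg_left h2 (by positivity)
      _ = _ := by ring
  have hB0 : 0 ≤ (C1 * C2) * 2 ^ t * Real.log X := by positivity
  -- sums
  have hsum1 : ∀ QD ∈ W, ∀ c ∈ box, ∀ t' ∈ Finset.range (t + 1), ∀ w ∈ lifts (I QD c) t',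
      ((((I QD c ∪ w.toFinset).biUnion N).card : ℕ) : ℝ) ≤
        (s + t) * ((C1 * C2) * 2 ^ t * Real.log X) := by
    intro QD hQD c hc t' ht' w hw
    have h1 : (((I QD c ∪ w.toFinset).biUnion N).card : ℝ) ≤
        ∑ u ∈ I QD c ∪ w.toFinset, ((N u).card : ℝ) := by
      exact_mod_cast Finset.card_biUnion_le
    refine h1.trans ((Finset.sum_le_sum fun u hu => hone QD hQD c hc t' ht' w hw u hu).trans ?_)
    rw [Finset.sum_const, nsmul_eq_mul]
    refine mul_le_mul_of_nonneg_right ?_ hB0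
    have h2 := card_union_le' (I QD c) t' w hw
    have h3 := hIcard QD c
    have h4 := Finset.mem_range.1 ht'
    have h5 : (I QD c ∪ w.toFinset).card ≤ s + t := by omega
    exact_mod_cast h5
  have hsum2 : ∀ QD ∈ W, ∀ c ∈ box, ∀ t' ∈ Finset.range (t + 1),
      ((((lifts (I QD c) t').biUnion fun w => (I QD c ∪ w.toFinset).biUnion N).card : ℕ) : ℝ) ≤
        (5 * (s + t) ^ 2) ^ t * ((s + t) * ((C1 * C2) * 2 ^ t * Real.log X)) := by
    intro QD hQD c hc t' ht'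
    have h1 : (((lifts (I QD c) t').biUnion fun w => (I QD c ∪ w.toFinset).biUnion N).card : ℝ) ≤
        ∑ w ∈ lifts (I QD c) t', ((((I QD c ∪ w.toFinset).biUnion N).card : ℕ) : ℝ) := by
      exact_mod_cast Finset.card_biUnion_le
    refine h1.trans ((Finset.sum_le_sum fun w hw => hsum1 QD hQD c hc t' ht' w hw).trans ?_)
    rw [Finset.sum_const, nsmul_eq_mul]
    refine mul_le_mul_of_nonneg_right ?_ (by positivity)
    have h2 := card_lifts_le (I QD c) t'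
    have h3 := hIcard QD c
    have h4 := Finset.mem_range.1 ht'
    have h5 : (5 * ((I QD c).card + t') ^ 2) ^ t' ≤ (5 * (s + t) ^ 2) ^ t := by
      have h6 : 5 * ((I QD c).card + t') ^ 2 ≤ 5 * (s + t) ^ 2 :=
        Nat.mul_le_mul_left _ (Nat.pow_le_pow_left (by omega) 2)
      have h7 : 0 < 5 * (s + t) ^ 2 := by positivity
      exact (Nat.pow_le_pow_left h6 t').trans (Nat.pow_le_pow_right h7 (by omega))
    exact_mod_cast h2.trans h5
  have hsum3 : ∀ QD ∈ W, ∀ c ∈ box,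
      ((((Finset.range (t + 1)).biUnion fun t' => (lifts (I QD c) t').biUnion fun w =>
        (I QD c ∪ w.toFinset).biUnion N).card : ℕ) : ℝ) ≤
        (t + 1) * ((5 * (s + t) ^ 2) ^ t * ((s + t) * ((C1 * C2) * 2 ^ t * Real.log X))) := by
    intro QD hQD c hc
    have h1 : (((Finset.range (t + 1)).biUnion fun t' => (lifts (I QD c) t').biUnion fun w =>
        (I QD c ∪ w.toFinset).biUnion N).card : ℝ) ≤
        ∑ t' ∈ Finset.range (t + 1), ((((lifts (I QD c) t').biUnion fun w =>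
          (I QD c ∪ w.toFinset).biUnion N).card : ℕ) : ℝ) := by
      exact_mod_cast Finset.card_biUnion_le
    refine h1.trans ((Finset.sum_le_sum fun t' ht' => hsum2 QD hQD c hc t' ht').trans ?_)
    rw [Finset.sum_const, nsmul_eq_mul, Finset.card_range]
    push_cast
    exact le_rfl
  have hY1 : (1 : ℝ) ≤ Y := by exact_mod_cast hY
  have hboxcard : (box.card : ℝ) ≤ (3 ^ m * (H : ℝ) ^ m) * (3 ^ k * (Y : ℝ) ^ k) := by
    rw [hbox, Finset.card_product, Fintype.card_piFinset, Fintype.card_piFinset]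
    simp only [Finset.prod_const, Finset.card_univ, Fintype.card_fin, Int.card_Icc]
    have h1 : ((H : ℤ) + 1 - -(H : ℤ)).toNat = 2 * H + 1 := by omega
    have h2 : ((Y : ℤ) + 1 - -(Y : ℤ)).toNat = 2 * Y + 1 := by omega
    rw [h1, h2, ← mul_pow, ← mul_pow]
    push_cast
    refine mul_le_mul (pow_le_pow_left₀ (by positivity) (by linarith) _)
      (pow_le_pow_left₀ (by positivity) (by linarith) _) (by positivity) (by positivity)
  have hsum4 : ∀ QD ∈ W,
      (((box.biUnion fun c => (Finset.range (t + 1)).biUnion fun t' =>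
        (lifts (I QD c) t').biUnion fun w => (I QD c ∪ w.toFinset).biUnion N).card : ℕ) : ℝ) ≤
        ((3 ^ m * (H : ℝ) ^ m) * (3 ^ k * (Y : ℝ) ^ k)) *
        ((t + 1) * ((5 * (s + t) ^ 2) ^ t * ((s + t) * ((C1 * C2) * 2 ^ t * Real.log X)))) := by
    intro QD hQD
    have h1 : ((box.biUnion fun c => (Finset.range (t + 1)).biUnion fun t' =>
        (lifts (I QD c) t').biUnion fun w => (I QD c ∪ w.toFinset).biUnion N).card : ℝ) ≤
        ∑ c ∈ box, ((((Finset.range (t + 1)).biUnion fun t' =>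
        (lifts (I QD c) t').biUnion fun w => (I QD c ∪ w.toFinset).biUnion N).card : ℕ) : ℝ) := by
      exact_mod_cast Finset.card_biUnion_le
    refine h1.trans ((Finset.sum_le_sum fun c hc => hsum3 QD hQD c hc).trans ?_)
    rw [Finset.sum_const, nsmul_eq_mul]
    refine mul_le_mul_of_nonneg_right hboxcard ?_
    positivity
  have hfinal : (S.card : ℝ) ≤ W.card * (((3 ^ m * (H : ℝ) ^ m) * (3 ^ k * (Y : ℝ) ^ k)) *
        ((t + 1) * ((5 * (s + t) ^ 2) ^ t * ((s + t) * ((C1 * C2) * 2 ^ t * Real.log X))))) := by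
    have h0 := Finset.card_le_card hcov
    have h1 : (S.card : ℝ) ≤ ∑ QD ∈ W, (((box.biUnion fun c => (Finset.range (t + 1)).biUnion
        fun t' => (lifts (I QD c) t').biUnion fun w => (I QD c ∪ w.toFinset).biUnion N).card : ℕ) :
          ℝ) := by
      exact_mod_cast h0.trans Finset.card_biUnion_le
    refine h1.trans ((Finset.sum_le_sum fun QD hQD => hsum4 QD hQD).trans ?_)
    rw [Finset.sum_const, nsmul_eq_mul]
  refine hfinal.trans ?_
  have hst : ((t : ℝ) + 1) ≤ s + t := by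
    have : (1 : ℝ) ≤ s := by exact_mod_cast hs1
    linarith
  have e1 : (10 * ((s : ℝ) + t) ^ 2) ^ t = (5 * ((s : ℝ) + t) ^ 2) ^ t * 2 ^ t := by
    rw [← mul_pow]
    congr 1
    ring
  rw [e1]
  have hnn : 0 ≤ W.card * ((3 ^ m * (H : ℝ) ^ m) * (3 ^ k * (Y : ℝ) ^ k)) * ((5 * ((s : ℝ) + t) ^ 2) ^ t * ((s + t) *
      ((C1 * C2) * 2 ^ t * Real.log X))) := by positivity
  calc (W.card : ℝ) * (((3 ^ m * (H : ℝ) ^ m) * (3 ^ k * (Y : ℝ) ^ k)) *
        ((t + 1) * ((5 * (s + t) ^ 2) ^ t * ((s + t) * ((C1 * C2) * 2 ^ t * Real.log X)))))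
      = (t + 1) * (W.card * ((3 ^ m * (H : ℝ) ^ m) * (3 ^ k * (Y : ℝ) ^ k)) * ((5 * ((s : ℝ) + t) ^ 2) ^ t * ((s + t) *
      ((C1 * C2) * 2 ^ t * Real.log X)))) := by ring
    _ ≤ (s + t) * (W.card * ((3 ^ m * (H : ℝ) ^ m) * (3 ^ k * (Y : ℝ) ^ k)) * ((5 * ((s : ℝ) + t) ^ 2) ^ t * ((s + t) *
      ((C1 * C2) * 2 ^ t * Real.log X)))) := mul_le_mul_of_nonneg_right hst hnn
    _ = _ := by ring

end Pool.Agent.Lib.MP_6ac54e_lc.NoF
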