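import Mathlib

open NumberField Polynomial

namespace Pool.Agent.Lib.MP_6ac54e_lc.NoF

section coord

variable {O : Type*} [CommRing O] {ι : Type*}

/-- the coordinates of the values of a polynomial are values of integer polynomials -/
theorem coordPoly (b : Module.Basis ι ℤ O) (j : ι) {s : Type*} (G : MvPolynomial s O) :
    ∃ Q : MvPolynomial s ℤ, ∀ x : s → ℤ, MvPolynomial.eval x Q =
      b.repr (MvPolynomial.eval (fun i => ((x i : ℤ) : O)) G) j := by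
  induction G using MvPolynomial.induction_on with
  | C a => exact ⟨MvPolynomial.C (b.repr a j), fun x => by simp⟩
  | add p q hp hq =>
    obtain ⟨Q1, h1⟩ := hp
    obtain ⟨Q2, h2⟩ := hq
    refine ⟨Q1 + Q2, fun x => ?_⟩
    rw [map_add, h1, h2, map_add, map_add, Finsupp.add_apply]
  | mul_X p i hp =>
    obtain ⟨Q1, h1⟩ := hp
    refine ⟨Q1 * MvPolynomial.X i, fun x => ?_⟩
    rw [map_mul, h1, MvPolynomial.eval_X, map_mul, MvPolynomial.eval_X, mul_comm _ ((x i : ℤ) : O),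
      ← zsmul_eq_mul, map_zsmul, Finsupp.smul_apply, smul_eq_mul, mul_comm]

end coord

variable {K : Type*} [Field K] [NumberField K]

theorem exists_kappa {p : ℕ} (hp : p.Prime) (P : Ideal (𝓞 K)) (hP : Ideal.absNorm P = p) :
    ∃ κ : 𝓞 K →+* ZMod p, RingHom.ker κ = P := by
  have hfin : Finite (𝓞 K ⧸ P) := by
    rw [← Ideal.absNorm_ne_zero_iff, hP]
    exact hp.ne_zero
  have := Fintype.ofFinite (𝓞 K ⧸ P)
  have hcard : Fintype.card (𝓞 K ⧸ P) = p := by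
    rw [← hP, Ideal.absNorm_apply, Submodule.cardQuot_apply, Nat.card_eq_fintype_card]
  let e := (ZMod.ringEquivOfPrime (𝓞 K ⧸ P) hp hcard).symm
  refine ⟨e.toRingHom.comp (Ideal.Quotient.mk P), ?_⟩
  ext x
  rw [RingHom.mem_ker, RingHom.comp_apply]
  change e (Ideal.Quotient.mk P x) = 0 ↔ _
  rw [map_eq_zero_iff _ e.injective, Ideal.Quotient.eq_zero_iff_mem]

/-- linearly independent elements -/
theorem exists_elements : ∃ (m : ℕ) (e : Fin m → 𝓞 K), Module.finrank ℚ K = m + 1 ∧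
    LinearIndependent ℤ (Fin.cons 1 e : Fin (m + 1) → 𝓞 K) := by
  obtain ⟨α, hα⟩ := Field.exists_primitive_element ℚ K
  have hαalg : IsAlgebraic ℤ α := (IsFractionRing.isAlgebraic_iff ℤ ℚ K).2
    (Algebra.IsAlgebraic.isAlgebraic α)
  obtain ⟨d, hd, hint⟩ := hαalg.exists_integral_multiple
  set ζ : 𝓞 K := ⟨(d : K) * α, by rwa [← zsmul_eq_mul]⟩ with hζ
  have hζα : (ζ : K) = (d : K) * α := rfl
  have hdK : (d : K) ≠ 0 := by exact_mod_cast hd
  have htop : IntermediateField.adjoin ℚ {(ζ : K)} = ⊤ := by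
    rw [eq_top_iff, ← hα, IntermediateField.adjoin_simple_le_iff]
    have h1 : (ζ : K) ∈ IntermediateField.adjoin ℚ {(ζ : K)} :=
      IntermediateField.mem_adjoin_simple_self ℚ _
    have h2 : α = (d : K)⁻¹ * (ζ : K) := by
      rw [hζα, inv_mul_cancel_left₀ hdK]
    rw [h2]
    refine mul_mem (inv_mem ?_) h1
    exact intCast_mem _ d
  have hn : 0 < Module.finrank ℚ K := Module.finrank_pos
  obtain ⟨m, hm⟩ : ∃ m, Module.finrank ℚ K = m + 1 := ⟨Module.finrank ℚ K - 1, by omega⟩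
  have hdeg : (minpoly ℚ (ζ : K)).natDegree = m + 1 := by
    have h1 := IntermediateField.adjoin.finrank (IsIntegral.of_finite ℚ (ζ : K))
    rw [← h1, htop, IntermediateField.finrank_top', hm]
  have hli := linearIndependent_pow (K := ℚ) (ζ : K)
  refine ⟨m, fun i => ζ ^ ((i : ℕ) + 1), hm, ?_⟩
  have h1 : (Fin.cons 1 fun i : Fin m => ζ ^ ((i : ℕ) + 1) : Fin (m + 1) → 𝓞 K) =
      fun i : Fin (m + 1) => ζ ^ (i : ℕ) := by
    funext i
    refine Fin.cases ?_ (fun i => ?_) i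
    · simp
    · simp
  rw [h1]
  have h2 : LinearIndependent ℚ fun i : Fin (m + 1) => (ζ : K) ^ (i : ℕ) := by
    rw [← hdeg]
    exact hli
  have h3 : LinearIndependent ℤ fun i : Fin (m + 1) => (ζ : K) ^ (i : ℕ) :=
    h2.restrict_scalars (by
      intro x y h
      simpa using h)
  rw [Fintype.linearIndependent_iff] at h3 ⊢
  intro g hg i
  apply h3 g
  have := congrArg (algebraMap (𝓞 K) K) hg
  simpa [map_sum, zsmul_eq_mul] using this

theorem norm_gamma {m : ℕ} (e : Fin m → 𝓞 K) : ∃ B : ℕ, 1 ≤ B ∧ ∀ (t : ℝ) (c0 : ℤ) (c : Fin m → ℤ),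
    |(c0 : ℝ)| ≤ t → (∀ i, |(c i : ℝ)| ≤ t) → ∀ σ : K →+* ℂ,
      ‖σ ((c0 + ∑ i, (c i : 𝓞 K) * e i : 𝓞 K) : K)‖ ≤ B * t := by
  set S : ℝ := ∑ σ : K →+* ℂ, ∑ i, ‖σ (e i : K)‖ with hS
  have hS0 : 0 ≤ S := Finset.sum_nonneg fun _ _ => Finset.sum_nonneg fun _ _ => norm_nonneg _
  refine ⟨⌈S⌉₊ + 1, by omega, fun t c0 c hc0 hc σ => ?_⟩
  have ht : 0 ≤ t := (abs_nonneg _).trans hc0
  have h2 : σ ((c0 + ∑ i, (c i : 𝓞 K) * e i : 𝓞 K) : K) =
      (c0 : ℂ) + ∑ i, (c i : ℂ) * σ (e i : K) := by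
    simp [map_sum, map_add]
  rw [h2]
  have h3 : ‖∑ i, (c i : ℂ) * σ (e i : K)‖ ≤ t * S := by
    calc ‖∑ i, (c i : ℂ) * σ (e i : K)‖ ≤ ∑ i, ‖(c i : ℂ) * σ (e i : K)‖ := norm_sum_le _ _
      _ ≤ ∑ i, t * ‖σ (e i : K)‖ := by
          refine Finset.sum_le_sum fun i _ => ?_
          rw [norm_mul]
          refine mul_le_mul_of_nonneg_right ?_ (norm_nonneg _)
          rw [Complex.norm_intCast]
          exact hc i
      _ = t * ∑ i, ‖σ (e i : K)‖ := by rw [Finset.mul_sum]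
      _ ≤ t * S := by
          refine mul_le_mul_of_nonneg_left ?_ ht
          exact Finset.single_le_sum (f := fun σ : K →+* ℂ => ∑ i, ‖σ (e i : K)‖)
            (fun _ _ => Finset.sum_nonneg fun _ _ => norm_nonneg _) (Finset.mem_univ σ)
  have h4 : ‖(c0 : ℂ)‖ ≤ t := by
    rw [Complex.norm_intCast]
    exact hc0
  have h5 := norm_add_le (c0 : ℂ) (∑ i, (c i : ℂ) * σ (e i : K))
  have h6 := Nat.le_ceil S
  push_cast
  nlinarith

/-- pigeonhole -/
theorem exists_small {m : ℕ} (e : Fin m → 𝓞 K)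
    (he : LinearIndependent ℤ (Fin.cons 1 e : Fin (m + 1) → 𝓞 K)) {p : ℕ} [NeZero p] (H : ℕ)
    (hH : p < (H + 1) ^ (m + 1)) (κ : 𝓞 K →+* ZMod p) :
    ∃ (c0 : ℤ) (c : Fin m → ℤ), |c0| ≤ H ∧ (∀ i, |c i| ≤ H) ∧
      κ (c0 + ∑ i, (c i : 𝓞 K) * e i) = 0 ∧ (c0 + ∑ i, (c i : 𝓞 K) * e i : 𝓞 K) ≠ 0 := by
  classical
  have hcard : Fintype.card (ZMod p) < Fintype.card (Fin (m + 1) → Fin (H + 1)) := by
    rw [ZMod.card, Fintype.card_fun, Fintype.card_fin, Fintype.card_fin]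
    exact hH
  obtain ⟨v, w, hvw, h⟩ := Fintype.exists_ne_map_eq_of_card_lt
    (fun v : Fin (m + 1) → Fin (H + 1) =>
      κ (∑ i, ((v i : ℕ) : 𝓞 K) * (Fin.cons 1 e : Fin (m + 1) → 𝓞 K) i)) hcard
  have hsum : (((v 0 : ℕ) : ℤ) - ((w 0 : ℕ) : ℤ) : ℤ) + ∑ i : Fin m, (((((v i.succ : ℕ) : ℤ) -
      ((w i.succ : ℕ) : ℤ) : ℤ)) : 𝓞 K) * e i =
      ∑ i, ((v i : ℕ) : 𝓞 K) * (Fin.cons 1 e : Fin (m + 1) → 𝓞 K) i -
        ∑ i, ((w i : ℕ) : 𝓞 K) * (Fin.cons 1 e : Fin (m + 1) → 𝓞 K) i := by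
    rw [Fin.sum_univ_succ, Fin.sum_univ_succ]
    simp only [Fin.cons_zero, Fin.cons_succ]
    push_cast
    simp only [sub_mul, Finset.sum_sub_distrib]
    ring
  refine ⟨((v 0 : ℕ) : ℤ) - ((w 0 : ℕ) : ℤ), fun i => ((v i.succ : ℕ) : ℤ) - ((w i.succ : ℕ) : ℤ),
    ?_, fun i => ?_, ?_, ?_⟩
  · have h1 := (v 0).isLt
    have h2 := (w 0).isLt
    rw [abs_le]
    constructor <;> omega
  · have h1 := (v i.succ).isLt
    have h2 := (w i.succ).isLt
    simp only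
    rw [abs_le]
    constructor <;> omega
  · rw [hsum, map_sub, sub_eq_zero]
    exact h
  · intro h0
    apply hvw
    rw [hsum, ← Finset.sum_sub_distrib] at h0
    rw [Fintype.linearIndependent_iff] at he
    have h1 := he (fun i => ((v i : ℕ) : ℤ) - ((w i : ℕ) : ℤ)) (by
      rw [← h0]
      refine Finset.sum_congr rfl fun i _ => ?_
      rw [zsmul_eq_mul]
      push_cast
      ring)
    funext i
    have := h1 i
    apply Fin.ext
    omega

end Pool.Agent.Lib.MP_6ac54e_lc.NoF
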