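import Mathlib
import Pool.Agent.Lib.MP_ea3785_nt.WeakCheb
import Pool.Agent.Lib.MP_6ac54e_lc.NoCount

set_option autoImplicit false

open scoped ENNReal Topology
open IsDedekindDomain NumberField Filter Polynomial Pool.Agent.Lib.QCFT Pool.Agent.Lib.WeakCheb

namespace Pool.Agent.Lib.MP_6ac54e_lc.NoF

section diverge

variable (M : Type*) [Field M] [NumberField M]

/-- the primes with a homomorphism -/
def SH (N : ℕ) : Set ℕ := {p | p.Prime ∧ N < p ∧ Nonempty (𝓞 M →+* ZMod p)}

open Classical in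
/-- their reciprocals -/
noncomputable def gh (N p : ℕ) : ℝ≥0∞ := if p ∈ SH M N then ENNReal.ofReal ((p : ℝ)⁻¹) else 0

theorem qv_good_le (N : ℕ) (s : ℝ) (hs : 1 ≤ s) (v : Good M N) :
    qv M s v ≤ gh M N (pf M v).1 := by
  obtain ⟨h1, _, h3, h4⟩ := pf_spec M v.1
  have hv := v.2
  rw [hv.2, pow_one] at h4
  obtain ⟨φ, -⟩ := exists_hom M N v.1 v.2
  have hmem : (pf M v.1).1 ∈ SH M N := ⟨h3, hv.1, ⟨φ⟩⟩
  rw [gh, if_pos hmem, qv, phi_apply, h4]
  apply ENNReal.ofReal_le_ofReal
  have hp1 : (1 : ℝ) ≤ ((pf M v.1).1 : ℝ) := by exact_mod_cast h3.one_lt.le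
  rw [← Real.rpow_neg_one]
  exact Real.rpow_le_rpow_of_exponent_le hp1 (by linarith)

theorem tsum_good_le (N : ℕ) (s : ℝ) (hs : 1 ≤ s) :
    ∑' v : Good M N, qv M s v ≤ (deg M : ℝ≥0∞) * ∑' p, gh M N p := by
  calc ∑' v : Good M N, qv M s v ≤ ∑' v : Good M N, gh M N (pf M v).1 :=
        ENNReal.tsum_le_tsum fun v => qv_good_le M N s hs v
    _ ≤ ∑' v : HeightOneSpectrum (𝓞 M), gh M N (pf M v).1 :=
        ENNReal.tsum_comp_le_tsum_of_injective Subtype.val_injective _
    _ ≤ _ := by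
      rw [← (Equiv.sigmaFiberEquiv (fun v : HeightOneSpectrum (𝓞 M) => (pf M v).1)).tsum_eq,
        ENNReal.tsum_sigma', ← ENNReal.tsum_mul_left]
      refine ENNReal.tsum_le_tsum fun p => ?_
      have h2 : ∀ v : {v : HeightOneSpectrum (𝓞 M) // (pf M v).1 = p},
          gh M N (pf M ((Equiv.sigmaFiberEquiv (fun v : HeightOneSpectrum (𝓞 M) => (pf M v).1))
            ⟨p, v⟩)).1 = gh M N p := by
        intro v
        congr 1
        exact v.2
      rw [tsum_congr h2, ENNReal.tsum_const]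
      gcongr
      exact_mod_cast encard_fiber_le M p

/-- the sum of the reciprocals of the primes of degree one diverges -/
theorem tsum_gh (N : ℕ) : ∑' p, gh M N p = ∞ := by
  by_contra hne
  obtain ⟨C, hC, hZ⟩ := ZE_le M N
  set A : ℝ≥0∞ := (deg M : ℝ≥0∞) * ∑' p, gh M N p with hA
  have hAtop : A ≠ ∞ := ENNReal.mul_ne_top (by simp) hne
  set D : ℝ≥0∞ := C * ENNReal.ofReal (Real.exp (2 * A.toReal)) with hD
  have hDtop : D ≠ ∞ := ENNReal.mul_ne_top hC ENNReal.ofReal_ne_top
  have key : ∀ s : ℝ, 1 ≤ s → ZE M s ≤ D := by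
    intro s hs
    refine (hZ s hs).trans ?_
    rw [hD]
    refine mul_le_mul' le_rfl ?_
    have h1 := tsum_good_le M N s hs
    have h2 : ∑' v : Good M N, qv M s v ≠ ∞ := ne_top_of_le_ne_top hAtop h1
    refine (ES_le_exp (fun v : Good M N => qv M s v) (fun v => qv_le M s hs _) h2).trans ?_
    apply ENNReal.ofReal_le_ofReal
    apply Real.exp_le_exp.mpr
    have := ENNReal.toReal_mono hAtop h1
    linarith
  have hM := tendsto_zR M
  have hrM := dedekindZeta_residue_pos M
  have hs1 : Tendsto (fun s : ℝ => s - 1) (𝓝[>] 1) (𝓝 0) := by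
    have : Tendsto (fun s : ℝ => s - 1) (𝓝 1) (𝓝 (1 - 1)) :=
      (continuous_id.sub continuous_const).tendsto 1
    rw [sub_self] at this
    exact this.mono_left nhdsWithin_le_nhds
  have hlim2 : Tendsto (fun s : ℝ => (s - 1) * D.toReal) (𝓝[>] 1) (𝓝 (0 * D.toReal)) :=
    hs1.mul_const _
  rw [zero_mul] at hlim2
  have hev : ∀ᶠ s : ℝ in 𝓝[>] 1, (s - 1) * zR M s ≤ (s - 1) * D.toReal := by
    have e1 := hM.eventually (lt_mem_nhds hrM)
    filter_upwards [e1, self_mem_nhdsWithin] with s h1 h3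
    have h3' : (1 : ℝ) < s := h3
    have hs0 : 0 < s - 1 := by linarith
    have hzM : 0 < zR M s := (pos_iff_pos_of_mul_pos h1).mp hs0
    have h4 := key s h3'.le
    rw [ZE_eq_ofReal M s hzM.ne'] at h4
    have h5 := ENNReal.toReal_mono hDtop h4
    rw [ENNReal.toReal_ofReal hzM.le] at h5
    exact mul_le_mul_of_nonneg_left h5 hs0.le
  have hle := le_of_tendsto_of_tendsto hM hlim2 hev
  linarith

end diverge

/-- real form -/
theorem not_summable_SH (M : Type*) [Field M] [NumberField M] (N : ℕ) (S : Set ℕ)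
    (hS : SH M N ⊆ S) : ¬ Summable (S.indicator fun p : ℕ => (1 : ℝ) / p) := by
  classical
  intro h
  have h0 : ∀ p : ℕ, 0 ≤ S.indicator (fun p : ℕ => (1 : ℝ) / p) p := fun p =>
    Set.indicator_nonneg (fun _ _ => by positivity) p
  have h1 := h.tsum_ofReal_ne_top
  apply h1
  rw [eq_top_iff, ← tsum_gh M N]
  refine ENNReal.tsum_le_tsum fun p => ?_
  rw [gh]
  split_ifs with hp
  · rw [Set.indicator_of_mem (hS hp), one_div]
  · exact zero_le

variable {K : Type*} [Field K] [NumberField K]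

theorem not_summable_root_aux {M : Type*} [Field M] [NumberField M] [Algebra K M] (f : ℤ[X])
    (hf0 : f ≠ 0) (θ : M) (hθ' : aeval θ f = 0) :
    ¬ Summable ({p : ℕ | p.Prime ∧ (∃ P : Ideal (𝓞 K), Ideal.absNorm P = p) ∧
      ∃ r : ZMod p, aeval r f = 0}.indicator fun p : ℕ => (1 : ℝ) / p) := by
  have ha : f.leadingCoeff ≠ 0 := Polynomial.leadingCoeff_ne_zero.2 hf0
  have hint : IsIntegral ℤ ((f.leadingCoeff : M) * θ) := by
    have := isIntegral_leadingCoeff_smul f θ hθ'
    rwa [zsmul_eq_mul] at this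
  set α : 𝓞 M := ⟨(f.leadingCoeff : M) * θ, hint⟩ with hα
  have hhv : hv f α (f.leadingCoeff : 𝓞 M) = 0 := by
    apply FaithfulSMul.algebraMap_injective (𝓞 M) M
    rw [map_hv, map_zero, map_intCast]
    have : algebraMap (𝓞 M) M α = θ * (f.leadingCoeff : M) := by
      rw [mul_comm]; rfl
    rw [this, hv_mul, hθ', mul_zero]
  refine not_summable_SH M f.leadingCoeff.natAbs _ ?_
  rintro p ⟨hp, hN, ⟨φ⟩⟩
  have hpf : Fact p.Prime := ⟨hp⟩
  refine ⟨hp, ⟨RingHom.ker (φ.comp (algebraMap (𝓞 K) (𝓞 M))), absNorm_ker K hp _⟩, ?_⟩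
  have hpa : ((f.leadingCoeff : ℤ) : ZMod p) ≠ 0 := by
    intro h
    have h1 := (ZMod.intCast_zmod_eq_zero_iff_dvd _ p).1 h
    have h2 := Nat.le_of_dvd (Int.natAbs_pos.2 ha) (Int.natCast_dvd.1 h1)
    omega
  refine ⟨φ α / (f.leadingCoeff : ZMod p), ?_⟩
  have h3 := hv_mul f (φ α / (f.leadingCoeff : ZMod p)) (f.leadingCoeff : ZMod p)
  rw [div_mul_cancel₀ _ hpa] at h3
  have h4 : hv f (φ α) (f.leadingCoeff : ZMod p) = 0 := by
    have := congrArg φ hhv
    rw [map_hv, map_zero, map_intCast] at this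
    exact this
  rw [h4] at h3
  exact (mul_eq_zero.1 h3.symm).resolve_left (pow_ne_zero _ hpa)

/-- the primes that are norms from `K` and modulo which `f` has a root have divergent sum of
reciprocals -/
theorem not_summable_root (f : ℤ[X]) (hdeg : 0 < f.natDegree) :
    ¬ Summable ({p : ℕ | p.Prime ∧ (∃ P : Ideal (𝓞 K), Ideal.absNorm P = p) ∧
      ∃ r : ZMod p, aeval r f = 0}.indicator fun p : ℕ => (1 : ℝ) / p) := by
  classical
  let g : K[X] := f.map (algebraMap ℤ K)
  have hg : g.degree ≠ 0 := by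
    rw [Polynomial.degree_map_eq_of_injective (algebraMap ℤ K).injective_int]
    exact (Polynomial.natDegree_pos_iff_degree_pos.1 hdeg).ne'
  have : CharZero (SplittingField g) :=
    charZero_of_injective_algebraMap (algebraMap K (SplittingField g)).injective
  have : NumberField (SplittingField g) := NumberField.of_module_finite K (SplittingField g)
  obtain ⟨θ, hθ⟩ := (SplittingField.splits g).exists_eval_eq_zero (by
    rw [Polynomial.degree_map]
    exact hg)
  have hf0 : f ≠ 0 := by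
    intro h
    rw [h] at hdeg
    simp at hdeg
  refine not_summable_root_aux (K := K) (M := SplittingField g) f hf0 θ ?_
  rw [Polynomial.eval_map, Polynomial.eval₂_map] at hθ
  rw [Polynomial.aeval_def, ← hθ]
  congr 1

end Pool.Agent.Lib.MP_6ac54e_lc.NoF
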