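import Mathlib
import Pool.Agent.Lib.MP_6ac54e_lc.NoCount
import Pool.Agent.Lib.MP_6ac54e_lc.NoData

open NumberField Polynomial

namespace Pool.Agent.Lib.MP_6ac54e_lc.NoF

variable {K L : Type*} [Field K] [NumberField K] [Field L] [NumberField L]

/-- bounded integers are finite in number -/
theorem finite_bounded (C : ℝ) : {η : 𝓞 L | ∀ τ : L →+* ℂ, ‖τ (η : L)‖ ≤ C}.Finite := by
  have h := Embeddings.finite_of_norm_le L ℂ C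
  refine Set.Finite.of_finite_image (f := fun η : 𝓞 L => (η : L)) (h.subset ?_) ?_
  · rintro _ ⟨η, hη, rfl⟩
    exact ⟨η.isIntegral_coe, hη⟩
  · intro a _ b _ h
    exact RingOfIntegers.coe_injective h

theorem absNorm_eq_prod (γ : 𝓞 K) : ((Ideal.absNorm (Ideal.span {γ}) : ℕ) : ℝ) =
    ∏ σ : K →+* ℂ, ‖σ (γ : K)‖ := by
  have h1 : ((Ideal.absNorm (Ideal.span {γ}) : ℕ) : ℝ) = |((Algebra.norm ℚ (γ : K) : ℚ) : ℝ)| := by
    rw [Ideal.absNorm_span_singleton, Nat.cast_natAbs, ← Algebra.coe_norm_int]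
    push_cast
    rfl
  have h2 : |((Algebra.norm ℚ (γ : K) : ℚ) : ℝ)| = ∏ σ : K →ₐ[ℚ] ℂ, ‖σ (γ : K)‖ := by
    rw [← norm_prod, ← Algebra.norm_eq_prod_embeddings ℚ ℂ (γ : K)]
    simp
  rw [h1, h2]
  exact (Fintype.prod_equiv (RingHom.equivRatAlgHom K ℂ) (fun σ => ‖σ (γ : K)‖)
    (fun σ => ‖σ (γ : K)‖) fun σ => rfl).symm

theorem conj_ge {n : ℕ} (hn : Module.finrank ℚ K = n + 1) (γ : 𝓞 K) (Y : ℝ)
    (hY : ∀ σ : K →+* ℂ, ‖σ (γ : K)‖ ≤ Y) (σ : K →+* ℂ) :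
    ((Ideal.absNorm (Ideal.span {γ}) : ℕ) : ℝ) ≤ ‖σ (γ : K)‖ * Y ^ n := by
  classical
  rw [absNorm_eq_prod, ← Finset.mul_prod_erase _ _ (Finset.mem_univ σ)]
  refine mul_le_mul_of_nonneg_left ?_ (norm_nonneg _)
  have hcard : (Finset.univ.erase σ).card = n := by
    rw [Finset.card_erase_of_mem (Finset.mem_univ σ), Finset.card_univ, Embeddings.card, hn]
    rfl
  calc ∏ σ' ∈ Finset.univ.erase σ, ‖σ' (γ : K)‖ ≤ ∏ σ' ∈ Finset.univ.erase σ, Y :=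
        Finset.prod_le_prod (fun _ _ => norm_nonneg _) fun σ' _ => hY σ'
    _ = Y ^ n := by rw [Finset.prod_const, hcard]

theorem hint {m : ℕ} (hn : Module.finrank ℚ K = m + 1) (e : Fin m → 𝓞 K)
    (he : LinearIndependent ℤ (Fin.cons 1 e : Fin (m + 1) → 𝓞 K)) (M : ℕ) (C₀ : ℝ) :
    ∃ (B : ℕ) (C₁ : ℝ), 1 ≤ B ∧ ∀ p : ℕ, p.Prime → ∀ P : Ideal (𝓞 K), Ideal.absNorm P = p →
      ∃ (κ : 𝓞 K →+* ZMod p) (c0 : ℤ) (c : Fin m → ℤ) (q : ℕ),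
        (∀ i, |(c i : ℝ)| ≤ (p : ℝ) ^ (1 / ((m : ℝ) + 1))) ∧
        κ (c0 + ∑ i, (c i : 𝓞 K) * e i) = 0 ∧ 1 ≤ q ∧ q ≤ B ∧
        ∀ (mm : (K →+* L) → ℕ) (z : 𝓞 L), (∀ σ, mm σ ≤ M) →
          Ideal.span {z} = ∏ σ, (P.map (RingOfIntegers.mapRingHom σ)) ^ mm σ →
          (∀ τ : L →+* ℂ, ‖τ (z : L)‖ ≤ C₀ * (p : ℝ) ^ (((∑ σ, mm σ : ℕ) : ℝ) / ((m : ℝ) + 1))) →
          ∃ η : 𝓞 L, (∀ τ : L →+* ℂ, ‖τ (η : L)‖ ≤ C₁) ∧
            (q : 𝓞 L) ^ (∑ σ, mm σ) * z =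
              η * ∏ σ, (RingOfIntegers.mapRingHom σ ((c0 : 𝓞 K) + ∑ i, (c i : 𝓞 K) * e i)) ^ mm σ := by
  classical
  obtain ⟨B, hB, hBnorm⟩ := norm_gamma e
  have hBR : (1 : ℝ) ≤ B := by exact_mod_cast hB
  refine ⟨B ^ (m + 1), |C₀| * ((B : ℝ) ^ (m + 1) * (B : ℝ) ^ m) ^ (Fintype.card (K →+* L) * M),
    Nat.one_le_pow _ _ hB, fun p hp P hP => ?_⟩
  have hp0 : (0 : ℝ) < p := by exact_mod_cast hp.pos
  have : NeZero p := ⟨hp.ne_zero⟩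
  set t : ℝ := (p : ℝ) ^ (1 / ((m : ℝ) + 1)) with ht
  have ht0 : 0 < t := Real.rpow_pos_of_pos hp0 _
  have htn : t ^ (m + 1) = p := by
    rw [ht, ← Real.rpow_natCast, ← Real.rpow_mul hp0.le]
    push_cast
    rw [one_div_mul_cancel (by positivity), Real.rpow_one]
  obtain ⟨κ, hκ⟩ := exists_kappa hp P hP
  have hH : p < (⌊t⌋₊ + 1) ^ (m + 1) := by
    have h1 : (p : ℝ) < ((⌊t⌋₊ : ℝ) + 1) ^ (m + 1) := by
      rw [← htn]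
      exact pow_lt_pow_left₀ (Nat.lt_floor_add_one t) ht0.le (by omega)
    exact_mod_cast h1
  obtain ⟨c0, c, hc0, hc, hκ0, hγ0⟩ := exists_small e he ⌊t⌋₊ hH κ
  have hfl : ((⌊t⌋₊ : ℕ) : ℝ) ≤ t := Nat.floor_le ht0.le
  have hc0' : |(c0 : ℝ)| ≤ t := by
    have : |(c0 : ℝ)| ≤ ((⌊t⌋₊ : ℕ) : ℝ) := by exact_mod_cast hc0
    exact this.trans hfl
  have hc' : ∀ i, |(c i : ℝ)| ≤ t := by
    intro i
    have : |(c i : ℝ)| ≤ ((⌊t⌋₊ : ℕ) : ℝ) := by exact_mod_cast hc i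
    exact this.trans hfl
  set γ : 𝓞 K := c0 + ∑ i, (c i : 𝓞 K) * e i with hγ
  have hup := hBnorm t c0 c hc0' hc'
  have hγP : γ ∈ P := by rw [← hκ, RingHom.mem_ker]; exact hκ0
  obtain ⟨𝔟, h𝔟⟩ : P ∣ Ideal.span {γ} := Ideal.dvd_span_singleton.2 hγP
  have hnorm : Ideal.absNorm (Ideal.span {γ}) = p * Ideal.absNorm 𝔟 := by
    rw [h𝔟, map_mul, hP]
  have hN0 : Ideal.absNorm (Ideal.span {γ}) ≠ 0 := by
    rw [Ne, Ideal.absNorm_eq_zero_iff, Ideal.span_singleton_eq_bot]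
    exact hγ0
  have hq0 : Ideal.absNorm 𝔟 ≠ 0 := by
    intro h
    rw [hnorm, h, mul_zero] at hN0
    exact hN0 rfl
  have hqB : Ideal.absNorm 𝔟 ≤ B ^ (m + 1) := by
    have h1 := absNorm_le γ (B * t) hup
    rw [hnorm, hn, mul_pow, htn] at h1
    push_cast at h1
    have h2 : (Ideal.absNorm 𝔟 : ℝ) ≤ (B : ℝ) ^ (m + 1) := by
      rw [mul_comm] at h1
      exact le_of_mul_le_mul_right h1 hp0
    exact_mod_cast h2
  -- lower bound for the conjugates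
  have hlow : ∀ σ : K →+* ℂ, t ≤ (B : ℝ) ^ m * ‖σ (γ : K)‖ := by
    intro σ
    have h1 := conj_ge hn γ (B * t) hup σ
    have h2 : (p : ℝ) ≤ ((Ideal.absNorm (Ideal.span {γ}) : ℕ) : ℝ) := by
      rw [hnorm]
      push_cast
      have : (1 : ℝ) ≤ (Ideal.absNorm 𝔟 : ℝ) := by
        exact_mod_cast Nat.one_le_iff_ne_zero.2 hq0
      nlinarith
    have h3 := h2.trans h1
    rw [← htn, mul_pow, pow_succ'] at h3
    have h4 : 0 < t ^ m := pow_pos ht0 _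
    have h5 : t * t ^ m ≤ ((B : ℝ) ^ m * ‖σ (γ : K)‖) * t ^ m := by
      calc t * t ^ m ≤ ‖σ (γ : K)‖ * ((B : ℝ) ^ m * t ^ m) := h3
        _ = _ := by ring
    exact le_of_mul_le_mul_right h5 h4
  refine ⟨κ, c0, c, Ideal.absNorm 𝔟, hc', hκ0, Nat.one_le_iff_ne_zero.2 hq0, hqB, ?_⟩
  intro mm z hmm hz hzb
  set Γ : 𝓞 L := ∏ σ, (RingOfIntegers.mapRingHom σ γ) ^ mm σ with hΓ
  have hspanΓ : Ideal.span {Γ} = Ideal.span {z} * ∏ σ, (𝔟.map (RingOfIntegers.mapRingHom σ)) ^ mm σ := by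
    rw [hz, hΓ, ← Finset.prod_mul_distrib, ← Ideal.prod_span_singleton]
    refine Finset.prod_congr rfl fun σ _ => ?_
    rw [← Ideal.span_singleton_pow, ← mul_pow, ← Ideal.map_mul, ← h𝔟, Ideal.map_span,
      Set.image_singleton]
  have hmem : ((Ideal.absNorm 𝔟 : ℕ) : 𝓞 L) ^ (∑ σ, mm σ) ∈
      ∏ σ, (𝔟.map (RingOfIntegers.mapRingHom (σ : K →+* L))) ^ mm σ := by
    rw [← Finset.prod_pow_eq_pow_sum]
    refine Ideal.prod_mem_prod fun σ _ => Ideal.pow_mem_pow ?_ _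
    have h1 : ((Ideal.absNorm 𝔟 : ℕ) : 𝓞 K) ∈ 𝔟 := Ideal.absNorm_mem 𝔟
    have h2 := Ideal.mem_map_of_mem (RingOfIntegers.mapRingHom σ) h1
    rwa [map_natCast] at h2
  have hmem2 : ((Ideal.absNorm 𝔟 : ℕ) : 𝓞 L) ^ (∑ σ, mm σ) * z ∈ Ideal.span {Γ} := by
    rw [hspanΓ, mul_comm (Ideal.span {z})]
    exact Ideal.mul_mem_mul hmem (Ideal.mem_span_singleton_self z)
  obtain ⟨η, hη⟩ := Ideal.mem_span_singleton'.1 hmem2
  refine ⟨η, fun τ => ?_, hη.symm⟩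
  -- size
  have hs : (∑ σ, mm σ) ≤ Fintype.card (K →+* L) * M := by
    calc ∑ σ, mm σ ≤ ∑ _σ : K →+* L, M := Finset.sum_le_sum fun σ _ => hmm σ
      _ = _ := by rw [Finset.sum_const, Finset.card_univ, smul_eq_mul]
  have hΓlow : t ^ (∑ σ, mm σ) ≤ ((B : ℝ) ^ m) ^ (∑ σ, mm σ) * ‖τ (Γ : L)‖ := by
    have h1 : τ (Γ : L) = ∏ σ, (τ.comp σ (γ : K)) ^ mm σ := by
      have h2 : (τ.comp (algebraMap (𝓞 L) L)) Γ =
          ∏ σ, ((τ.comp (algebraMap (𝓞 L) L)) (RingOfIntegers.mapRingHom σ γ)) ^ mm σ := by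
        rw [hΓ, map_prod]
        refine Finset.prod_congr rfl fun σ _ => ?_
        rw [map_pow]
      refine h2.trans ?_
      refine Finset.prod_congr rfl fun σ _ => ?_
      congr 1
    rw [h1, norm_prod, ← Finset.prod_pow_eq_pow_sum, ← Finset.prod_pow_eq_pow_sum,
      ← Finset.prod_mul_distrib]
    refine Finset.prod_le_prod (fun σ _ => by positivity) fun σ _ => ?_
    rw [norm_pow, ← mul_pow]
    exact pow_le_pow_left₀ ht0.le (hlow _) _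
  have hzb' := hzb τ
  have ht2 : (p : ℝ) ^ (((∑ σ, mm σ : ℕ) : ℝ) / ((m : ℝ) + 1)) = t ^ (∑ σ, mm σ) := by
    rw [ht, ← Real.rpow_natCast ((p : ℝ) ^ (1 / ((m : ℝ) + 1))), ← Real.rpow_mul hp0.le]
    congr 1
    ring
  rw [ht2] at hzb'
  have heq : ‖τ (η : L)‖ * ‖τ (Γ : L)‖ =
      ((Ideal.absNorm 𝔟 : ℕ) : ℝ) ^ (∑ σ, mm σ) * ‖τ (z : L)‖ := by
    have h1 := congrArg (fun x : 𝓞 L => ‖τ (x : L)‖) hη
    simpa using h1
  have htpos : 0 < t ^ (∑ σ, mm σ) := pow_pos ht0 _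
  have hqR : ((Ideal.absNorm 𝔟 : ℕ) : ℝ) ≤ (B : ℝ) ^ (m + 1) := by exact_mod_cast hqB
  have h1 : ‖τ (η : L)‖ * t ^ (∑ σ, mm σ) ≤
      (|C₀| * ((B : ℝ) ^ (m + 1) * (B : ℝ) ^ m) ^ (∑ σ, mm σ)) * t ^ (∑ σ, mm σ) := by
    calc ‖τ (η : L)‖ * t ^ (∑ σ, mm σ)
        ≤ ‖τ (η : L)‖ * (((B : ℝ) ^ m) ^ (∑ σ, mm σ) * ‖τ (Γ : L)‖) :=
          mul_le_mul_of_nonneg_left hΓlow (norm_nonneg _)
      _ = ((B : ℝ) ^ m) ^ (∑ σ, mm σ) * (‖τ (η : L)‖ * ‖τ (Γ : L)‖) := by ring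
      _ = ((B : ℝ) ^ m) ^ (∑ σ, mm σ) *
          (((Ideal.absNorm 𝔟 : ℕ) : ℝ) ^ (∑ σ, mm σ) * ‖τ (z : L)‖) := by rw [heq]
      _ ≤ ((B : ℝ) ^ m) ^ (∑ σ, mm σ) *
          (((B : ℝ) ^ (m + 1)) ^ (∑ σ, mm σ) * (|C₀| * t ^ (∑ σ, mm σ))) := by
          refine mul_le_mul_of_nonneg_left ?_ (by positivity)
          refine mul_le_mul (pow_le_pow_left₀ (Nat.cast_nonneg _) hqR _) ?_ (norm_nonneg _)
            (by positivity)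
          refine hzb'.trans ?_
          exact mul_le_mul_of_nonneg_right (le_abs_self _) htpos.le
      _ = _ := by
          rw [mul_pow]
          ring
  have h2 := le_of_mul_le_mul_right h1 htpos
  refine h2.trans ?_
  refine mul_le_mul_of_nonneg_left ?_ (abs_nonneg _)
  refine pow_le_pow_right₀ ?_ hs
  have h3 : (1 : ℝ) ≤ (B : ℝ) ^ (m + 1) := one_le_pow₀ hBR
  have h4 : (1 : ℝ) ≤ (B : ℝ) ^ m := one_le_pow₀ hBR
  nlinarith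

end Pool.Agent.Lib.MP_6ac54e_lc.NoF
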