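import Mathlib
import Pool.Agent.Lib.MP_6ac54e_lc.NoCount

open NumberField Polynomial

namespace Pool.Agent.Lib.MP_6ac54e_lc.NoR

/-- the ring of algebraic integers -/
abbrev Oi (Ω : Type*) [Field Ω] := integralClosure ℤ Ω

section split

variable {Ω : Type*} [Field Ω]

theorem split_aux (ω : Ω) : ∀ (e : ℕ) (G : (Oi Ω)[X]), G.natDegree ≤ e → aeval ω G = 0 →
    ∃ Q R : (Oi Ω)[X], G = X * Q - R ∧
      (∀ i, ((R.coeff i : Oi Ω) : Ω) = ω * ((Q.coeff i : Oi Ω) : Ω)) ∧
      ∀ i, e ≤ i → Q.coeff i = 0 := by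
  intro e
  induction e with
  | zero =>
    intro G hG h
    have h1 : G = C (G.coeff 0) := Polynomial.eq_C_of_natDegree_le_zero hG
    rw [h1, aeval_C] at h
    have h2 : G.coeff 0 = 0 := by
      apply Subtype.ext
      exact h
    refine ⟨0, 0, ?_, by simp, by simp⟩
    rw [h1, h2]
    simp
  | succ e ih =>
    intro G hG h
    set a := G.coeff (e + 1) with ha
    have hint : IsIntegral ℤ ((a : Ω) * ω) := by
      by_cases h0 : a = 0
      · rw [h0]
        simpa using isIntegral_zero
      · have hdeg : G.natDegree = e + 1 := by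
          apply le_antisymm hG
          exact le_natDegree_of_ne_zero h0
        have h1 := isIntegral_leadingCoeff_smul G ω h
        have h2 : G.leadingCoeff • ω = (a : Ω) * ω := by
          rw [leadingCoeff, hdeg]
          rfl
        rw [h2] at h1
        exact isIntegral_trans _ h1
    set α : Oi Ω := ⟨(a : Ω) * ω, hint⟩ with hα
    have hα' : (α : Ω) = (a : Ω) * ω := rfl
    set G1 : (Oi Ω)[X] := G - C a * X ^ (e + 1) + C α * X ^ e with hG1
    have hdeg1 : G1.natDegree ≤ e := by
      rw [natDegree_le_iff_coeff_eq_zero]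
      intro N hN
      rw [hG1, coeff_add, coeff_sub, coeff_C_mul_X_pow, coeff_C_mul_X_pow]
      rw [if_neg (by omega : ¬ N = e)]
      by_cases hN1 : N = e + 1
      · rw [if_pos hN1, hN1, ← ha]
        ring
      · rw [if_neg hN1]
        have : G.coeff N = 0 := coeff_eq_zero_of_natDegree_lt (by omega)
        rw [this]
        ring
    have h1 : aeval ω G1 = 0 := by
      rw [hG1, map_add, map_sub, h, map_mul, map_mul, aeval_C, aeval_C, map_pow, map_pow, aeval_X]
      have e1 : algebraMap (Oi Ω) Ω a = (a : Ω) := rfl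
      have e2 : algebraMap (Oi Ω) Ω α = (a : Ω) * ω := rfl
      rw [e1, e2]
      ring
    obtain ⟨Q1, R1, h2, h3, h4⟩ := ih G1 hdeg1 h1
    refine ⟨Q1 + C a * X ^ e, R1 + C α * X ^ e, ?_, ?_, ?_⟩
    · have : G = G1 + C a * X ^ (e + 1) - C α * X ^ e := by rw [hG1]; ring
      rw [this, h2]
      ring
    · intro i
      rw [coeff_add, coeff_add, coeff_C_mul_X_pow, coeff_C_mul_X_pow]
      push_cast
      rw [h3 i]
      split_ifs
      · rw [hα']
        ring
      · push_cast
        ring
    · intro i hi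
      rw [coeff_add, coeff_C_mul_X_pow, h4 i (by omega), if_neg (by omega)]
      ring

variable [IsAlgClosed Ω]

theorem exists_split (G : (Oi Ω)[X]) : ∃ (ω : Ω) (Q R : (Oi Ω)[X]), G.natDegree ≠ 0 →
    aeval ω G = 0 ∧ G = X * Q - R ∧
      (∀ i, ((R.coeff i : Oi Ω) : Ω) = ω * ((Q.coeff i : Oi Ω) : Ω)) ∧
      ∀ i, G.natDegree ≤ i → Q.coeff i = 0 := by
  by_cases h : G.natDegree = 0
  · exact ⟨0, 0, 0, fun h' => absurd h h'⟩
  · have hdeg : (G.map (algebraMap (Oi Ω) Ω)).degree ≠ 0 := by
      rw [degree_map_eq_of_injective Subtype.val_injective]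
      intro h0
      exact h (natDegree_eq_of_degree_eq_some h0)
    obtain ⟨ω, hω⟩ := IsAlgClosed.exists_root _ hdeg
    have hω' : aeval ω G = 0 := by
      rw [IsRoot.def, eval_map_algebraMap] at hω
      exact hω
    obtain ⟨Q, R, h1, h2, h3⟩ := split_aux ω G.natDegree G le_rfl hω'
    exact ⟨ω, Q, R, fun _ => ⟨hω', h1, h2, h3⟩⟩

/-- the chosen root -/
noncomputable def spω (G : (Oi Ω)[X]) : Ω := (exists_split G).choose
/-- the quotient -/
noncomputable def spQ (G : (Oi Ω)[X]) : (Oi Ω)[X] := (exists_split G).choose_spec.choose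
/-- the quotient times the root -/
noncomputable def spR (G : (Oi Ω)[X]) : (Oi Ω)[X] := (exists_split G).choose_spec.choose_spec.choose

theorem sp_spec (G : (Oi Ω)[X]) (h : G.natDegree ≠ 0) : aeval (spω G) G = 0 ∧
    G = X * spQ G - spR G ∧
      (∀ i, (((spR G).coeff i : Oi Ω) : Ω) = spω G * (((spQ G).coeff i : Oi Ω) : Ω)) ∧
      ∀ i, G.natDegree ≤ i → (spQ G).coeff i = 0 :=
  (exists_split G).choose_spec.choose_spec.choose_spec h

theorem spR_zero (G : (Oi Ω)[X]) (h : G.natDegree ≠ 0) (i : ℕ) (hi : G.natDegree ≤ i) :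
    (spR G).coeff i = 0 := by
  obtain ⟨_, _, h3, h4⟩ := sp_spec G h
  apply Subtype.ext
  rw [h3 i, h4 i hi]
  simp

theorem natDegree_spQ (G : (Oi Ω)[X]) (h : G.natDegree ≠ 0) {e : ℕ} (he : G.natDegree ≤ e + 1) :
    (spQ G).natDegree ≤ e := by
  rw [natDegree_le_iff_coeff_eq_zero]
  intro N hN
  exact (sp_spec G h).2.2.2 N (by omega)

theorem natDegree_spR (G : (Oi Ω)[X]) (h : G.natDegree ≠ 0) {e : ℕ} (he : G.natDegree ≤ e + 1) :
    (spR G).natDegree ≤ e := by
  rw [natDegree_le_iff_coeff_eq_zero]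
  intro N hN
  exact spR_zero G h N (by omega)

theorem coeff_succ (G : (Oi Ω)[X]) (h : G.natDegree ≠ 0) (i : ℕ) :
    G.coeff (i + 1) = (spQ G).coeff i - (spR G).coeff (i + 1) := by
  have := congrArg (fun q => q.coeff (i + 1)) (sp_spec G h).2.1
  simpa [coeff_X_mul] using this

theorem coeff_zero' (G : (Oi Ω)[X]) (h : G.natDegree ≠ 0) :
    G.coeff 0 = - (spR G).coeff 0 := by
  have := congrArg (fun q => q.coeff 0) (sp_spec G h).2.1
  simpa using this

/-- sizes -/
theorem size_sp (τ : Ω →+* ℂ) (G : (Oi Ω)[X]) (h : G.natDegree ≠ 0) (e : ℕ)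
    (he : G.natDegree ≤ e) (T : ℝ) (hT : ∀ i, ‖τ (G.coeff i : Ω)‖ ≤ T) (i : ℕ) :
    ‖τ ((spQ G).coeff i : Ω)‖ ≤ (e + 1) * T ∧ ‖τ ((spR G).coeff i : Ω)‖ ≤ (e + 1) * T := by
  have hT0 : 0 ≤ T := (norm_nonneg _).trans (hT 0)
  have hR : ∀ i, ‖τ ((spR G).coeff i : Ω)‖ = ‖τ (spω G)‖ * ‖τ ((spQ G).coeff i : Ω)‖ := by
    intro i
    rw [(sp_spec G h).2.2.1 i, map_mul, norm_mul]
  by_cases hi : e ≤ i
  · rw [(sp_spec G h).2.2.2 i (he.trans hi), spR_zero G h i (he.trans hi)]
    simp only [ZeroMemClass.coe_zero, map_zero, norm_zero]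
    constructor <;> positivity
  rw [not_le] at hi
  by_cases hω : ‖τ (spω G)‖ ≤ 1
  · have key : ∀ j, j ≤ e → ‖τ ((spQ G).coeff (e - j) : Ω)‖ ≤ j * T := by
      intro j
      induction j with
      | zero =>
        intro _
        rw [Nat.sub_zero, (sp_spec G h).2.2.2 e he]
        simp
      | succ j ih =>
        intro hj
        have h1 := ih (by omega)
        have h2 := coeff_succ G h (e - (j + 1))
        have h3 : e - (j + 1) + 1 = e - j := by omega
        rw [h3] at h2
        have h4 : ((spQ G).coeff (e - (j + 1)) : Ω) = (G.coeff (e - j) : Ω) +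
            ((spR G).coeff (e - j) : Ω) := by
          rw [h2]
          push_cast
          ring
        rw [h4, map_add]
        refine (norm_add_le _ _).trans ?_
        have h5 := hT (e - j)
        have h6 := hR (e - j)
        have h7 : ‖τ ((spR G).coeff (e - j) : Ω)‖ ≤ j * T := by
          rw [h6]
          calc ‖τ (spω G)‖ * ‖τ ((spQ G).coeff (e - j) : Ω)‖
              ≤ 1 * ‖τ ((spQ G).coeff (e - j) : Ω)‖ :=
                mul_le_mul_of_nonneg_right hω (norm_nonneg _)
            _ ≤ _ := by rw [one_mul]; exact h1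
        push_cast
        linarith
    have h1 := key (e - i) (by omega)
    have h2 : e - (e - i) = i := by omega
    rw [h2] at h1
    have h3 : ((e - i : ℕ) : ℝ) ≤ e := by exact_mod_cast Nat.sub_le e i
    have h4 : ((e - i : ℕ) : ℝ) * T ≤ (e + 1) * T := by nlinarith
    refine ⟨h1.trans h4, ?_⟩
    rw [hR]
    calc ‖τ (spω G)‖ * ‖τ ((spQ G).coeff i : Ω)‖ ≤ 1 * ‖τ ((spQ G).coeff i : Ω)‖ :=
          mul_le_mul_of_nonneg_right hω (norm_nonneg _)
      _ ≤ _ := by rw [one_mul]; exact h1.trans h4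
  · rw [not_le] at hω
    have hQR : ∀ i, ‖τ ((spQ G).coeff i : Ω)‖ ≤ ‖τ ((spR G).coeff i : Ω)‖ := by
      intro i
      rw [hR]
      calc ‖τ ((spQ G).coeff i : Ω)‖ = 1 * ‖τ ((spQ G).coeff i : Ω)‖ := (one_mul _).symm
        _ ≤ _ := mul_le_mul_of_nonneg_right hω.le (norm_nonneg _)
    have key : ∀ j : ℕ, ‖τ ((spR G).coeff j : Ω)‖ ≤ (j + 1) * T := by
      intro j
      induction j with
      | zero =>
        have h1 := coeff_zero' G h
        have h2 : ((spR G).coeff 0 : Ω) = - (G.coeff 0 : Ω) := by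
          rw [h1]
          push_cast
          ring
        rw [h2, map_neg, norm_neg]
        simpa using hT 0
      | succ j ih =>
        have h1 := coeff_succ G h j
        have h2 : ((spR G).coeff (j + 1) : Ω) = ((spQ G).coeff j : Ω) - (G.coeff (j + 1) : Ω) := by
          rw [h1]
          push_cast
          ring
        rw [h2, map_sub]
        refine (norm_sub_le _ _).trans ?_
        have h3 := hT (j + 1)
        have h4 := (hQR j).trans ih
        push_cast
        linarith
    have h1 := key i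
    have h2 : ((i : ℝ) + 1) * T ≤ (e + 1) * T := by
      have : (i : ℝ) ≤ e := by exact_mod_cast hi.le
      nlinarith
    exact ⟨(hQR i).trans (h1.trans h2), h1.trans h2⟩

open Classical in
/-- candidates for fractions reducing to a given root of the reduction of `G` -/
noncomputable def cands : ℕ → (Oi Ω)[X] → Finset (Oi Ω × Oi Ω)
  | 0, _ => ∅
  | e + 1, G => if G.natDegree = 0 then ∅ else
      ((Finset.range (e + 1)).image fun i => ((spR G).coeff i, (spQ G).coeff i)) ∪
        cands e (spQ G) ∪ cands e (spR G)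

theorem card_cands (e : ℕ) (G : (Oi Ω)[X]) : (cands e G).card ≤ 4 ^ e := by
  classical
  induction e generalizing G with
  | zero => simp [cands]
  | succ e ih =>
    rw [cands]
    split_ifs with h
    · simp
    · refine (Finset.card_union_le _ _).trans ?_
      have h1 := Finset.card_union_le
        ((Finset.range (e + 1)).image fun i => ((spR G).coeff i, (spQ G).coeff i)) (cands e (spQ G))
      have h2 : ((Finset.range (e + 1)).image
          fun i => ((spR G).coeff i, (spQ G).coeff i)).card ≤ e + 1 :=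
        Finset.card_image_le.trans (by rw [Finset.card_range])
      have h3 := ih (spQ G)
      have h4 := ih (spR G)
      have h5 : e + 1 ≤ 4 ^ e := Nat.lt_pow_self (by norm_num)
      rw [pow_succ]
      omega

theorem cands_exists {F : Type*} [Field F] (κ : Oi Ω →+* F) (e : ℕ) (G : (Oi Ω)[X])
    (he : G.natDegree ≤ e) (z : F) (h0 : G.map κ ≠ 0) (hz : (G.map κ).eval z = 0) :
    ∃ u ∈ cands e G, κ u.2 ≠ 0 ∧ z * κ u.2 = κ u.1 := by
  classical
  induction e generalizing G with
  | zero =>
    exfalso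
    have h1 : G = C (G.coeff 0) := Polynomial.eq_C_of_natDegree_le_zero he
    rw [h1, map_C, eval_C] at hz
    rw [h1, map_C, hz, map_zero] at h0
    exact h0 rfl
  | succ e ih =>
    have hdeg : G.natDegree ≠ 0 := by
      intro h
      have h1 : G = C (G.coeff 0) := Polynomial.eq_C_of_natDegree_le_zero h.le
      rw [h1, map_C, eval_C] at hz
      rw [h1, map_C, hz, map_zero] at h0
      exact h0 rfl
    rw [cands, if_neg hdeg]
    obtain ⟨_, h2, h3, h4⟩ := sp_spec G hdeg
    have hcross : ∀ i j, κ ((spR G).coeff i) * κ ((spQ G).coeff j) =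
        κ ((spR G).coeff j) * κ ((spQ G).coeff i) := by
      intro i j
      rw [← map_mul, ← map_mul]
      congr 1
      apply Subtype.ext
      push_cast
      rw [h3 i, h3 j]
      ring
    have hG : G.map κ = X * (spQ G).map κ - (spR G).map κ := by
      conv_lhs => rw [h2]
      rw [Polynomial.map_sub, Polynomial.map_mul, map_X]
    by_cases hQ : (spQ G).map κ = 0
    · have h5 : (spR G).map κ ≠ 0 := by
        intro h
        rw [hG, hQ, h] at h0
        simp at h0
      have h6 : ((spR G).map κ).eval z = 0 := by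
        rw [hG, hQ] at hz
        simpa using hz
      obtain ⟨u, hu, hu1⟩ := ih (spR G) (natDegree_spR G hdeg he) h5 h6
      exact ⟨u, Finset.mem_union_right _ hu, hu1⟩
    · obtain ⟨i, hi⟩ : ∃ i, κ ((spQ G).coeff i) ≠ 0 := by
        by_contra hcon
        push Not at hcon
        apply hQ
        ext j
        rw [coeff_map, hcon j, coeff_zero]
      set zω : F := κ ((spR G).coeff i) / κ ((spQ G).coeff i) with hzω
      have h5 : ∀ j, κ ((spR G).coeff j) = zω * κ ((spQ G).coeff j) := by
        intro j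
        rw [hzω, div_mul_eq_mul_div, eq_div_iff hi, hcross i j]
      have h6 : (spR G).map κ = C zω * (spQ G).map κ := by
        ext j
        rw [coeff_map, coeff_C_mul, coeff_map, h5 j]
      have h7 : G.map κ = (X - C zω) * (spQ G).map κ := by
        rw [hG, h6]
        ring
      rw [h7, eval_mul, eval_sub, eval_X, eval_C] at hz
      rcases mul_eq_zero.1 hz with hz | hz
      · refine ⟨((spR G).coeff i, (spQ G).coeff i), ?_, hi, ?_⟩
        · apply Finset.mem_union_left
          apply Finset.mem_union_left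
          apply Finset.mem_image.2
          refine ⟨i, ?_, rfl⟩
          rw [Finset.mem_range]
          by_contra hcon
          apply hi
          rw [h4 i (by omega), map_zero]
        · rw [sub_eq_zero.1 hz]
          exact (h5 i).symm
      · obtain ⟨u, hu, hu1⟩ := ih (spQ G) (natDegree_spQ G hdeg he) hQ hz
        refine ⟨u, ?_, hu1⟩
        apply Finset.mem_union_left
        exact Finset.mem_union_right _ hu

theorem cands_size (τ : Ω →+* ℂ) (e : ℕ) (G : (Oi Ω)[X]) (he : G.natDegree ≤ e) (T : ℝ)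
    (hT : ∀ i, ‖τ (G.coeff i : Ω)‖ ≤ T) : ∀ u ∈ cands e G,
      ‖τ (u.1 : Ω)‖ ≤ (e + 1) ^ e * T ∧ ‖τ (u.2 : Ω)‖ ≤ (e + 1) ^ e * T := by
  classical
  induction e generalizing G T with
  | zero => simp [cands]
  | succ e ih =>
    have hT0 : 0 ≤ T := (norm_nonneg _).trans (hT 0)
    intro u hu
    rw [cands] at hu
    split_ifs at hu with hdeg
    · exact absurd hu (Finset.notMem_empty _)
    have hs := size_sp τ G hdeg (e + 1) he T hT
    push_cast at hs
    push_cast
    have h1 : (1 : ℝ) ≤ e + 1 + 1 := by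
      have : (0 : ℝ) ≤ e := Nat.cast_nonneg _
      linarith
    have h2 : ((e : ℝ) + 1 + 1) * T ≤ ((e : ℝ) + 1 + 1) ^ (e + 1) * T :=
      mul_le_mul_of_nonneg_right (le_self_pow₀ h1 (by omega)) hT0
    have h3 : ((e : ℝ) + 1) ^ e * (((e : ℝ) + 1 + 1) * T) ≤ ((e : ℝ) + 1 + 1) ^ (e + 1) * T := by
      have h4 : ((e : ℝ) + 1) ^ e ≤ ((e : ℝ) + 1 + 1) ^ e :=
        pow_le_pow_left₀ (by positivity) (by linarith) _
      calc ((e : ℝ) + 1) ^ e * (((e : ℝ) + 1 + 1) * T)
          ≤ ((e : ℝ) + 1 + 1) ^ e * (((e : ℝ) + 1 + 1) * T) :=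
            mul_le_mul_of_nonneg_right h4 (by positivity)
        _ = _ := by rw [pow_succ]; ring
    rcases Finset.mem_union.1 hu with hu | hu
    · rcases Finset.mem_union.1 hu with hu | hu
      · obtain ⟨i, -, rfl⟩ := Finset.mem_image.1 hu
        exact ⟨(hs i).2.trans h2, (hs i).1.trans h2⟩
      · obtain ⟨h5, h6⟩ := ih (spQ G) (natDegree_spQ G hdeg he) _ (fun i => (hs i).1) u hu
        exact ⟨h5.trans h3, h6.trans h3⟩
    · obtain ⟨h5, h6⟩ := ih (spR G) (natDegree_spR G hdeg he) _ (fun i => (hs i).2) u hu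
      exact ⟨h5.trans h3, h6.trans h3⟩

end split

end Pool.Agent.Lib.MP_6ac54e_lc.NoR
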