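import Mathlib
import Pool.Agent.Lib.MP_6ac54e_lc.RootSplit

open NumberField Polynomial

namespace Pool.Agent.Lib.MP_6ac54e_lc.NoR

section field

variable {K Ω : Type*} [Field K] [Field Ω] [Algebra K Ω]

/-- `E'` is an extension of `E` whose degree has only prime factors `≤ D` -/
def Ext (D d : ℕ) (E E' : IntermediateField K Ω) : Prop :=
  E ≤ E' ∧ FiniteDimensional K E' ∧ ∃ m, Module.finrank K E' = Module.finrank K E * m ∧
    m ≤ D ^ d ∧ ∀ q, q.Prime → q ∣ m → q ≤ D

theorem Ext.refl' (D : ℕ) (E : IntermediateField K Ω) (h : FiniteDimensional K E) :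
    Ext D 0 E E :=
  ⟨le_rfl, h, 1, by rw [mul_one], by simp, fun q hq h => by
    have := Nat.eq_one_of_dvd_one h
    exact absurd this hq.one_lt.ne'⟩

theorem Ext.trans {D d d' : ℕ} {E E' E'' : IntermediateField K Ω} (h : Ext D d E E')
    (h' : Ext D d' E' E'') : Ext D (d + d') E E'' := by
  obtain ⟨h1, h2, m, h3, h4, h5⟩ := h
  obtain ⟨h1', h2', m', h3', h4', h5'⟩ := h'
  refine ⟨h1.trans h1', h2', m * m', ?_, ?_, ?_⟩
  · rw [h3', h3, mul_assoc]
  · rw [pow_add]
    exact Nat.mul_le_mul h4 h4'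
  · intro q hq hdvd
    rcases hq.dvd_mul.1 hdvd with h | h
    · exact h5 q hq h
    · exact h5' q hq h

theorem Ext.mono {D d d' : ℕ} (hD : 1 ≤ D) (hd : d ≤ d') {E E' : IntermediateField K Ω}
    (h : Ext D d E E') : Ext D d' E E' := by
  obtain ⟨h1, h2, m, h3, h4, h5⟩ := h
  exact ⟨h1, h2, m, h3, h4.trans (Nat.pow_le_pow_right hD hd), h5⟩

theorem ext_root (D : ℕ) (E : IntermediateField K Ω) (hE : FiniteDimensional K E) (G : E[X])
    (hG0 : G ≠ 0) (hG : G.natDegree ≤ D) (ω : Ω) (hω : aeval ω G = 0) :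
    ∃ E' : IntermediateField K Ω, Ext D 1 E E' ∧ ω ∈ E' := by
  have hint : IsIntegral E ω := by
    rw [← isAlgebraic_iff_isIntegral]
    exact ⟨G, hG0, hω⟩
  have hfin : FiniteDimensional E (IntermediateField.adjoin E {ω}) :=
    IntermediateField.adjoin.finiteDimensional hint
  refine ⟨(IntermediateField.adjoin E {ω}).restrictScalars K, ⟨?_, ?_, ?_⟩, ?_⟩
  · intro x hx
    have := (IntermediateField.adjoin E {ω}).algebraMap_mem ⟨x, hx⟩
    exact this
  · have : FiniteDimensional K (IntermediateField.adjoin E {ω}) :=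
      FiniteDimensional.trans K E (IntermediateField.adjoin E {ω})
    exact this
  · refine ⟨(minpoly E ω).natDegree, ?_, ?_, ?_⟩
    · have hfree : Module.Free E (IntermediateField.adjoin E {ω}) :=
        Module.Free.of_divisionRing E (IntermediateField.adjoin E {ω})
      have h1 := Module.finrank_mul_finrank K E (IntermediateField.adjoin E {ω})
      rw [IntermediateField.adjoin.finrank hint] at h1
      exact h1.symm
    · rw [pow_one]
      refine le_trans ?_ hG
      exact natDegree_le_of_dvd (minpoly.dvd E ω hω) hG0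
    · intro q hq hdvd
      have h1 : 0 < (minpoly E ω).natDegree := minpoly.natDegree_pos hint
      refine (Nat.le_of_dvd h1 hdvd).trans (le_trans ?_ hG)
      exact natDegree_le_of_dvd (minpoly.dvd E ω hω) hG0
  · exact IntermediateField.mem_adjoin_simple_self E ω

variable [IsAlgClosed Ω]

theorem mem_sp (G : (Oi Ω)[X]) (h : G.natDegree ≠ 0) (E : IntermediateField K Ω)
    (hE : ∀ i, (G.coeff i : Ω) ∈ E) (hω : spω G ∈ E) (i : ℕ) :
    ((spQ G).coeff i : Ω) ∈ E ∧ ((spR G).coeff i : Ω) ∈ E := by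
  have hR : ∀ i, ((spQ G).coeff i : Ω) ∈ E → ((spR G).coeff i : Ω) ∈ E := by
    intro i hi
    rw [(sp_spec G h).2.2.1 i]
    exact mul_mem hω hi
  have key : ∀ j, j ≤ G.natDegree → ((spQ G).coeff (G.natDegree - j) : Ω) ∈ E := by
    intro j
    induction j with
    | zero =>
      intro _
      rw [Nat.sub_zero, (sp_spec G h).2.2.2 _ le_rfl]
      simp
    | succ j ih =>
      intro hj
      have h1 := ih (by omega)
      have h2 := coeff_succ G h (G.natDegree - (j + 1))
      have h3 : G.natDegree - (j + 1) + 1 = G.natDegree - j := by omega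
      rw [h3] at h2
      have h4 : ((spQ G).coeff (G.natDegree - (j + 1)) : Ω) = (G.coeff (G.natDegree - j) : Ω) +
          ((spR G).coeff (G.natDegree - j) : Ω) := by
        rw [h2]
        push_cast
        ring
      rw [h4]
      exact add_mem (hE _) (hR _ h1)
  have hQ : ((spQ G).coeff i : Ω) ∈ E := by
    by_cases hi : G.natDegree ≤ i
    · rw [(sp_spec G h).2.2.2 i hi]
      simp
    · have h1 := key (G.natDegree - i) (by omega)
      have h2 : G.natDegree - (G.natDegree - i) = i := by omega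
      rwa [h2] at h1
  exact ⟨hQ, hR i hQ⟩

theorem cands_field (D : ℕ) (hD : 1 ≤ D) (e : ℕ) (heD : e ≤ D) (G : (Oi Ω)[X])
    (he : G.natDegree ≤ e) (E : IntermediateField K Ω) (hE : FiniteDimensional K E)
    (hGE : ∀ i, (G.coeff i : Ω) ∈ E) : ∀ u ∈ cands e G,
      ∃ E' : IntermediateField K Ω, Ext D e E E' ∧ (u.1 : Ω) ∈ E' ∧ (u.2 : Ω) ∈ E' := by
  classical
  induction e generalizing G E with
  | zero => simp [cands]
  | succ e ih =>
    intro u hu
    rw [cands] at hu
    split_ifs at hu with hdeg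
    · exact absurd hu (Finset.notMem_empty _)
    -- the polynomial over `E`
    obtain ⟨G', hG'⟩ : ∃ G' : E[X], G'.map (algebraMap E Ω) = G.map (algebraMap (Oi Ω) Ω) := by
      have h1 : G.map (algebraMap (Oi Ω) Ω) ∈ Polynomial.lifts (algebraMap E Ω) := by
        rw [Polynomial.lifts_iff_coeff_lifts]
        intro n
        rw [coeff_map]
        exact ⟨⟨_, hGE n⟩, rfl⟩
      obtain ⟨G', hG'⟩ := (Polynomial.mem_lifts _).1 h1
      exact ⟨G', hG'⟩
    have hdeg' : G'.natDegree = G.natDegree := by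
      rw [← natDegree_map (algebraMap E Ω) (p := G'), hG',
        natDegree_map_eq_of_injective Subtype.val_injective]
    have hG'0 : G' ≠ 0 := by
      intro h
      rw [h] at hdeg'
      exact hdeg (by rw [← hdeg']; simp)
    have hω : aeval (spω G) G' = 0 := by
      have h1 := (sp_spec G hdeg).1
      rw [← eval_map_algebraMap] at h1 ⊢
      rw [hG']
      exact h1
    obtain ⟨E₁, hE₁, hωE₁⟩ := ext_root D E hE G' hG'0 (by omega) (spω G) hω
    have hmem := mem_sp G hdeg E₁ (fun i => hE₁.1 (hGE i)) hωE₁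
    rcases Finset.mem_union.1 hu with hu | hu
    · rcases Finset.mem_union.1 hu with hu | hu
      · obtain ⟨i, -, rfl⟩ := Finset.mem_image.1 hu
        exact ⟨E₁, hE₁.mono hD (by omega), (hmem i).2, (hmem i).1⟩
      · obtain ⟨E₂, hE₂, h5, h6⟩ := ih (by omega) (spQ G) (natDegree_spQ G hdeg he) E₁ hE₁.2.1
          (fun i => (hmem i).1) u hu
        exact ⟨E₂, by rw [add_comm]; exact hE₁.trans hE₂, h5, h6⟩
    · obtain ⟨E₂, hE₂, h5, h6⟩ := ih (by omega) (spR G) (natDegree_spR G hdeg he) E₁ hE₁.2.1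
        (fun i => (hmem i).2) u hu
      exact ⟨E₂, by rw [add_comm]; exact hE₁.trans hE₂, h5, h6⟩

end field

end Pool.Agent.Lib.MP_6ac54e_lc.NoR
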