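import Mathlib
import Pool.Agent.Lib.MP_6ac54e_lc.RootField
import Pool.Agent.Lib.MP_6ac54e_lc.NoSteps

open NumberField Polynomial

namespace Pool.Agent.Lib.MP_6ac54e_lc.NoR

open NoF (op)

/-- computations with extraction of roots of polynomials of degree at most `D` -/
inductive RunD {F : Type*} [Field F] (D : ℕ) (A : Set F) : List F → Prop
  | nil : RunD D A []
  | cons {l : List F} {x y z : F} : RunD D A l → (x ∈ A ∨ x ∈ l) → (y ∈ A ∨ y ∈ l) →
      (z = x + y ∨ z = x - y ∨ z = x * y ∨ z = x / y) → RunD D A (z :: l)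
  | root {l : List F} {z : F} {g : F[X]} : RunD D A l → g ≠ 0 → g.natDegree ≤ D →
      (∀ i, g.coeff i = 0 ∨ g.coeff i ∈ A ∨ g.coeff i ∈ l) → g.eval z = 0 → RunD D A (z :: l)

theorem RunD.mono {F : Type*} [Field F] {D : ℕ} {A A' : Set F} (hA : A ⊆ A') {l : List F}
    (h : RunD D A l) : RunD D A' l := by
  induction h with
  | nil => exact RunD.nil
  | cons _ hx hy hz ih =>
    exact RunD.cons ih (hx.imp (fun h => hA h) id) (hy.imp (fun h => hA h) id) hz
  | root _ h0 hd hc hz ih =>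
    refine RunD.root ih h0 hd (fun i => ?_) hz
    rcases hc i with h | h | h
    · exact Or.inl h
    · exact Or.inr (Or.inl (hA h))
    · exact Or.inr (Or.inr h)

theorem RunD.map {F F' : Type*} [Field F] [Field F'] (j : F →+* F') {D : ℕ} {A : Set F}
    {l : List F} (h : RunD D A l) : RunD D (j '' A) (l.map j) := by
  have hmem : ∀ {x : F} {l : List F}, (x ∈ A ∨ x ∈ l) → (j x ∈ j '' A ∨ j x ∈ l.map j) := by
    intro x l hx
    rcases hx with hx | hx
    · exact Or.inl ⟨x, hx, rfl⟩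
    · exact Or.inr (List.mem_map_of_mem hx)
  induction h with
  | nil => exact RunD.nil
  | @cons l x y z _ hx hy hz ih =>
    rw [List.map_cons]
    refine RunD.cons ih (hmem hx) (hmem hy) ?_
    rcases hz with rfl | rfl | rfl | rfl
    · exact Or.inl (map_add j x y)
    · exact Or.inr (Or.inl (map_sub j x y))
    · exact Or.inr (Or.inr (Or.inl (map_mul j x y)))
    · exact Or.inr (Or.inr (Or.inr (map_div₀ j x y)))
  | @root l z g _ h0 hd hc hz ih =>
    rw [List.map_cons]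
    refine RunD.root (g := g.map j) ih ?_ ?_ (fun i => ?_) ?_
    · rwa [Ne, Polynomial.map_eq_zero]
    · rwa [natDegree_map]
    · rw [coeff_map]
      rcases hc i with h | h | h
      · left
        rw [h, map_zero]
      · exact Or.inr (Or.inl ⟨_, h, rfl⟩)
      · exact Or.inr (Or.inr (List.mem_map_of_mem h))
    · rw [eval_map, eval₂_at_apply, hz, map_zero]

section lifts

variable {Ω : Type*} [Field Ω]

/-- the polynomial with the coefficients given by fractions, denominators cleared -/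
noncomputable def Gu (D : ℕ) (u : Fin (D + 1) → Oi Ω × Oi Ω) : (Oi Ω)[X] :=
  ∑ i : Fin (D + 1), C ((u i).1 * ∏ j ∈ Finset.univ.erase i, (u j).2) * X ^ (i : ℕ)

theorem coeff_Gu (D : ℕ) (u : Fin (D + 1) → Oi Ω × Oi Ω) (i : Fin (D + 1)) :
    (Gu D u).coeff i = (u i).1 * ∏ j ∈ Finset.univ.erase i, (u j).2 := by
  rw [Gu, finsetSum_coeff]
  simp only [coeff_C_mul_X_pow]
  rw [Finset.sum_eq_single i]
  · simp
  · intro j _ hj
    rw [if_neg]
    intro h
    exact hj (Fin.ext h).symm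
  · intro h
    exact absurd (Finset.mem_univ i) h

theorem coeff_Gu_of_lt (D : ℕ) (u : Fin (D + 1) → Oi Ω × Oi Ω) (i : ℕ) (hi : D < i) :
    (Gu D u).coeff i = 0 := by
  rw [Gu, finsetSum_coeff]
  apply Finset.sum_eq_zero
  intro j _
  rw [coeff_C_mul_X_pow, if_neg]
  have := j.isLt
  omega

theorem natDegree_Gu (D : ℕ) (u : Fin (D + 1) → Oi Ω × Oi Ω) : (Gu D u).natDegree ≤ D := by
  rw [natDegree_le_iff_coeff_eq_zero]
  intro N hN
  exact coeff_Gu_of_lt D u N hN

theorem map_Gu {F : Type*} [Field F] (κ : Oi Ω →+* F) (D : ℕ) (u : Fin (D + 1) → Oi Ω × Oi Ω)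
    (g : F[X]) (hg : g.natDegree ≤ D)
    (hu : ∀ i : Fin (D + 1), κ (u i).2 ≠ 0 ∧ g.coeff i * κ (u i).2 = κ (u i).1) :
    (Gu D u).map κ = C (∏ j, κ (u j).2) * g := by
  classical
  ext n
  rw [coeff_map, coeff_C_mul]
  by_cases hn : n ≤ D
  · have h1 := coeff_Gu D u ⟨n, Nat.lt_succ_of_le hn⟩
    have h2 := (hu ⟨n, Nat.lt_succ_of_le hn⟩).2
    simp only at h1 h2
    rw [h1, map_mul, map_prod, ← h2,
      ← Finset.mul_prod_erase Finset.univ _ (Finset.mem_univ (⟨n, Nat.lt_succ_of_le hn⟩ : Fin (D + 1)))]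
    ring
  · rw [coeff_Gu_of_lt D u n (by omega), map_zero,
      coeff_eq_zero_of_natDegree_lt (by omega : g.natDegree < n), mul_zero]

variable [IsAlgClosed Ω]

open Classical in
/-- the new fractions -/
noncomputable def news (D : ℕ) (I : Finset (Oi Ω × Oi Ω)) (w : List (Oi Ω × Oi Ω)) :
    Finset (Oi Ω × Oi Ω) :=
  ((((I ∪ w.toFinset) ×ˢ (I ∪ w.toFinset)) ×ˢ (Finset.univ : Finset (Fin 5))).image fun t =>
    op t.2 t.1.1 t.1.2) ∪
  (Fintype.piFinset fun _ : Fin (D + 1) => insert (0, 1) (I ∪ w.toFinset)).biUnion fun u =>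
    cands D (Gu D u)

open Classical in
/-- all lists arising by `t` operations -/
noncomputable def liftsD (D : ℕ) (I : Finset (Oi Ω × Oi Ω)) : ℕ → Finset (List (Oi Ω × Oi Ω))
  | 0 => {[]}
  | t + 1 => (liftsD D I t).biUnion fun w => (news D I w).image fun u => u :: w

theorem length_of_mem (D : ℕ) (I : Finset (Oi Ω × Oi Ω)) (t : ℕ) (w : List (Oi Ω × Oi Ω))
    (hw : w ∈ liftsD D I t) : w.length = t := by
  classical
  induction t generalizing w with
  | zero =>
    rw [liftsD, Finset.mem_singleton] at hw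
    subst hw
    rfl
  | succ t ih =>
    rw [liftsD, Finset.mem_biUnion] at hw
    obtain ⟨w', hw', h⟩ := hw
    rw [Finset.mem_image] at h
    obtain ⟨q, -, rfl⟩ := h
    rw [List.length_cons, ih w' hw']

open Classical in
theorem card_union_le'' (D : ℕ) (I : Finset (Oi Ω × Oi Ω)) (t : ℕ) (w : List (Oi Ω × Oi Ω))
    (hw : w ∈ liftsD D I t) : (I ∪ w.toFinset).card ≤ I.card + t := by
  refine (Finset.card_union_le _ _).trans ?_
  have h1 := w.toFinset_card_le
  rw [length_of_mem D I t w hw] at h1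
  omega

theorem card_news_le (D : ℕ) (hD : 1 ≤ D) (I : Finset (Oi Ω × Oi Ω)) (t : ℕ)
    (w : List (Oi Ω × Oi Ω)) (hw : w ∈ liftsD D I t) :
    (news D I w).card ≤ (5 + 4 ^ D) * (I.card + t + 1) ^ (D + 1) := by
  classical
  rw [news]
  refine (Finset.card_union_le _ _).trans ?_
  have h2 := card_union_le'' D I t w hw
  have h3 : ((((I ∪ w.toFinset) ×ˢ (I ∪ w.toFinset)) ×ˢ (Finset.univ : Finset (Fin 5))).image
      fun t => op t.2 t.1.1 t.1.2).card ≤ 5 * (I.card + t + 1) ^ (D + 1) := by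
    refine Finset.card_image_le.trans ?_
    rw [Finset.card_product, Finset.card_product, Finset.card_univ, Fintype.card_fin]
    have h4 : (I ∪ w.toFinset).card * (I ∪ w.toFinset).card ≤ (I.card + t + 1) ^ 2 := by
      rw [pow_two]
      exact Nat.mul_le_mul (by omega) (by omega)
    have h5 : (I.card + t + 1) ^ 2 ≤ (I.card + t + 1) ^ (D + 1) :=
      Nat.pow_le_pow_right (by omega) (by omega)
    omega
  have h6 : ((Fintype.piFinset fun _ : Fin (D + 1) => insert (0, 1) (I ∪ w.toFinset)).biUnion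
      fun u => cands D (Gu D u)).card ≤ 4 ^ D * (I.card + t + 1) ^ (D + 1) := by
    refine Finset.card_biUnion_le.trans ?_
    refine (Finset.sum_le_sum fun u _ => card_cands D (Gu D u)).trans ?_
    rw [Finset.sum_const, smul_eq_mul, Fintype.card_piFinset]
    simp only [Finset.prod_const, Finset.card_univ, Fintype.card_fin]
    rw [mul_comm]
    refine Nat.mul_le_mul_left _ (Nat.pow_le_pow_left ?_ _)
    refine (Finset.card_insert_le _ _).trans ?_
    omega
  calc _ ≤ 5 * (I.card + t + 1) ^ (D + 1) + 4 ^ D * (I.card + t + 1) ^ (D + 1) :=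
        Nat.add_le_add h3 h6
    _ = _ := by ring

theorem card_liftsD_le (D : ℕ) (hD : 1 ≤ D) (I : Finset (Oi Ω × Oi Ω)) (t : ℕ) :
    (liftsD D I t).card ≤ ((5 + 4 ^ D) * (I.card + t + 1) ^ (D + 1)) ^ t := by
  classical
  induction t with
  | zero => simp [liftsD]
  | succ t ih =>
    rw [liftsD]
    refine Finset.card_biUnion_le.trans ?_
    have h1 : ∀ w ∈ liftsD D I t, ((news D I w).image fun u => u :: w).card ≤
        (5 + 4 ^ D) * (I.card + t + 1) ^ (D + 1) := fun w hw =>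
      Finset.card_image_le.trans (card_news_le D hD I t w hw)
    refine (Finset.sum_le_sum h1).trans ?_
    rw [Finset.sum_const, smul_eq_mul]
    have h2 : (5 + 4 ^ D) * (I.card + t + 1) ^ (D + 1) ≤
        (5 + 4 ^ D) * (I.card + (t + 1) + 1) ^ (D + 1) :=
      Nat.mul_le_mul_left _ (Nat.pow_le_pow_left (by omega) _)
    calc (liftsD D I t).card * ((5 + 4 ^ D) * (I.card + t + 1) ^ (D + 1))
        ≤ ((5 + 4 ^ D) * (I.card + (t + 1) + 1) ^ (D + 1)) ^ t *
          ((5 + 4 ^ D) * (I.card + (t + 1) + 1) ^ (D + 1)) :=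
          Nat.mul_le_mul (ih.trans (Nat.pow_le_pow_left h2 t)) h2
      _ = _ := (pow_succ _ _).symm

/-- computations lift -/
theorem lift_runD {F : Type*} [Field F] (κ : Oi Ω →+* F) (D : ℕ) (A : Set F)
    (I : Finset (Oi Ω × Oi Ω))
    (hI : ∀ a ∈ A, ∃ u ∈ I, κ u.2 ≠ 0 ∧ a * κ u.2 = κ u.1) (l : List F) (hl : RunD D A l) :
    ∃ w ∈ liftsD D I l.length, ∀ a ∈ l, ∃ u ∈ w, κ u.2 ≠ 0 ∧ a * κ u.2 = κ u.1 := by
  classical
  have key : ∀ (l : List F) (w : List (Oi Ω × Oi Ω)),
      (∀ a ∈ l, ∃ u ∈ w, κ u.2 ≠ 0 ∧ a * κ u.2 = κ u.1) →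
      ∀ a : F, (a ∈ A ∨ a ∈ l) → ∃ u ∈ I ∪ w.toFinset, κ u.2 ≠ 0 ∧ a * κ u.2 = κ u.1 := by
    intro l w h a ha
    rcases ha with ha | ha
    · obtain ⟨u, hu, h1⟩ := hI a ha
      exact ⟨u, Finset.mem_union_left _ hu, h1⟩
    · obtain ⟨u, hu, h1⟩ := h a ha
      exact ⟨u, Finset.mem_union_right _ (List.mem_toFinset.2 hu), h1⟩
  have hgo : ∀ (l : List F) (w : List (Oi Ω × Oi Ω)) (z : F), w ∈ liftsD D I l.length →
      (∀ a ∈ l, ∃ u ∈ w, κ u.2 ≠ 0 ∧ a * κ u.2 = κ u.1) →
      (∃ u ∈ news D I w, κ u.2 ≠ 0 ∧ z * κ u.2 = κ u.1) →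
        ∃ w ∈ liftsD D I (z :: l).length, ∀ a ∈ z :: l, ∃ u ∈ w, κ u.2 ≠ 0 ∧
          a * κ u.2 = κ u.1 := by
    rintro l w z hw h ⟨u, hu, h1, h2⟩
    refine ⟨u :: w, ?_, ?_⟩
    · rw [List.length_cons, liftsD, Finset.mem_biUnion]
      exact ⟨w, hw, Finset.mem_image_of_mem _ hu⟩
    · intro a ha
      rcases List.mem_cons.1 ha with rfl | ha
      · exact ⟨u, List.mem_cons_self, h1, h2⟩
      · obtain ⟨u', hu', h3⟩ := h a ha
        exact ⟨u', List.mem_cons_of_mem _ hu', h3⟩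
  induction hl with
  | nil => exact ⟨[], by simp [liftsD], by simp⟩
  | @cons l x y z hl hx hy hz ih =>
    obtain ⟨w, hw, h⟩ := ih
    obtain ⟨u, hu, hu1, hu2⟩ := key l w h x hx
    obtain ⟨v, hv, hv1, hv2⟩ := key l w h y hy
    refine hgo l w z hw h ?_
    have hmem : ∀ i : Fin 5, op i u v ∈ news D I w := by
      intro i
      apply Finset.mem_union_left
      refine Finset.mem_image.2 ⟨((u, v), i), ?_, rfl⟩
      simp only [Finset.mem_product, Finset.mem_univ, and_true]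
      exact ⟨hu, hv⟩
    rcases hz with rfl | rfl | rfl | rfl
    · refine ⟨op 0 u v, hmem 0, ?_, ?_⟩
      · simp only [op, map_mul]
        exact mul_ne_zero hu1 hv1
      · simp only [op, map_mul, map_add]
        rw [← hu2, ← hv2]
        ring
    · refine ⟨op 1 u v, hmem 1, ?_, ?_⟩
      · simp only [op, map_mul]
        exact mul_ne_zero hu1 hv1
      · simp only [op, map_mul, map_sub]
        rw [← hu2, ← hv2]
        ring
    · refine ⟨op 2 u v, hmem 2, ?_, ?_⟩
      · simp only [op, map_mul]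
        exact mul_ne_zero hu1 hv1
      · simp only [op, map_mul]
        rw [← hu2, ← hv2]
        ring
    · by_cases h0 : y = 0
      · subst h0
        refine ⟨op 4 u v, hmem 4, ?_, ?_⟩
        · simp [op]
        · simp [op]
      · have hv3 : κ v.1 ≠ 0 := by
          rw [← hv2]
          exact mul_ne_zero h0 hv1
        refine ⟨op 3 u v, hmem 3, ?_, ?_⟩
        · simp only [op, map_mul]
          exact mul_ne_zero hu1 hv3
        · simp only [op, map_mul]
          rw [← hu2, ← hv2]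
          field_simp
  | @root l z g hl hg0 hgD hgc hgz ih =>
    obtain ⟨w, hw, h⟩ := ih
    refine hgo l w z hw h ?_
    have hex : ∀ i : Fin (D + 1), ∃ u ∈ insert ((0, 1) : Oi Ω × Oi Ω) (I ∪ w.toFinset),
        κ u.2 ≠ 0 ∧ g.coeff i * κ u.2 = κ u.1 := by
      intro i
      rcases hgc i with h1 | h1
      · exact ⟨(0, 1), Finset.mem_insert_self _ _, by simp, by rw [h1]; simp⟩
      · obtain ⟨u, hu, h2⟩ := key l w h _ h1
        exact ⟨u, Finset.mem_insert_of_mem hu, h2⟩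
    choose u hu1 hu2 using hex
    have h1 := map_Gu κ D u g hgD hu2
    have hU : (∏ j, κ (u j).2) ≠ 0 := Finset.prod_ne_zero_iff.2 fun j _ => (hu2 j).1
    obtain ⟨v, hv, hv1⟩ := cands_exists κ D (Gu D u) (natDegree_Gu D u) z
      (by rw [h1]; exact mul_ne_zero (C_ne_zero.2 hU) hg0)
      (by rw [h1, eval_mul, hgz, mul_zero])
    refine ⟨v, ?_, hv1⟩
    apply Finset.mem_union_right
    exact Finset.mem_biUnion.2 ⟨u, Fintype.mem_piFinset.2 hu1, hv⟩

end lifts

end Pool.Agent.Lib.MP_6ac54e_lc.NoR
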