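import Mathlib
import Pool.Agent.Lib.MP_6ac54e_lc.RootLift

open NumberField Polynomial

namespace Pool.Agent.Lib.MP_6ac54e_lc.NoR

open NoF (op hv map_hv hv_mul card_primeFactors_le)

section size

variable {Ω : Type*} [Field Ω] [IsAlgClosed Ω]

/-- size of the members -/
theorem size_liftsD (τ : Ω →+* ℂ) (D : ℕ) (hD : 1 ≤ D) (I : Finset (Oi Ω × Oi Ω)) (T N : ℝ)
    (hT : 1 ≤ T) (hN : 2 * T ≤ N) (hN' : (D : ℝ) + 1 ≤ N)
    (hI : ∀ u ∈ I, ‖τ (u.1 : Ω)‖ ≤ T ∧ ‖τ (u.2 : Ω)‖ ≤ T) (t : ℕ) (w : List (Oi Ω × Oi Ω))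
    (hw : w ∈ liftsD D I t) : ∀ u ∈ w, 2 * ‖τ (u.1 : Ω)‖ ≤ N ^ (2 * (D + 1)) ^ t ∧
      2 * ‖τ (u.2 : Ω)‖ ≤ N ^ (2 * (D + 1)) ^ t := by
  classical
  induction t generalizing w with
  | zero =>
    rw [liftsD, Finset.mem_singleton] at hw
    subst hw
    simp
  | succ t ih =>
    rw [liftsD, Finset.mem_biUnion] at hw
    obtain ⟨w, hw, h⟩ := hw
    obtain ⟨v, hv, rfl⟩ := Finset.mem_image.1 h
    set Y : ℝ := N ^ (2 * (D + 1)) ^ t with hY
    have hN1 : 1 ≤ N := by linarith
    have hNY : N ≤ Y := le_self_pow₀ hN1 (by positivity)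
    have hY2 : 2 ≤ Y := by linarith
    have hYY : N ^ (2 * (D + 1)) ^ (t + 1) = Y ^ (2 * (D + 1)) := by
      rw [hY, ← pow_mul, pow_succ]
    rw [hYY]
    have hY1 : Y ≤ Y ^ (2 * (D + 1)) := le_self_pow₀ (by linarith) (by omega)
    have hY4 : Y ^ 2 ≤ Y ^ (2 * (D + 1)) := pow_le_pow_right₀ (by linarith) (by omega)
    have key : ∀ u ∈ I ∪ w.toFinset, ‖τ (u.1 : Ω)‖ ≤ Y / 2 ∧ ‖τ (u.2 : Ω)‖ ≤ Y / 2 := by
      intro u hu
      rcases Finset.mem_union.1 hu with hu | hu
      · obtain ⟨h1, h2⟩ := hI u hu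
        constructor <;> linarith
      · obtain ⟨h1, h2⟩ := ih w hw u (List.mem_toFinset.1 hu)
        constructor <;> linarith
    intro u hu
    rcases List.mem_cons.1 hu with huv | hu
    · rw [huv]
      clear huv hu
      rw [news] at hv
      rcases Finset.mem_union.1 hv with hv | hv
      · obtain ⟨⟨⟨u, v⟩, i⟩, hq, rfl⟩ := Finset.mem_image.1 hv
        simp only [Finset.mem_product, Finset.mem_univ, and_true] at hq
        obtain ⟨hu1, hu2⟩ := key u hq.1
        obtain ⟨hv1, hv2⟩ := key v hq.2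
        have hprod : ∀ a b : Oi Ω, ‖τ (a : Ω)‖ ≤ Y / 2 → ‖τ (b : Ω)‖ ≤ Y / 2 →
            ‖τ ((a : Ω) * (b : Ω))‖ ≤ Y ^ 2 / 4 := by
          intro a b ha hb
          rw [map_mul, norm_mul]
          have := mul_le_mul ha hb (norm_nonneg _) (by linarith)
          nlinarith
        have e1 := hprod _ _ hu1 hv2
        have e2 := hprod _ _ hv1 hu2
        have e3 := hprod _ _ hu2 hv2
        have e4 := hprod _ _ hu1 hv1
        have e5 := hprod _ _ hu2 hv1
        have hYnn : 0 ≤ Y ^ 2 := by positivity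
        have main : 2 * ‖τ ((op i u v).1 : Ω)‖ ≤ Y ^ 2 ∧ 2 * ‖τ ((op i u v).2 : Ω)‖ ≤ Y ^ 2 := by
          fin_cases i
          · simp only [op]
            push_cast
            constructor
            · rw [map_add]
              have := norm_add_le (τ ((u.1 : Ω) * (v.2 : Ω))) (τ ((v.1 : Ω) * (u.2 : Ω)))
              linarith
            · linarith
          · simp only [op]
            push_cast
            constructor
            · rw [map_sub]
              have := norm_sub_le (τ ((u.1 : Ω) * (v.2 : Ω))) (τ ((v.1 : Ω) * (u.2 : Ω)))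
              linarith
            · linarith
          · simp only [op]
            push_cast
            constructor <;> linarith
          · simp only [op]
            push_cast
            constructor <;> linarith
          · simp only [op]
            constructor
            · simp only [ZeroMemClass.coe_zero, map_zero, norm_zero, mul_zero]
              exact hYnn
            · simp only [OneMemClass.coe_one, map_one, norm_one, mul_one]
              nlinarith
        exact ⟨main.1.trans hY4, main.2.trans hY4⟩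
      · obtain ⟨u, hu, hv⟩ := Finset.mem_biUnion.1 hv
        rw [Fintype.mem_piFinset] at hu
        have hu' : ∀ i, ‖τ ((u i).1 : Ω)‖ ≤ Y / 2 ∧ ‖τ ((u i).2 : Ω)‖ ≤ Y / 2 := by
          intro i
          rcases Finset.mem_insert.1 (hu i) with h1 | h1
          · rw [h1]
            simp only [ZeroMemClass.coe_zero, map_zero, norm_zero, OneMemClass.coe_one, map_one,
              norm_one]
            constructor <;> linarith
          · exact key _ h1
        have hG : ∀ i, ‖τ ((Gu D u).coeff i : Ω)‖ ≤ (Y / 2) ^ (D + 1) := by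
          intro i
          by_cases hi : i ≤ D
          · have h1 := coeff_Gu D u ⟨i, Nat.lt_succ_of_le hi⟩
            simp only at h1
            rw [h1]
            push_cast
            rw [map_mul, norm_mul, map_prod, norm_prod]
            calc ‖τ ((u ⟨i, Nat.lt_succ_of_le hi⟩).1 : Ω)‖ *
                  ∏ j ∈ Finset.univ.erase ⟨i, Nat.lt_succ_of_le hi⟩, ‖τ ((u j).2 : Ω)‖
                ≤ (Y / 2) * ∏ j ∈ Finset.univ.erase (⟨i, Nat.lt_succ_of_le hi⟩ : Fin (D + 1)),
                    (Y / 2) := by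
                  refine mul_le_mul (hu' _).1 ?_ (Finset.prod_nonneg fun _ _ => norm_nonneg _)
                    (by linarith)
                  exact Finset.prod_le_prod (fun _ _ => norm_nonneg _) fun j _ => (hu' j).2
              _ = _ := by
                  rw [Finset.prod_const, Finset.card_erase_of_mem (Finset.mem_univ _),
                    Finset.card_univ, Fintype.card_fin, Nat.add_sub_cancel, pow_succ]
                  ring
          · rw [coeff_Gu_of_lt D u i (by omega)]
            simp only [ZeroMemClass.coe_zero, map_zero, norm_zero]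
            positivity
        obtain ⟨h1, h2⟩ := cands_size τ D (Gu D u) (natDegree_Gu D u) _ hG v hv
        have h3 : 2 * (((D : ℝ) + 1) ^ D * (Y / 2) ^ (D + 1)) ≤ Y ^ (2 * (D + 1)) := by
          have h4 : ((D : ℝ) + 1) ^ D ≤ Y ^ D := pow_le_pow_left₀ (by positivity) (by linarith) _
          have h5 : 2 * (Y / 2) ^ (D + 1) ≤ Y ^ (D + 1) := by
            rw [div_pow, mul_div_assoc', div_le_iff₀ (by positivity)]
            have h6 : (2 : ℝ) ≤ 2 ^ (D + 1) := le_self_pow₀ (by norm_num) (by omega)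
            have h7 : 0 ≤ Y ^ (D + 1) := by positivity
            nlinarith
          calc 2 * (((D : ℝ) + 1) ^ D * (Y / 2) ^ (D + 1))
              = ((D : ℝ) + 1) ^ D * (2 * (Y / 2) ^ (D + 1)) := by ring
            _ ≤ Y ^ D * Y ^ (D + 1) := mul_le_mul h4 h5 (by positivity) (by positivity)
            _ = Y ^ (2 * D + 1) := by rw [← pow_add]; congr 1; omega
            _ ≤ _ := pow_le_pow_right₀ (by linarith) (by omega)
        constructor
        · exact (mul_le_mul_of_nonneg_left h1 (by norm_num)).trans h3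
        · exact (mul_le_mul_of_nonneg_left h2 (by norm_num)).trans h3
    · obtain ⟨h1, h2⟩ := ih w hw u hu
      exact ⟨h1.trans hY1, h2.trans hY1⟩

end size

section field

variable {K Ω : Type*} [Field K] [Field Ω] [Algebra K Ω] [IsAlgClosed Ω]

theorem field_liftsD (D : ℕ) (hD : 1 ≤ D) (I : Finset (Oi Ω × Oi Ω))
    (hI : ∀ u ∈ I, (u.1 : Ω) ∈ (⊥ : IntermediateField K Ω) ∧
      (u.2 : Ω) ∈ (⊥ : IntermediateField K Ω)) (t : ℕ) (w : List (Oi Ω × Oi Ω))
    (hw : w ∈ liftsD D I t) : ∃ E : IntermediateField K Ω, Ext D (D * t) ⊥ E ∧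
      ∀ u ∈ w, (u.1 : Ω) ∈ E ∧ (u.2 : Ω) ∈ E := by
  classical
  induction t generalizing w with
  | zero =>
    rw [liftsD, Finset.mem_singleton] at hw
    subst hw
    exact ⟨⊥, by rw [mul_zero]; exact Ext.refl' D ⊥ inferInstance, by simp⟩
  | succ t ih =>
    rw [liftsD, Finset.mem_biUnion] at hw
    obtain ⟨w, hw, h⟩ := hw
    obtain ⟨v, hv, rfl⟩ := Finset.mem_image.1 h
    obtain ⟨E, hE, hwE⟩ := ih w hw
    have key : ∀ u ∈ I ∪ w.toFinset, (u.1 : Ω) ∈ E ∧ (u.2 : Ω) ∈ E := by
      intro u hu
      rcases Finset.mem_union.1 hu with hu | hu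
      · obtain ⟨h1, h2⟩ := hI u hu
        exact ⟨bot_le (a := E) h1, bot_le (a := E) h2⟩
      · exact hwE u (List.mem_toFinset.1 hu)
    rw [news] at hv
    rcases Finset.mem_union.1 hv with hv | hv
    · obtain ⟨⟨⟨u, v⟩, i⟩, hq, rfl⟩ := Finset.mem_image.1 hv
      simp only [Finset.mem_product, Finset.mem_univ, and_true] at hq
      obtain ⟨hu1, hu2⟩ := key u hq.1
      obtain ⟨hv1, hv2⟩ := key v hq.2
      refine ⟨E, hE.mono hD (by rw [mul_add]; omega), ?_⟩
      intro u' hu'
      rcases List.mem_cons.1 hu' with rfl | hu'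
      · fin_cases i
        · simp only [op]
          push_cast
          exact ⟨add_mem (mul_mem hu1 hv2) (mul_mem hv1 hu2), mul_mem hu2 hv2⟩
        · simp only [op]
          push_cast
          exact ⟨sub_mem (mul_mem hu1 hv2) (mul_mem hv1 hu2), mul_mem hu2 hv2⟩
        · simp only [op]
          push_cast
          exact ⟨mul_mem hu1 hv1, mul_mem hu2 hv2⟩
        · simp only [op]
          push_cast
          exact ⟨mul_mem hu1 hv2, mul_mem hu2 hv1⟩
        · simp only [op]
          push_cast
          exact ⟨zero_mem E, one_mem E⟩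
      · exact hwE u' hu'
    · obtain ⟨u, hu, hv⟩ := Finset.mem_biUnion.1 hv
      rw [Fintype.mem_piFinset] at hu
      have hu' : ∀ i, ((u i).1 : Ω) ∈ E ∧ ((u i).2 : Ω) ∈ E := by
        intro i
        rcases Finset.mem_insert.1 (hu i) with h1 | h1
        · rw [h1]
          simp only [ZeroMemClass.coe_zero, OneMemClass.coe_one]
          exact ⟨zero_mem E, one_mem E⟩
        · exact key _ h1
      have hG : ∀ i, ((Gu D u).coeff i : Ω) ∈ E := by
        intro i
        by_cases hi : i ≤ D
        · have h1 := coeff_Gu D u ⟨i, Nat.lt_succ_of_le hi⟩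
          simp only at h1
          rw [h1]
          push_cast
          exact mul_mem (hu' _).1 (prod_mem fun j _ => (hu' j).2)
        · rw [coeff_Gu_of_lt D u i (by omega)]
          simp
      obtain ⟨E', hE', h1, h2⟩ := cands_field D hD D le_rfl (Gu D u) (natDegree_Gu D u) E hE.2.1
        hG v hv
      refine ⟨E', by rw [mul_add, mul_one]; exact hE.trans hE', ?_⟩
      intro u' hu'
      rcases List.mem_cons.1 hu' with rfl | hu'
      · exact ⟨h1, h2⟩
      · obtain ⟨h3, h4⟩ := hwE u' hu'
        exact ⟨hE'.1 h3, hE'.1 h4⟩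

end field

end Pool.Agent.Lib.MP_6ac54e_lc.NoR
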