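import Mathlib
import Pool.Agent.Lib.MP_6ac54e_lc.RootSize
import Pool.Agent.Lib.MP_6ac54e_lc.NoCount2

open NumberField Polynomial

namespace Pool.Agent.Lib.MP_6ac54e_lc.NoR

open NoF (op hv map_hv hv_mul card_primeFactors_le len)

section norm

variable {Ω : Type*} [Field Ω]

/-- the constant coefficient of the minimal polynomial -/
noncomputable def Wn (β : Oi Ω) : ℕ := ((minpoly ℤ (β : Ω)).coeff 0).natAbs

theorem Wn_ne_zero [CharZero Ω] (β : Oi Ω) (h : β ≠ 0) : Wn β ≠ 0 := by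
  have h1 : (β : Ω) ≠ 0 := by
    intro h2
    exact h (Subtype.ext h2)
  have hint : IsIntegral ℤ (β : Ω) := β.2
  have hintQ : IsIntegral ℚ (β : Ω) := hint.tower_top
  have h2 : minpoly ℚ (β : Ω) = (minpoly ℤ (β : Ω)).map (algebraMap ℤ ℚ) :=
    minpoly.isIntegrallyClosed_eq_field_fractions' ℚ hint
  have h3 := minpoly.coeff_zero_ne_zero hintQ h1
  rw [h2, coeff_map] at h3
  apply Int.natAbs_ne_zero.2
  intro h4
  rw [h4, map_zero] at h3
  exact h3 rfl

theorem dvd_Wn [CharZero Ω] {F : Type*} [CommRing F] {p : ℕ} [CharP F p] (κ : Oi Ω →+* F)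
    (β : Oi Ω) (h : κ β = 0) : p ∣ Wn β := by
  have h1 : aeval β (minpoly ℤ (β : Ω)) = 0 := by
    apply Subtype.ext
    have h2 := Polynomial.aeval_algHom_apply ((integralClosure ℤ Ω).val) β (minpoly ℤ (β : Ω))
    have h3 : (integralClosure ℤ Ω).val β = (β : Ω) := rfl
    rw [h3, minpoly.aeval] at h2
    exact h2.symm
  have h2 : κ (aeval β (minpoly ℤ (β : Ω))) = (((minpoly ℤ (β : Ω)).coeff 0 : ℤ) : F) := by
    rw [aeval_eq_sum_range, map_sum, Finset.sum_eq_single 0]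
    · rw [pow_zero, zsmul_eq_mul, mul_one, map_intCast]
    · intro i _ hi
      rw [zsmul_eq_mul, map_mul, map_pow, h, zero_pow hi, mul_zero]
    · intro h0
      exact absurd (Finset.mem_range.2 (Nat.succ_pos _)) h0
  rw [h1, map_zero] at h2
  have h3 := (CharP.intCast_eq_zero_iff F p _).1 h2.symm
  exact Int.natCast_dvd.1 h3

theorem Wn_le_pow [CharZero Ω] [Algebra.IsAlgebraic ℚ Ω] (β : Oi Ω) (Y : ℝ) (hY : 1 ≤ Y)
    (h : ∀ τ : Ω →+* ℂ, ‖τ (β : Ω)‖ ≤ Y) : (Wn β : ℝ) ≤ Y ^ (minpoly ℚ (β : Ω)).natDegree := by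
  have hint : IsIntegral ℤ (β : Ω) := β.2
  have hintQ : IsIntegral ℚ (β : Ω) := hint.tower_top
  have h1 : minpoly ℚ (β : Ω) = (minpoly ℤ (β : Ω)).map (algebraMap ℤ ℚ) :=
    minpoly.isIntegrallyClosed_eq_field_fractions' ℚ hint
  set q := (minpoly ℚ (β : Ω)).map (algebraMap ℚ ℂ) with hq
  have hmonic : q.Monic := (minpoly.monic hintQ).map _
  have hsplit : q.Splits := IsAlgClosed.splits q
  have h2 := hsplit.coeff_zero_eq_prod_roots_of_monic hmonic
  have h3 : q.coeff 0 = (((minpoly ℤ (β : Ω)).coeff 0 : ℤ) : ℂ) := by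
    rw [hq, coeff_map, h1, coeff_map]
    simp
  have h4 : (Wn β : ℝ) = ‖q.roots.prod‖ := by
    have h5 : ‖q.coeff 0‖ = ‖q.roots.prod‖ := by
      rw [h2, norm_mul, norm_pow, norm_neg, norm_one, one_pow, one_mul]
    rw [← h5, h3, Complex.norm_intCast, Wn, Nat.cast_natAbs, Int.cast_abs]
  have h5 : ∀ ρ ∈ q.roots, ‖ρ‖ ≤ Y := by
    intro ρ hρ
    have hroot : ρ ∈ (minpoly ℚ (β : Ω)).rootSet ℂ := by
      rw [mem_rootSet]
      refine ⟨minpoly.ne_zero hintQ, ?_⟩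
      have := isRoot_of_mem_roots hρ
      rw [IsRoot.def, hq, eval_map_algebraMap] at this
      exact this
    rw [← Algebra.IsAlgebraic.range_eval_eq_rootSet_minpoly ℂ (β : Ω)] at hroot
    obtain ⟨ψ, hψ⟩ := hroot
    rw [← hψ]
    exact h ψ.toRingHom
  have h6 : ∀ s : Multiset ℂ, (∀ ρ ∈ s, ‖ρ‖ ≤ Y) → ‖s.prod‖ ≤ Y ^ Multiset.card s := by
    intro s
    induction s using Multiset.induction_on with
    | empty => intro _; simp
    | cons a s ih =>
      intro hs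
      rw [Multiset.prod_cons, Multiset.card_cons, norm_mul, pow_succ, mul_comm]
      exact mul_le_mul (ih fun ρ hρ => hs ρ (Multiset.mem_cons_of_mem hρ))
        (hs a (Multiset.mem_cons_self a s)) (norm_nonneg _) (by positivity)
  rw [h4]
  refine (h6 _ h5).trans (pow_le_pow_right₀ hY ?_)
  refine (card_roots' q).trans ?_
  rw [hq, natDegree_map]

end norm

section place

variable {K : Type*} [Field K] [NumberField K] {Ω : Type*} [Field Ω] [Algebra K Ω]

/-- the inclusion of the integers -/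
noncomputable def iK (K : Type*) [Field K] [NumberField K] (Ω : Type*) [Field Ω] [Algebra K Ω] :
    𝓞 K →+* Oi Ω :=
  ((algebraMap K Ω).comp (algebraMap (𝓞 K) K)).codRestrict (integralClosure ℤ Ω) fun x =>
    (x.isIntegral_coe.map (algebraMap K Ω).toIntAlgHom)

theorem coe_iK (x : 𝓞 K) : ((iK K Ω x : Oi Ω) : Ω) = algebraMap K Ω (x : K) := rfl

theorem exists_place {p : ℕ} (hp : p.Prime) (κ : 𝓞 K →+* ZMod p) :
    ∃ (𝔓 : Ideal (Oi Ω)) (_ : 𝔓.IsMaximal) (_ : CharP (Oi Ω ⧸ 𝔓) p)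
      (j : ZMod p →+* Oi Ω ⧸ 𝔓), ∀ x : 𝓞 K, j (κ x) = Ideal.Quotient.mk 𝔓 (iK K Ω x) := by
  have : Fact p.Prime := ⟨hp⟩
  have hκ : Function.Surjective κ := ZMod.ringHom_surjective κ
  have hmax : (RingHom.ker κ).IsMaximal := RingHom.ker_isMaximal_of_surjective κ hκ
  let alg : Algebra (𝓞 K) (Oi Ω) := (iK K Ω).toAlgebra
  have hint : Algebra.IsIntegral (𝓞 K) (Oi Ω) := ⟨fun y => by
    have h1 : IsIntegral ℤ y := integralClosure.isIntegral y
    exact h1.tower_top⟩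
  have hinj : Function.Injective (algebraMap (𝓞 K) (Oi Ω)) := by
    intro x y hxy
    have h1 := congrArg (fun z : Oi Ω => (z : Ω)) hxy
    have h2 : algebraMap K Ω (x : K) = algebraMap K Ω (y : K) := h1
    exact RingOfIntegers.coe_injective ((algebraMap K Ω).injective h2)
  obtain ⟨𝔓, hmax𝔓, hcomap⟩ := Ideal.exists_ideal_over_maximal_of_isIntegral (S := Oi Ω)
    (RingHom.ker κ) (by rw [(RingHom.injective_iff_ker_eq_bot _).1 hinj]; exact bot_le)
  have hker : ∀ x : 𝓞 K, κ x = 0 → Ideal.Quotient.mk 𝔓 (iK K Ω x) = 0 := by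
    intro x hx
    rw [Ideal.Quotient.eq_zero_iff_mem]
    have h1 : x ∈ RingHom.ker κ := hx
    rw [← hcomap] at h1
    exact h1
  have hnt : Nontrivial (Oi Ω ⧸ 𝔓) := Ideal.Quotient.nontrivial_iff.2 hmax𝔓.ne_top
  have hp0 : ((p : ℕ) : Oi Ω ⧸ 𝔓) = 0 := by
    have h1 := hker (p : 𝓞 K) (by rw [map_natCast]; exact ZMod.natCast_self p)
    simpa using h1
  have hchar : CharP (Oi Ω ⧸ 𝔓) p := by
    have h1 : ringChar (Oi Ω ⧸ 𝔓) ∣ p := ringChar.dvd hp0
    rcases (Nat.dvd_prime hp).1 h1 with h2 | h2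
    · exfalso
      have h3 : ((1 : ℕ) : Oi Ω ⧸ 𝔓) = 0 := by
        rw [← h2]
        exact ringChar.Nat.cast_ringChar
      rw [Nat.cast_one] at h3
      exact one_ne_zero h3
    · rw [← h2]
      exact ringChar.charP _
  refine ⟨𝔓, hmax𝔓, hchar, ZMod.castHom (dvd_refl p) _, fun x => ?_⟩
  obtain ⟨a, ha⟩ : ∃ a : ℤ, κ x = (a : ZMod p) := ⟨((κ x).cast : ℤ), by simp⟩
  have h1 : κ (x - (a : 𝓞 K)) = 0 := by
    rw [map_sub, map_intCast, ha, sub_self]
  have h2 := hker _ h1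
  rw [map_sub, map_sub, sub_eq_zero, map_intCast, map_intCast] at h2
  rw [h2, ha, map_intCast]

end place

section nonzero

variable {K : Type*} [Field K] [NumberField K] {Ω : Type*} [Field Ω] [Algebra K Ω]

theorem hv_ne_zero' (f : ℤ[X]) (D : ℕ) (hf : ∀ g : K[X], Irreducible g →
    g ∣ f.map (algebraMap ℤ K) → ∃ q : ℕ, q.Prime ∧ D < q ∧ q ∣ g.natDegree)
    (E : IntermediateField K Ω) (d : ℕ) (hE : Ext D d ⊥ E) (A B : Oi Ω)
    (hA : (A : Ω) ∈ E) (hB : (B : Ω) ∈ E) (hB0 : B ≠ 0) : hv f A B ≠ 0 := by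
  intro h0
  have hB0' : (B : Ω) ≠ 0 := fun h => hB0 (Subtype.ext h)
  have h1 : hv f (A : Ω) (B : Ω) = 0 := by
    have h2 := map_hv (algebraMap (Oi Ω) Ω) f A B
    rw [h0, map_zero] at h2
    exact h2.symm
  have hmem : (A : Ω) / (B : Ω) ∈ E := div_mem hA hB
  set θ : E := ⟨(A : Ω) / (B : Ω), hmem⟩ with hθ
  have h2 : aeval ((A : Ω) / (B : Ω)) f = 0 := by
    have h3 := hv_mul f ((A : Ω) / (B : Ω)) (B : Ω)
    rw [div_mul_cancel₀ _ hB0', h1] at h3
    exact (mul_eq_zero.1 h3.symm).resolve_left (pow_ne_zero _ hB0')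
  have hfin : FiniteDimensional K E := hE.2.1
  have hint : IsIntegral K θ := IsIntegral.of_finite K θ
  have h3 : aeval θ (f.map (algebraMap ℤ K)) = 0 := by
    apply (algebraMap E Ω).injective
    rw [map_zero, aeval_map_algebraMap, ← aeval_algebraMap_apply]
    exact h2
  obtain ⟨q, hq, hqD, hdvd⟩ := hf (minpoly K θ) (minpoly.irreducible hint) (minpoly.dvd K θ h3)
  obtain ⟨_, _, m, hm, _, hm2⟩ := hE
  have h4 : (minpoly K θ).natDegree ∣ Module.finrank K E := minpoly.degree_dvd hint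
  rw [hm, IntermediateField.finrank_bot, one_mul] at h4
  have := hm2 q hq (hdvd.trans h4)
  omega

end nonzero

end Pool.Agent.Lib.MP_6ac54e_lc.NoR
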