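import Mathlib
import Pool.Agent.Lib.MP_6ac54e_lc.RootNorm

open NumberField Polynomial

namespace Pool.Agent.Lib.MP_6ac54e_lc.NoR

theorem isAlgClosed_quot {Ω : Type*} [Field Ω] [IsAlgClosed Ω] (𝔓 : Ideal (Oi Ω))
    [h : 𝔓.IsMaximal] : @IsAlgClosed (Oi Ω ⧸ 𝔓) (Ideal.Quotient.field 𝔓) := by
  let fld : Field (Oi Ω ⧸ 𝔓) := Ideal.Quotient.field 𝔓
  apply IsAlgClosed.of_exists_root
  intro g hg hirr
  obtain ⟨G, hG1, hG2, hG3⟩ := Polynomial.lifts_and_natDegree_eq_and_monic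
    (f := Ideal.Quotient.mk 𝔓) (p := g) (by
      rw [Polynomial.lifts_iff_coeff_lifts]
      intro n
      exact Ideal.Quotient.mk_surjective _) hg
  have hdeg : (G.map (algebraMap (Oi Ω) Ω)).degree ≠ 0 := by
    rw [degree_map_eq_of_injective Subtype.val_injective]
    intro h0
    have h1 := natDegree_eq_of_degree_eq_some h0
    rw [hG2] at h1
    exact hirr.natDegree_pos.ne' h1
  obtain ⟨ω, hω⟩ := IsAlgClosed.exists_root _ hdeg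
  have hω' : aeval ω G = 0 := by
    rw [IsRoot.def, eval_map_algebraMap] at hω
    exact hω
  have hint : IsIntegral ℤ ω := isIntegral_trans (A := Oi Ω) _ ⟨G, hG3, hω'⟩
  refine ⟨Ideal.Quotient.mk 𝔓 ⟨ω, hint⟩, ?_⟩
  have h1 : eval (⟨ω, hint⟩ : Oi Ω) G = 0 := by
    apply Subtype.ext
    have h2 := Polynomial.aeval_algebraMap_apply Ω (⟨ω, hint⟩ : Oi Ω) G
    have h3 : algebraMap (Oi Ω) Ω ⟨ω, hint⟩ = ω := rfl
    rw [h3, hω'] at h2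
    rw [← coe_aeval_eq_eval]
    exact h2.symm
  rw [← hG1, eval_map, eval₂_at_apply, h1, map_zero]

variable {K : Type*} [Field K] [NumberField K] {Ω : Type*} [Field Ω] [Algebra K Ω] [IsAlgClosed Ω]

theorem exists_place' {p : ℕ} [hp : Fact p.Prime] (κ : 𝓞 K →+* ZMod p) :
    ∃ (𝔓 : Ideal (Oi Ω)) (_ : 𝔓.IsMaximal) (_ : CharP (Oi Ω ⧸ 𝔓) p)
      (j : AlgebraicClosure (ZMod p) →+* Oi Ω ⧸ 𝔓),
      ∀ x : 𝓞 K, j (algebraMap (ZMod p) _ (κ x)) = Ideal.Quotient.mk 𝔓 (iK K Ω x) := by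
  obtain ⟨𝔓, hmax, hchar, j, hj⟩ := exists_place (Ω := Ω) hp.out κ
  let fld : Field (Oi Ω ⧸ 𝔓) := Ideal.Quotient.field 𝔓
  have hac : IsAlgClosed (Oi Ω ⧸ 𝔓) := isAlgClosed_quot 𝔓
  let alg : Algebra (ZMod p) (Oi Ω ⧸ 𝔓) := j.toAlgebra
  let J : AlgebraicClosure (ZMod p) →ₐ[ZMod p] (Oi Ω ⧸ 𝔓) := IsAlgClosed.lift
  refine ⟨𝔓, hmax, hchar, J.toRingHom, fun x => ?_⟩
  have h1 := J.commutes (κ x)
  have h2 : algebraMap (ZMod p) (Oi Ω ⧸ 𝔓) (κ x) = j (κ x) := rfl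
  rw [h2, hj] at h1
  exact h1

end Pool.Agent.Lib.MP_6ac54e_lc.NoR
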