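import Mathlib
import Pool.Agent.Lib.MP_6ac54e_lc.RootPlace

open NumberField Polynomial

namespace Pool.Agent.Lib.MP_6ac54e_lc.NoR

open NoF (op hv map_hv hv_mul card_primeFactors_le len pt norm_pt growth kappa_pt inp)

variable {K : Type*} [Field K] [NumberField K] {Ω : Type*} [Field Ω] [Algebra K Ω]
  [IsAlgClosed Ω] [Algebra.IsAlgebraic K Ω] [CharZero Ω]

theorem norm_hv_le' (τ : Ω →+* ℂ) (f : ℤ[X]) (A B : Oi Ω) (Y : ℝ) (hY : 0 ≤ Y)
    (hA : ‖τ (A : Ω)‖ ≤ Y) (hB : ‖τ (B : Ω)‖ ≤ Y) :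
    ‖τ ((hv f A B : Oi Ω) : Ω)‖ ≤ len f * Y ^ f.natDegree := by
  have h1 : τ ((hv f A B : Oi Ω) : Ω) = hv f (τ (A : Ω)) (τ (B : Ω)) := by
    have := map_hv (τ.comp (algebraMap (Oi Ω) Ω)) f A B
    exact this
  rw [h1, hv, len, Finset.sum_mul]
  refine (norm_sum_le _ _).trans (Finset.sum_le_sum fun k hk => ?_)
  have hk' : k ≤ f.natDegree := Nat.lt_succ_iff.1 (Finset.mem_range.1 hk)
  rw [norm_mul, norm_mul, norm_pow, norm_pow, Complex.norm_intCast]
  calc |(f.coeff k : ℝ)| * ‖τ (A : Ω)‖ ^ k * ‖τ (B : Ω)‖ ^ (f.natDegree - k)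
      ≤ |(f.coeff k : ℝ)| * Y ^ k * Y ^ (f.natDegree - k) := by gcongr
    _ = |(f.coeff k : ℝ)| * (Y ^ k * Y ^ (f.natDegree - k)) := by ring
    _ = _ := by rw [← pow_add, Nat.add_sub_cancel' hk']

/-- the degree of an element of a finite extension -/
theorem natDegree_le_finrank (E : IntermediateField K Ω) (hE : FiniteDimensional K E) (x : Ω)
    (hx : x ∈ E) : (minpoly ℚ x).natDegree ≤ Module.finrank ℚ K * Module.finrank K E := by
  have hcz : CharZero K := inferInstance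
  have hQE : FiniteDimensional ℚ E := FiniteDimensional.trans ℚ K E
  have h1 : minpoly ℚ x = minpoly ℚ (⟨x, hx⟩ : E) := by
    have h2 := minpoly.algebraMap_eq (A := ℚ) (algebraMap E Ω).injective (⟨x, hx⟩ : E)
    exact h2
  rw [h1, Module.finrank_mul_finrank ℚ K E]
  exact minpoly.natDegree_le _

theorem card_pf_le (f : ℤ[X]) (D : ℕ) (hD : 1 ≤ D) : ∃ C : ℝ, 0 ≤ C ∧ ∀ (N : ℝ), 2 ≤ N →
    ∀ (t : ℕ) (E : IntermediateField K Ω), Ext D (D * t) ⊥ E → ∀ A B : Oi Ω, (A : Ω) ∈ E →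
    (B : Ω) ∈ E → hv f A B ≠ 0 → (∀ τ : Ω →+* ℂ, 2 * ‖τ (A : Ω)‖ ≤ N ^ (2 * (D + 1)) ^ t ∧
      2 * ‖τ (B : Ω)‖ ≤ N ^ (2 * (D + 1)) ^ t) →
    (((Wn (hv f A B)).primeFactors.card : ℕ) : ℝ) ≤
      C * ((D : ℝ) ^ D * (2 * (D + 1))) ^ t * Real.log N := by
  have hQΩ : Algebra.IsAlgebraic ℚ Ω := Algebra.IsAlgebraic.trans ℚ K Ω
  have hl2 : (0 : ℝ) < Real.log 2 := Real.log_pos (by norm_num)
  have hlen0 : 0 ≤ len f := Finset.sum_nonneg fun _ _ => abs_nonneg _
  have hlenl : 0 ≤ Real.log (len f + 1) := Real.log_nonneg (by linarith)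
  have hDR : (1 : ℝ) ≤ D := by exact_mod_cast hD
  refine ⟨(Module.finrank ℚ K * (Real.log (len f + 1) / Real.log 2 + f.natDegree)) / Real.log 2,
    by positivity, fun N hN t E hE A B hA hB hne h => ?_⟩
  have hlN : Real.log 2 ≤ Real.log N := Real.log_le_log (by norm_num) hN
  have hlN0 : 0 < Real.log N := lt_of_lt_of_le hl2 hlN
  set Y : ℝ := N ^ (2 * (D + 1)) ^ t with hY
  have hY1 : 1 ≤ Y := one_le_pow₀ (by linarith)
  have hYf1 : 1 ≤ Y ^ f.natDegree := one_le_pow₀ hY1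
  have hsz : ∀ τ : Ω →+* ℂ, ‖τ ((hv f A B : Oi Ω) : Ω)‖ ≤ (len f + 1) * Y ^ f.natDegree := by
    intro τ
    obtain ⟨h2, h3⟩ := h τ
    have h4 := norm_hv_le' τ f A B Y (by linarith)
      (by linarith [norm_nonneg (τ (A : Ω))]) (by linarith [norm_nonneg (τ (B : Ω))])
    nlinarith
  have hmem : ((hv f A B : Oi Ω) : Ω) ∈ E := by
    have h1 : ((hv f A B : Oi Ω) : Ω) = hv f (A : Ω) (B : Ω) := by
      have := map_hv (algebraMap (Oi Ω) Ω) f A B
      exact this
    rw [h1, hv]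
    exact sum_mem fun k _ => mul_mem (mul_mem (intCast_mem E _) (pow_mem hA _)) (pow_mem hB _)
  have h1 := Wn_le_pow (hv f A B) ((len f + 1) * Y ^ f.natDegree) (by nlinarith) hsz
  have hpos : (0 : ℝ) < (Wn (hv f A B) : ℕ) := by
    exact_mod_cast Nat.pos_of_ne_zero (Wn_ne_zero _ hne)
  have h2 := card_primeFactors_le _ (Wn_ne_zero _ hne)
  have h3 := Real.log_le_log hpos h1
  rw [Real.log_pow, Real.log_mul (by linarith) (by positivity), Real.log_pow, hY, Real.log_pow] at h3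
  have hdeg : ((minpoly ℚ ((hv f A B : Oi Ω) : Ω)).natDegree : ℝ) ≤
      Module.finrank ℚ K * ((D : ℝ) ^ D) ^ t := by
    have h4 := natDegree_le_finrank E hE.2.1 _ hmem
    obtain ⟨_, _, m, hm, hm1, _⟩ := hE
    rw [hm, IntermediateField.finrank_bot, one_mul] at h4
    have h5 : Module.finrank ℚ K * m ≤ Module.finrank ℚ K * (D ^ D) ^ t :=
      Nat.mul_le_mul_left _ (by rw [← pow_mul]; exact hm1)
    exact_mod_cast h4.trans h5
  refine h2.trans ?_
  rw [div_mul_eq_mul_div, div_mul_eq_mul_div]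
  apply div_le_div_of_nonneg_right _ hl2.le
  refine h3.trans ?_
  have h6 : Real.log (len f + 1) + f.natDegree * ((((2 * (D + 1)) ^ t : ℕ) : ℝ) * Real.log N) ≤
      (Real.log (len f + 1) / Real.log 2 + f.natDegree) * ((2 * ((D : ℝ) + 1)) ^ t * Real.log N) := by
    have h7 : (1 : ℝ) ≤ (2 * ((D : ℝ) + 1)) ^ t := one_le_pow₀ (by linarith)
    have h8 : Real.log (len f + 1) ≤
        Real.log (len f + 1) / Real.log 2 * ((2 * ((D : ℝ) + 1)) ^ t * Real.log N) := by
      calc Real.log (len f + 1) = Real.log (len f + 1) / Real.log 2 * (1 * Real.log 2) := by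
            field_simp
        _ ≤ _ := by gcongr
    push_cast
    linarith
  have h9 : 0 ≤ Real.log (len f + 1) + f.natDegree * ((((2 * (D + 1)) ^ t : ℕ) : ℝ) * Real.log N) := by
    positivity
  calc ((minpoly ℚ ((hv f A B : Oi Ω) : Ω)).natDegree : ℝ) * (Real.log (len f + 1) + f.natDegree *
        ((((2 * (D + 1)) ^ t : ℕ) : ℝ) * Real.log N))
      ≤ (Module.finrank ℚ K * ((D : ℝ) ^ D) ^ t) * ((Real.log (len f + 1) / Real.log 2 +
          f.natDegree) * ((2 * ((D : ℝ) + 1)) ^ t * Real.log N)) :=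
        mul_le_mul hdeg h6 h9 (by positivity)
    _ = _ := by
        rw [show ((D : ℝ) ^ D * (2 * ((D : ℝ) + 1))) ^ t = ((D : ℝ) ^ D) ^ t *
          (2 * ((D : ℝ) + 1)) ^ t from mul_pow _ _ _]
        ring

theorem countD {m : ℕ} (e : Fin m → 𝓞 K) (f : ℤ[X]) (D : ℕ) (hD : 1 ≤ D)
    (hf : ∀ g : K[X], Irreducible g → g ∣ f.map (algebraMap ℤ K) →
      ∃ q : ℕ, q.Prime ∧ D < q ∧ q ∣ g.natDegree)
    {ι : Type*} [Fintype ι] [Nonempty ι] (k : ℕ)
    (W : Finset ((ι → MvPolynomial (Fin (m + 1)) ℤ) × (ι → ℤ))) :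
    ∃ C : ℝ, 0 ≤ C ∧ ∀ X : ℝ, 2 ≤ X → ∀ H : ℕ, 1 ≤ H → (H : ℝ) ≤ X →
      ∀ Y : ℕ, 1 ≤ Y → (Y : ℝ) ≤ X → ∀ t : ℕ, ∀ S : Finset ℕ,
      (∀ p ∈ S, ∃ _ : Fact p.Prime, ∃ (κ : 𝓞 K →+* ZMod p) (c0 : ℤ) (c : Fin m → ℤ)
        (a : Fin k → ℤ), (∀ i, |c i| ≤ H) ∧ (∀ i, |a i| ≤ Y) ∧
        κ (c0 + ∑ i, (c i : 𝓞 K) * e i) = 0 ∧ ∃ QD ∈ W,
          (∀ i, ¬ (p : ℤ) ∣ QD.2 i) ∧ ∃ l : List (AlgebraicClosure (ZMod p)), l.length ≤ t ∧
            RunD D (algebraMap (ZMod p) (AlgebraicClosure (ZMod p)) '' inp p QD c0 c a) l ∧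
            ∃ r : AlgebraicClosure (ZMod p),
              (r ∈ algebraMap (ZMod p) (AlgebraicClosure (ZMod p)) '' inp p QD c0 c a ∨ r ∈ l) ∧
              aeval r f = 0) →
      (S.card : ℝ) ≤ C * ((H : ℝ) ^ m * (Y : ℝ) ^ k) *
        (((5 + 4 ^ D) * ((D : ℝ) ^ D * (2 * (D + 1))) *
          (Fintype.card ι + k + t + 1) ^ (D + 1)) ^ t *
        (Fintype.card ι + k + t + 1) ^ 2) * Real.log X := by
  classical
  let Ω := AlgebraicClosure K
  -- growth of the inputs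
  have hg : ∀ (QD : (ι → MvPolynomial (Fin (m + 1)) ℤ) × (ι → ℤ)) (i : ι), ∃ C k : ℕ, ∀ t : ℝ,
      1 ≤ t → ∀ c : Fin m → ℤ, (∀ i, |(c i : ℝ)| ≤ t) → ∀ σ : K →+* ℂ,
        ‖σ ((MvPolynomial.aeval (pt e c) (QD.1 i) : 𝓞 K) : K)‖ ≤ C * t ^ k := by
    intro QD i
    obtain ⟨B, hB, h1⟩ := norm_pt e
    obtain ⟨C, k, h2⟩ := growth (QD.1 i)
    refine ⟨C * B ^ k, k, fun t ht c hc σ => ?_⟩
    have hB' : (1 : ℝ) ≤ B := by exact_mod_cast hB
    have h4 : σ ((MvPolynomial.aeval (pt e c) (QD.1 i) : 𝓞 K) : K) =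
        MvPolynomial.aeval (fun j => σ (pt e c j : K)) (QD.1 i) := by
      have := MvPolynomial.map_aeval (pt e c) (σ.comp (algebraMap (𝓞 K) K)) (QD.1 i)
      rw [MvPolynomial.coe_eval₂Hom] at this
      simp only [RingHom.comp_apply] at this
      refine this.trans ?_
      rw [MvPolynomial.aeval_def]
      congr 1
      exact Subsingleton.elim _ _
    rw [h4]
    refine (h2 (B * t) ?_ _ fun i => h1 t ht c hc σ i).trans (le_of_eq ?_)
    · nlinarith
    · push_cast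
      rw [mul_pow]
      ring
  choose CC kk hCk using hg
  obtain ⟨C1, hC1, hlog⟩ := card_pf_le (K := K) (Ω := Ω) f D hD
  -- common bounds
  let CB : ℝ := 1 + ∑ QD ∈ W, ∑ i, ((CC QD i : ℝ) + |(QD.2 i : ℝ)|)
  let KB : ℕ := ∑ QD ∈ W, ∑ i, kk QD i
  have hCB1 : 1 ≤ CB := by
    have : 0 ≤ ∑ QD ∈ W, ∑ i, ((CC QD i : ℝ) + |(QD.2 i : ℝ)|) :=
      Finset.sum_nonneg fun QD _ => Finset.sum_nonneg fun i _ => by positivity
    simp only [CB]
    linarith
  have hCBle : ∀ QD ∈ W, ∀ i, (CC QD i : ℝ) + |(QD.2 i : ℝ)| ≤ CB := by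
    intro QD hQD i
    have h1 : (CC QD i : ℝ) + |(QD.2 i : ℝ)| ≤ ∑ i, ((CC QD i : ℝ) + |(QD.2 i : ℝ)|) :=
      Finset.single_le_sum (f := fun i => (CC QD i : ℝ) + |(QD.2 i : ℝ)|)
        (fun i _ => by positivity) (Finset.mem_univ i)
    have h2 : ∑ i, ((CC QD i : ℝ) + |(QD.2 i : ℝ)|) ≤
        ∑ QD ∈ W, ∑ i, ((CC QD i : ℝ) + |(QD.2 i : ℝ)|) :=
      Finset.single_le_sum (f := fun QD : (ι → MvPolynomial (Fin (m + 1)) ℤ) × (ι → ℤ) =>
          ∑ i, ((CC QD i : ℝ) + |(QD.2 i : ℝ)|))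
        (fun QD _ => Finset.sum_nonneg fun i _ => by positivity) hQD
    simp only [CB]
    linarith
  have hKBle : ∀ QD ∈ W, ∀ i, kk QD i ≤ KB := by
    intro QD hQD i
    have h1 : kk QD i ≤ ∑ i, kk QD i :=
      Finset.single_le_sum (f := fun i => kk QD i) (fun i _ => Nat.zero_le _) (Finset.mem_univ i)
    exact h1.trans (Finset.single_le_sum
      (f := fun QD : (ι → MvPolynomial (Fin (m + 1)) ℤ) × (ι → ℤ) => ∑ i, kk QD i)
      (fun QD _ => Nat.zero_le _) hQD)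
  have hl2 : (0 : ℝ) < Real.log 2 := Real.log_pos (by norm_num)
  have hDR : (1 : ℝ) ≤ D := by exact_mod_cast hD
  let C2 : ℝ := Real.log (2 * (D + 1) * CB) / Real.log 2 + (KB + 1)
  have h2CB : 1 ≤ 2 * ((D : ℝ) + 1) * CB := by nlinarith
  have hC20 : 0 ≤ C2 := by
    have : 0 ≤ Real.log (2 * (D + 1) * CB) := Real.log_nonneg h2CB
    positivity
  refine ⟨3 ^ m * 3 ^ k * W.card * (C1 * C2), by positivity, ?_⟩
  intro X hX H hH hHX Y hY hYX t S hS
  have hscast : (Fintype.card ι : ℝ) + k = ((Fintype.card ι + k : ℕ) : ℝ) := by push_cast; rfl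
  rw [hscast]
  set s : ℕ := Fintype.card ι + k with hs
  have hs1 : 1 ≤ s := by
    have : 0 < Fintype.card ι := Fintype.card_pos
    omega
  set box : Finset ((Fin m → ℤ) × (Fin k → ℤ)) :=
    (Fintype.piFinset fun _ => Finset.Icc (-(H : ℤ)) H) ×ˢ
      (Fintype.piFinset fun _ => Finset.Icc (-(Y : ℤ)) Y) with hbox
  let I : ((ι → MvPolynomial (Fin (m + 1)) ℤ) × (ι → ℤ)) → ((Fin m → ℤ) × (Fin k → ℤ)) →
      Finset (Oi Ω × Oi Ω) :=
    fun QD c => (Finset.univ.image fun i =>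
      (iK K Ω (MvPolynomial.aeval (pt e c.1) (QD.1 i) : 𝓞 K), ((QD.2 i : ℤ) : Oi Ω))) ∪
      (Finset.univ.image fun j => (((c.2 j : ℤ) : Oi Ω), 1))
  have hIcard : ∀ QD c, (I QD c).card ≤ s := fun QD c => by
    refine (Finset.card_union_le _ _).trans ?_
    have h1 : (Finset.univ.image fun i =>
      (iK K Ω (MvPolynomial.aeval (pt e c.1) (QD.1 i) : 𝓞 K), ((QD.2 i : ℤ) : Oi Ω))).card ≤
        Fintype.card ι := Finset.card_image_le.trans (by rw [Finset.card_univ])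
    have h2 : (Finset.univ.image fun j => (((c.2 j : ℤ) : Oi Ω), (1 : Oi Ω))).card ≤ k :=
      Finset.card_image_le.trans (by rw [Finset.card_univ, Fintype.card_fin])
    omega
  let P : (Oi Ω × Oi Ω) → Finset ℕ := fun u =>
    if u.2 = 0 then ∅ else (Wn (hv f u.1 u.2)).primeFactors
  have hIbot : ∀ QD c, ∀ u ∈ I QD c, (u.1 : Ω) ∈ (⊥ : IntermediateField K Ω) ∧
      (u.2 : Ω) ∈ (⊥ : IntermediateField K Ω) := by
    intro QD c u hu
    rcases Finset.mem_union.1 hu with hu | hu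
    · obtain ⟨i, -, rfl⟩ := Finset.mem_image.1 hu
      refine ⟨?_, ?_⟩
      · exact IntermediateField.mem_bot.2 ⟨_, (coe_iK _).symm⟩
      · simp only [SubringClass.coe_intCast]
        exact intCast_mem _ _
    · obtain ⟨j, -, rfl⟩ := Finset.mem_image.1 hu
      refine ⟨?_, ?_⟩
      · simp only [SubringClass.coe_intCast]
        exact intCast_mem _ _
      · simp only [OneMemClass.coe_one]
        exact one_mem _
  have hcov : S ⊆ W.biUnion fun QD => box.biUnion fun c => (Finset.range (t + 1)).biUnion fun t' =>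
      (liftsD D (I QD c) t').biUnion fun w => (I QD c ∪ w.toFinset).biUnion P := by
    intro p hp
    obtain ⟨hpp, κ, c0, c, a, hc, ha, h0, QD, hQD, hD', l, hlt, hl, r, hr, hrf⟩ := hS p hp
    obtain ⟨𝔓, hmax, hchar, j, hj⟩ := exists_place' (Ω := Ω) κ
    let fld : Field (Oi Ω ⧸ 𝔓) := Ideal.Quotient.field 𝔓
    have hcbox : (c, a) ∈ box := by
      rw [hbox, Finset.mem_product, Fintype.mem_piFinset, Fintype.mem_piFinset]
      constructor
      · intro i
        rw [Finset.mem_Icc]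
        exact abs_le.1 (hc i)
      · intro i
        rw [Finset.mem_Icc]
        exact abs_le.1 (ha i)
    have hI : ∀ x ∈ j '' (algebraMap (ZMod p) (AlgebraicClosure (ZMod p)) '' inp p QD c0 c a),
        ∃ u ∈ I QD (c, a),
        Ideal.Quotient.mk 𝔓 u.2 ≠ 0 ∧ x * Ideal.Quotient.mk 𝔓 u.2 = Ideal.Quotient.mk 𝔓 u.1 := by
      rintro _ ⟨_, ⟨x, hx, rfl⟩, rfl⟩
      rcases hx with ⟨i, rfl⟩ | ⟨j', rfl⟩
      · have hDi : ((QD.2 i : ℤ) : ZMod p) ≠ 0 := by
          intro h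
          exact hD' i ((ZMod.intCast_zmod_eq_zero_iff_dvd _ p).1 h)
        have hDi' : j (algebraMap (ZMod p) (AlgebraicClosure (ZMod p))
            ((QD.2 i : ℤ) : ZMod p)) ≠ 0 := by
          rw [Ne, map_eq_zero, map_eq_zero]
          exact hDi
        refine ⟨(iK K Ω (MvPolynomial.aeval (pt e c) (QD.1 i) : 𝓞 K), ((QD.2 i : ℤ) : Oi Ω)),
          Finset.mem_union_left _ (Finset.mem_image_of_mem _ (Finset.mem_univ i)), ?_, ?_⟩
        · simp only [map_intCast] at hDi' ⊢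
          exact hDi'
        · simp only [map_intCast]
          rw [← hj, kappa_pt e κ c0 c h0]
          simp only [map_div₀, map_intCast]
          rw [div_mul_cancel₀]
          rw [map_intCast, map_intCast] at hDi'
          exact hDi'
      · refine ⟨(((a j' : ℤ) : Oi Ω), 1),
          Finset.mem_union_right _ (Finset.mem_image_of_mem _ (Finset.mem_univ j')), ?_, ?_⟩
        · simp
        · simp
    have hl' := hl.map j
    obtain ⟨w, hw, hwl⟩ := lift_runD (Ideal.Quotient.mk 𝔓) D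
      (j '' (algebraMap (ZMod p) (AlgebraicClosure (ZMod p)) '' inp p QD c0 c a))
      (I QD (c, a)) hI (l.map j) hl'
    rw [List.length_map] at hw
    have hfin : ∃ u ∈ I QD (c, a) ∪ w.toFinset, Ideal.Quotient.mk 𝔓 u.2 ≠ 0 ∧
        j r * Ideal.Quotient.mk 𝔓 u.2 = Ideal.Quotient.mk 𝔓 u.1 := by
      rcases hr with hr | hr
      · obtain ⟨u, hu, h⟩ := hI (j r) ⟨r, hr, rfl⟩
        exact ⟨u, Finset.mem_union_left _ hu, h⟩
      · obtain ⟨u, hu, h⟩ := hwl (j r) (List.mem_map_of_mem hr)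
        exact ⟨u, Finset.mem_union_right _ (List.mem_toFinset.2 hu), h⟩
    obtain ⟨u, hu, hu1, hu2⟩ := hfin
    simp only [Finset.mem_biUnion]
    refine ⟨QD, hQD, (c, a), hcbox, l.length, Finset.mem_range.2 (by omega), w, hw, u, hu, ?_⟩
    have hu20 : u.2 ≠ 0 := by
      intro h
      rw [h, map_zero] at hu1
      exact hu1 rfl
    simp only [P]
    rw [if_neg hu20]
    -- the field
    obtain ⟨E, hE, hwE⟩ := field_liftsD (K := K) D hD (I QD (c, a)) (hIbot QD (c, a)) l.length w hw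
    have huE : (u.1 : Ω) ∈ E ∧ (u.2 : Ω) ∈ E := by
      rcases Finset.mem_union.1 hu with hu | hu
      · obtain ⟨h1, h2⟩ := hIbot QD (c, a) u hu
        exact ⟨bot_le (a := E) h1, bot_le (a := E) h2⟩
      · exact hwE u (List.mem_toFinset.1 hu)
    have hne := hv_ne_zero' f D hf E _ hE u.1 u.2 huE.1 huE.2 hu20
    refine Nat.mem_primeFactors.2 ⟨hpp.out, ?_, Wn_ne_zero _ hne⟩
    apply dvd_Wn (Ideal.Quotient.mk 𝔓)
    rw [map_hv, ← hu2, hv_mul]
    apply mul_eq_zero_of_right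
    have h7 := congrArg j hrf
    rw [map_zero, aeval_def, hom_eval₂] at h7
    refine Eq.trans ?_ h7
    rw [aeval_def]
    congr 1
    exact Subsingleton.elim _ _
  have hX1 : 0 < Real.log X := Real.log_pos (by linarith)
  have hlX : Real.log 2 ≤ Real.log X := Real.log_le_log (by norm_num) hX
  have hH1 : (1 : ℝ) ≤ H := by exact_mod_cast hH
  set γ : ℝ := (D : ℝ) ^ D * (2 * (D + 1)) with hγ
  have hγ1 : 1 ≤ γ := by
    have : (1 : ℝ) ≤ (D : ℝ) ^ D := one_le_pow₀ hDR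
    rw [hγ]
    nlinarith
  -- the bound for a single member
  have hone : ∀ QD ∈ W, ∀ c ∈ box, ∀ t' ∈ Finset.range (t + 1), ∀ w ∈ liftsD D (I QD c) t',
      ∀ u ∈ I QD c ∪ w.toFinset, ((P u).card : ℝ) ≤ (C1 * C2) * γ ^ t * Real.log X := by
    intro QD hQD c hc t' ht' w hw u hu
    simp only [P]
    split_ifs with hu20
    · rw [Finset.card_empty, Nat.cast_zero]
      positivity
    set T : ℝ := CB * X ^ (KB + 1) with hTdef
    set N : ℝ := 2 * (D + 1) * T with hN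
    have hXK : 1 ≤ X ^ KB := one_le_pow₀ (by linarith)
    have hXK1 : X ≤ X ^ (KB + 1) := le_self_pow₀ (by linarith) (by omega)
    have hXK2 : X ^ KB ≤ X ^ (KB + 1) := pow_le_pow_right₀ (by linarith) (by omega)
    have hT1 : 1 ≤ T := by nlinarith
    have hN2 : 2 * T ≤ N := by rw [hN]; nlinarith
    have hN3 : (D : ℝ) + 1 ≤ N := by rw [hN]; nlinarith
    rw [hbox, Finset.mem_product, Fintype.mem_piFinset, Fintype.mem_piFinset] at hc
    have hIT : ∀ τ : Ω →+* ℂ, ∀ u ∈ I QD c, ‖τ (u.1 : Ω)‖ ≤ T ∧ ‖τ (u.2 : Ω)‖ ≤ T := by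
      intro τ u hu
      rcases Finset.mem_union.1 hu with hu | hu
      · obtain ⟨i, -, rfl⟩ := Finset.mem_image.1 hu
        have hb := hCBle QD hQD i
        have hCC0 : (0 : ℝ) ≤ CC QD i := Nat.cast_nonneg _
        constructor
        · have h1 := hCk QD i H hH1 c.1 (by
            intro i
            have := Finset.mem_Icc.1 (hc.1 i)
            have h4 : |c.1 i| ≤ H := abs_le.2 this
            exact_mod_cast h4) (τ.comp (algebraMap K Ω))
          refine h1.trans ?_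
          have h2 : (H : ℝ) ^ kk QD i ≤ X ^ (KB + 1) :=
            (pow_le_pow_right₀ hH1 (hKBle QD hQD i)).trans
              ((pow_le_pow_left₀ (by linarith) hHX _).trans hXK2)
          have h3 : (CC QD i : ℝ) ≤ CB := by linarith [abs_nonneg (QD.2 i : ℝ)]
          rw [hTdef]
          exact mul_le_mul h3 h2 (by positivity) (by linarith)
        · have h1 : τ (((QD.2 i : ℤ) : Oi Ω) : Ω) = ((QD.2 i : ℤ) : ℂ) := by
            push_cast
            exact map_intCast _ _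
          change ‖τ (((QD.2 i : ℤ) : Oi Ω) : Ω)‖ ≤ T
          rw [h1, Complex.norm_intCast]
          have h3 : |(QD.2 i : ℝ)| ≤ CB := by linarith
          rw [hTdef]
          nlinarith
      · obtain ⟨j, -, rfl⟩ := Finset.mem_image.1 hu
        constructor
        · have h1 : τ (((c.2 j : ℤ) : Oi Ω) : Ω) = ((c.2 j : ℤ) : ℂ) := by
            push_cast
            exact map_intCast _ _
          change ‖τ (((c.2 j : ℤ) : Oi Ω) : Ω)‖ ≤ T
          rw [h1, Complex.norm_intCast]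
          have h2 : |c.2 j| ≤ Y := abs_le.2 (Finset.mem_Icc.1 (hc.2 j))
          have h3 : |(c.2 j : ℝ)| ≤ Y := by exact_mod_cast h2
          rw [hTdef]
          nlinarith
        · simp only [OneMemClass.coe_one, map_one, norm_one]
          exact hT1
    have hsz : ∀ τ : Ω →+* ℂ, 2 * ‖τ (u.1 : Ω)‖ ≤ N ^ (2 * (D + 1)) ^ t ∧
        2 * ‖τ (u.2 : Ω)‖ ≤ N ^ (2 * (D + 1)) ^ t := by
      intro τ
      have ht't : N ^ (2 * (D + 1)) ^ t' ≤ N ^ (2 * (D + 1)) ^ t := by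
        apply pow_le_pow_right₀ (by linarith)
        apply Nat.pow_le_pow_right (by omega)
        have := Finset.mem_range.1 ht'
        omega
      have h2T : N ≤ N ^ (2 * (D + 1)) ^ t := le_self_pow₀ (by linarith) (by positivity)
      rcases Finset.mem_union.1 hu with hu | hu
      · obtain ⟨h1, h2⟩ := hIT τ u hu
        constructor <;> linarith
      · obtain ⟨h1, h2⟩ := size_liftsD τ D hD (I QD c) T N hT1 hN2 hN3 (hIT τ) t' w hw u
          (List.mem_toFinset.1 hu)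
        exact ⟨h1.trans ht't, h2.trans ht't⟩
    obtain ⟨E, hE, hwE⟩ := field_liftsD (K := K) D hD (I QD c) (hIbot QD c) t' w hw
    have huE : (u.1 : Ω) ∈ E ∧ (u.2 : Ω) ∈ E := by
      rcases Finset.mem_union.1 hu with hu | hu
      · obtain ⟨h1, h2⟩ := hIbot QD c u hu
        exact ⟨bot_le (a := E) h1, bot_le (a := E) h2⟩
      · exact hwE u (List.mem_toFinset.1 hu)
    have hE' : Ext D (D * t) ⊥ E := hE.mono hD (Nat.mul_le_mul_left _ (by
      have := Finset.mem_range.1 ht'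
      omega))
    have hne := hv_ne_zero' f D hf E _ hE u.1 u.2 huE.1 huE.2 hu20
    have h1 := hlog N (by linarith) t E hE' u.1 u.2 huE.1 huE.2 hne hsz
    refine h1.trans ?_
    have h2 : Real.log N ≤ C2 * Real.log X := by
      have e1 : Real.log N = Real.log (2 * (D + 1) * CB) + (KB + 1) * Real.log X := by
        rw [hN, hTdef, ← mul_assoc, Real.log_mul (by positivity) (by positivity), Real.log_pow]
        push_cast
        rfl
      have e2 : Real.log (2 * (D + 1) * CB) ≤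
          Real.log (2 * (D + 1) * CB) / Real.log 2 * Real.log X := by
        have h4 : 0 ≤ Real.log (2 * (D + 1) * CB) := Real.log_nonneg h2CB
        rw [div_mul_eq_mul_div, le_div_iff₀ hl2]
        exact mul_le_mul_of_nonneg_left hlX h4
      rw [e1]
      simp only [C2]
      linarith
    calc C1 * γ ^ t * Real.log N ≤ C1 * γ ^ t * (C2 * Real.log X) :=
          mul_le_mul_of_nonneg_left h2 (by positivity)
      _ = _ := by ring
  have hB0 : 0 ≤ (C1 * C2) * γ ^ t * Real.log X := by positivity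
  set Γ : ℝ := ((5 + 4 ^ D) * ((s : ℝ) + t + 1) ^ (D + 1)) ^ t with hΓ
  have hΓ0 : 0 ≤ Γ := by positivity
  -- sums
  have hsum1 : ∀ QD ∈ W, ∀ c ∈ box, ∀ t' ∈ Finset.range (t + 1), ∀ w ∈ liftsD D (I QD c) t',
      ((((I QD c ∪ w.toFinset).biUnion P).card : ℕ) : ℝ) ≤
        (s + t + 1) * ((C1 * C2) * γ ^ t * Real.log X) := by
    intro QD hQD c hc t' ht' w hw
    have h1 : (((I QD c ∪ w.toFinset).biUnion P).card : ℝ) ≤
        ∑ u ∈ I QD c ∪ w.toFinset, ((P u).card : ℝ) := by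
      exact_mod_cast Finset.card_biUnion_le
    refine h1.trans ((Finset.sum_le_sum fun u hu => hone QD hQD c hc t' ht' w hw u hu).trans ?_)
    rw [Finset.sum_const, nsmul_eq_mul]
    refine mul_le_mul_of_nonneg_right ?_ hB0
    have h2 := card_union_le'' D (I QD c) t' w hw
    have h3 := hIcard QD c
    have h4 := Finset.mem_range.1 ht'
    have h5 : (I QD c ∪ w.toFinset).card ≤ s + t + 1 := by omega
    exact_mod_cast h5
  have hsum2 : ∀ QD ∈ W, ∀ c ∈ box, ∀ t' ∈ Finset.range (t + 1),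
      ((((liftsD D (I QD c) t').biUnion fun w => (I QD c ∪ w.toFinset).biUnion P).card : ℕ) : ℝ) ≤
        Γ * ((s + t + 1) * ((C1 * C2) * γ ^ t * Real.log X)) := by
    intro QD hQD c hc t' ht'
    have h1 : (((liftsD D (I QD c) t').biUnion fun w => (I QD c ∪ w.toFinset).biUnion P).card : ℝ) ≤
        ∑ w ∈ liftsD D (I QD c) t', ((((I QD c ∪ w.toFinset).biUnion P).card : ℕ) : ℝ) := by
      exact_mod_cast Finset.card_biUnion_le
    refine h1.trans ((Finset.sum_le_sum fun w hw => hsum1 QD hQD c hc t' ht' w hw).trans ?_)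
    rw [Finset.sum_const, nsmul_eq_mul]
    refine mul_le_mul_of_nonneg_right ?_ (by positivity)
    have h2 := card_liftsD_le D hD (I QD c) t'
    have h3 := hIcard QD c
    have h4 := Finset.mem_range.1 ht'
    have h5 : ((5 + 4 ^ D) * ((I QD c).card + t' + 1) ^ (D + 1)) ^ t' ≤
        ((5 + 4 ^ D) * (s + t + 1) ^ (D + 1)) ^ t := by
      have h6 : (5 + 4 ^ D) * ((I QD c).card + t' + 1) ^ (D + 1) ≤
          (5 + 4 ^ D) * (s + t + 1) ^ (D + 1) :=
        Nat.mul_le_mul_left _ (Nat.pow_le_pow_left (by omega) _)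
      have h7 : 0 < (5 + 4 ^ D) * (s + t + 1) ^ (D + 1) := by positivity
      exact (Nat.pow_le_pow_left h6 t').trans (Nat.pow_le_pow_right h7 (by omega))
    rw [hΓ]
    exact_mod_cast h2.trans h5
  have hsum3 : ∀ QD ∈ W, ∀ c ∈ box,
      ((((Finset.range (t + 1)).biUnion fun t' => (liftsD D (I QD c) t').biUnion fun w =>
        (I QD c ∪ w.toFinset).biUnion P).card : ℕ) : ℝ) ≤
        (t + 1) * (Γ * ((s + t + 1) * ((C1 * C2) * γ ^ t * Real.log X))) := by
    intro QD hQD c hc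
    have h1 : (((Finset.range (t + 1)).biUnion fun t' => (liftsD D (I QD c) t').biUnion fun w =>
        (I QD c ∪ w.toFinset).biUnion P).card : ℝ) ≤
        ∑ t' ∈ Finset.range (t + 1), ((((liftsD D (I QD c) t').biUnion fun w =>
          (I QD c ∪ w.toFinset).biUnion P).card : ℕ) : ℝ) := by
      exact_mod_cast Finset.card_biUnion_le
    refine h1.trans ((Finset.sum_le_sum fun t' ht' => hsum2 QD hQD c hc t' ht').trans ?_)
    rw [Finset.sum_const, nsmul_eq_mul, Finset.card_range]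
    push_cast
    exact le_rfl
  have hY1 : (1 : ℝ) ≤ Y := by exact_mod_cast hY
  have hboxcard : (box.card : ℝ) ≤ (3 ^ m * (H : ℝ) ^ m) * (3 ^ k * (Y : ℝ) ^ k) := by
    rw [hbox, Finset.card_product, Fintype.card_piFinset, Fintype.card_piFinset]
    simp only [Finset.prod_const, Finset.card_univ, Fintype.card_fin, Int.card_Icc]
    have h1 : ((H : ℤ) + 1 - -(H : ℤ)).toNat = 2 * H + 1 := by omega
    have h2 : ((Y : ℤ) + 1 - -(Y : ℤ)).toNat = 2 * Y + 1 := by omega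
    rw [h1, h2, ← mul_pow, ← mul_pow]
    push_cast
    refine mul_le_mul (pow_le_pow_left₀ (by positivity) (by linarith) _)
      (pow_le_pow_left₀ (by positivity) (by linarith) _) (by positivity) (by positivity)
  have hsum4 : ∀ QD ∈ W,
      (((box.biUnion fun c => (Finset.range (t + 1)).biUnion fun t' =>
        (liftsD D (I QD c) t').biUnion fun w => (I QD c ∪ w.toFinset).biUnion P).card : ℕ) : ℝ) ≤
        ((3 ^ m * (H : ℝ) ^ m) * (3 ^ k * (Y : ℝ) ^ k)) *
        ((t + 1) * (Γ * ((s + t + 1) * ((C1 * C2) * γ ^ t * Real.log X)))) := by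
    intro QD hQD
    have h1 : ((box.biUnion fun c => (Finset.range (t + 1)).biUnion fun t' =>
        (liftsD D (I QD c) t').biUnion fun w => (I QD c ∪ w.toFinset).biUnion P).card : ℝ) ≤
        ∑ c ∈ box, ((((Finset.range (t + 1)).biUnion fun t' =>
        (liftsD D (I QD c) t').biUnion fun w => (I QD c ∪ w.toFinset).biUnion P).card : ℕ) : ℝ) := by
      exact_mod_cast Finset.card_biUnion_le
    refine h1.trans ((Finset.sum_le_sum fun c hc => hsum3 QD hQD c hc).trans ?_)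
    rw [Finset.sum_const, nsmul_eq_mul]
    refine mul_le_mul_of_nonneg_right hboxcard ?_
    positivity
  have hfinal : (S.card : ℝ) ≤ W.card * (((3 ^ m * (H : ℝ) ^ m) * (3 ^ k * (Y : ℝ) ^ k)) *
        ((t + 1) * (Γ * ((s + t + 1) * ((C1 * C2) * γ ^ t * Real.log X))))) := by
    have h0 := Finset.card_le_card hcov
    have h1 : (S.card : ℝ) ≤ ∑ QD ∈ W, (((box.biUnion fun c => (Finset.range (t + 1)).biUnion
        fun t' => (liftsD D (I QD c) t').biUnion fun w => (I QD c ∪ w.toFinset).biUnion P).card :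
          ℕ) : ℝ) := by
      exact_mod_cast h0.trans Finset.card_biUnion_le
    refine h1.trans ((Finset.sum_le_sum fun QD hQD => hsum4 QD hQD).trans ?_)
    rw [Finset.sum_const, nsmul_eq_mul]
  refine hfinal.trans ?_
  have hst : ((t : ℝ) + 1) ≤ s + t + 1 := by
    have : (0 : ℝ) ≤ s := Nat.cast_nonneg _
    linarith
  have e1 : ((5 + 4 ^ D) * γ * ((s : ℝ) + t + 1) ^ (D + 1)) ^ t = Γ * γ ^ t := by
    rw [hΓ, ← mul_pow]
    congr 1
    ring
  rw [e1]
  have hnn : 0 ≤ W.card * ((3 ^ m * (H : ℝ) ^ m) * (3 ^ k * (Y : ℝ) ^ k)) * (Γ * ((s + t + 1) *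
      ((C1 * C2) * γ ^ t * Real.log X))) := by positivity
  calc (W.card : ℝ) * (((3 ^ m * (H : ℝ) ^ m) * (3 ^ k * (Y : ℝ) ^ k)) *
        ((t + 1) * (Γ * ((s + t + 1) * ((C1 * C2) * γ ^ t * Real.log X)))))
      = (t + 1) * (W.card * ((3 ^ m * (H : ℝ) ^ m) * (3 ^ k * (Y : ℝ) ^ k)) * (Γ * ((s + t + 1) *
      ((C1 * C2) * γ ^ t * Real.log X)))) := by ring
    _ ≤ (s + t + 1) * (W.card * ((3 ^ m * (H : ℝ) ^ m) * (3 ^ k * (Y : ℝ) ^ k)) *
        (Γ * ((s + t + 1) * ((C1 * C2) * γ ^ t * Real.log X)))) :=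
        mul_le_mul_of_nonneg_right hst hnn
    _ = _ := by ring

end Pool.Agent.Lib.MP_6ac54e_lc.NoR
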