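import Mathlib
import Pool.Agent.Lib.MP_6ac54e_lc.RootCount
import Pool.Agent.Lib.MP_6ac54e_lc.NoHint

open NumberField Polynomial

namespace Pool.Agent.Lib.MP_6ac54e_lc.NoR

open NoF (op hv map_hv hv_mul card_primeFactors_le len pt norm_pt growth kappa_pt inp
  exists_elements hint finite_bounded coordPoly)

variable {K L : Type*} [Field K] [NumberField K] [Field L] [NumberField L]

/-- a balanced integer of `L` whose ideal is a product of conjugates of `P` -/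
def Hint (K : Type*) [Field K] [NumberField K] {L : Type*} [Field L] [NumberField L]
    (M : ℕ) (C₀ : ℝ) (P : Ideal (𝓞 K)) (z : 𝓞 L) : Prop :=
  ∃ mm : (K →+* L) → ℕ, (∀ σ, mm σ ≤ M) ∧
    Ideal.span {z} = ∏ σ, (P.map (RingOfIntegers.mapRingHom σ)) ^ mm σ ∧
    ∀ τ : L →+* ℂ, ‖τ (z : L)‖ ≤
      C₀ * (Ideal.absNorm P : ℝ) ^ (((∑ σ, mm σ : ℕ) : ℝ) / (Module.finrank ℚ K : ℝ))

/-- the inputs: `1`, the small integers and the coordinates of the hints -/
def inputs (K : Type*) [Field K] [NumberField K] {L : Type*} [Field L] [NumberField L]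
    {ι : Type*} (b : Module.Basis ι ℤ (𝓞 L)) (M : ℕ) (C₀ : ℝ) (P : Ideal (𝓞 K)) {k : ℕ}
    (a : Fin k → ℤ) (F : Type*) [Field F] : Set F :=
  {x | x = 1 ∨ (∃ j, x = ((a j : ℤ) : F)) ∨
    ∃ z : 𝓞 L, Hint K M C₀ P z ∧ ∃ i, x = ((b.repr z i : ℤ) : F)}

/-- a root can be computed by `t` operations -/
def RootIn (K : Type*) [Field K] [NumberField K] {L : Type*} [Field L] [NumberField L]
    {ι : Type*} (b : Module.Basis ι ℤ (𝓞 L)) (f : ℤ[X]) (D M k : ℕ) (C₀ : ℝ) (p : ℕ)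
    (t : ℕ) : Prop :=
  ∃ _ : Fact p.Prime, ∃ (P : Ideal (𝓞 K)) (a : Fin k → ℤ), Ideal.absNorm P = p ∧
    (∀ j, (a j).natAbs ^ (2 * Module.finrank ℚ K * k) ≤ p) ∧
    ∃ (l : List (AlgebraicClosure (ZMod p))) (r : AlgebraicClosure (ZMod p)), l.length ≤ t ∧
      RunD D (inputs K b M C₀ P a (AlgebraicClosure (ZMod p))) l ∧
      (r ∈ inputs K b M C₀ P a (AlgebraicClosure (ZMod p)) ∨ r ∈ l) ∧ aeval r f = 0

/-- the generic element -/
noncomputable def gen {m : ℕ} (e : Fin m → 𝓞 K) (η : 𝓞 L) (mm : (K →+* L) → ℕ) :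
    MvPolynomial (Fin (m + 1)) (𝓞 L) :=
  MvPolynomial.C η * ∏ σ, (MvPolynomial.X 0 + ∑ i : Fin m,
    MvPolynomial.X i.succ * MvPolynomial.C (RingOfIntegers.mapRingHom σ (e i))) ^ mm σ

theorem eval_gen {m : ℕ} (e : Fin m → 𝓞 K) (η : 𝓞 L) (mm : (K →+* L) → ℕ) (c0 : ℤ)
    (c : Fin m → ℤ) :
    MvPolynomial.eval (fun i => (((Fin.cons c0 c : Fin (m + 1) → ℤ) i : ℤ) : 𝓞 L)) (gen e η mm) =
      η * ∏ σ, (RingOfIntegers.mapRingHom σ ((c0 : 𝓞 K) + ∑ i, (c i : 𝓞 K) * e i)) ^ mm σ := by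
  rw [gen, map_mul, MvPolynomial.eval_C, map_prod]
  congr 1
  refine Finset.prod_congr rfl fun σ _ => ?_
  rw [map_pow, map_add, MvPolynomial.eval_X, map_sum, map_add, map_sum, map_intCast, Fin.cons_zero]
  congr 2
  refine Finset.sum_congr rfl fun i _ => ?_
  rw [map_mul, MvPolynomial.eval_X, MvPolynomial.eval_C, Fin.cons_succ, map_mul, map_intCast]

theorem main_countD {ι : Type*} [Fintype ι] (b : Module.Basis ι ℤ (𝓞 L)) (f : ℤ[X]) (D : ℕ)
    (hD : 1 ≤ D) (hf : ∀ g : K[X], Irreducible g → g ∣ f.map (algebraMap ℤ K) →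
      ∃ q : ℕ, q.Prime ∧ D < q ∧ q ∣ g.natDegree) (M k : ℕ) (C₀ : ℝ) :
    ∃ (C : ℝ) (s : ℕ), 0 ≤ C ∧ ∀ X : ℝ, 2 ≤ X → ∀ t : ℕ, ∀ S : Finset ℕ,
      (∀ p ∈ S, (p : ℝ) ≤ X ∧ RootIn K b f D M k C₀ p t) →
      (S.card : ℝ) ≤ C * X ^ (1 - 1 / (2 * (Module.finrank ℚ K : ℝ))) *
        (((5 + 4 ^ D) * ((D : ℝ) ^ D * (2 * (D + 1))) * (s + t + 1) ^ (D + 1)) ^ t *
          (s + t + 1) ^ 2) * Real.log X := by
  classical
  obtain ⟨m, e, hn, he⟩ := exists_elements (K := K)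
  obtain ⟨B, C₁, hB, hhint⟩ := hint (L := L) hn e he M C₀
  set E : Set (𝓞 L) := {η : 𝓞 L | ∀ τ : L →+* ℂ, ‖τ (η : L)‖ ≤ C₁} with hE
  have hEfin : Finite E := (finite_bounded C₁).to_subtype
  have hEft : Fintype E := Fintype.ofFinite E
  have hQ : ∀ (η : 𝓞 L) (mm : (K →+* L) → ℕ) (i : ι), ∃ Q : MvPolynomial (Fin (m + 1)) ℤ,
      ∀ x : Fin (m + 1) → ℤ, MvPolynomial.eval x Q =
        b.repr (MvPolynomial.eval (fun i => ((x i : ℤ) : 𝓞 L)) (gen e η mm)) i :=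
    fun η mm i => coordPoly b i (gen e η mm)
  choose Q hQ using hQ
  let F : Fin (B + 1) →
      (Option (((K →+* L) → Fin (M + 1)) × E × ι) → MvPolynomial (Fin (m + 1)) ℤ) ×
      (Option (((K →+* L) → Fin (M + 1)) × E × ι) → ℤ) := fun q =>
    (fun o => o.elim 1 fun x => Q x.2.1 (fun σ => (x.1 σ : ℕ)) x.2.2,
      fun o => o.elim 1 fun x => ((q : ℕ) : ℤ) ^ ∑ σ, (x.1 σ : ℕ))
  let W := (Finset.univ : Finset (Fin (B + 1))).image F
  obtain ⟨C, hC, hcount⟩ := countD e f D hD hf k W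
  have hl2 : (0 : ℝ) < Real.log 2 := Real.log_pos (by norm_num)
  have hDR : (1 : ℝ) ≤ D := by exact_mod_cast hD
  refine ⟨C + (B + 1) / Real.log 2,
    Fintype.card (Option (((K →+* L) → Fin (M + 1)) × E × ι)) + k, by positivity,
    fun X hX t S hS => ?_⟩
  have hX0 : 0 < X := by linarith
  have hX1 : 0 < Real.log X := Real.log_pos (by linarith)
  have hlX : Real.log 2 ≤ Real.log X := Real.log_le_log (by norm_num) hX
  have hnR : (Module.finrank ℚ K : ℝ) = (m : ℝ) + 1 := by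
    rw [hn]; push_cast; rfl
  have hm0 : (0 : ℝ) ≤ m := Nat.cast_nonneg _
  set s : ℕ := Fintype.card (Option (((K →+* L) → Fin (M + 1)) × E × ι)) + k with hs
  set T : ℝ := ((5 + 4 ^ D) * ((D : ℝ) ^ D * (2 * (D + 1))) * ((s : ℝ) + t + 1) ^ (D + 1)) ^ t *
    ((s : ℝ) + t + 1) ^ 2 with hT
  have hs0 : (0 : ℝ) ≤ s := Nat.cast_nonneg _
  have ht0 : (0 : ℝ) ≤ t := Nat.cast_nonneg _
  have hT1 : 1 ≤ T := by
    have h0 : (1 : ℝ) ≤ (s : ℝ) + t + 1 := by linarith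
    have h1 : (1 : ℝ) ≤ ((s : ℝ) + t + 1) ^ 2 := one_le_pow₀ h0
    have h2 : (1 : ℝ) ≤ ((s : ℝ) + t + 1) ^ (D + 1) := one_le_pow₀ h0
    have h3 : (1 : ℝ) ≤ (D : ℝ) ^ D := one_le_pow₀ hDR
    have h4 : (1 : ℝ) ≤ 5 + 4 ^ D := by
      have : (0 : ℝ) ≤ 4 ^ D := by positivity
      linarith
    have h5 : (1 : ℝ) ≤ (D : ℝ) ^ D * (2 * (D + 1)) := by nlinarith
    have h6 : (1 : ℝ) ≤ (5 + 4 ^ D) * ((D : ℝ) ^ D * (2 * (D + 1))) * ((s : ℝ) + t + 1) ^ (D + 1) :=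
      one_le_mul_of_one_le_of_one_le (one_le_mul_of_one_le_of_one_le h4 h5) h2
    exact one_le_mul_of_one_le_of_one_le (one_le_pow₀ h6) h1
  -- small primes
  set S1 := S.filter fun p => p ≤ B with hS1
  set S2 := S.filter fun p => ¬ p ≤ B with hS2
  have hsplit : S.card = S1.card + S2.card := by
    rw [hS1, hS2, Finset.card_filter_add_card_filter_not]
  have hc1 : (S1.card : ℝ) ≤ B + 1 := by
    have : S1 ⊆ Finset.range (B + 1) := by
      intro p hp
      rw [hS1, Finset.mem_filter] at hp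
      exact Finset.mem_range.2 (by omega)
    have := Finset.card_le_card this
    rw [Finset.card_range] at this
    exact_mod_cast this
  set H : ℕ := ⌊X ^ (1 / ((m : ℝ) + 1))⌋₊ with hH
  have hpow1 : (1 : ℝ) ≤ X ^ (1 / ((m : ℝ) + 1)) :=
    Real.one_le_rpow (by linarith) (by positivity)
  have hH1 : 1 ≤ H := Nat.le_floor (by simpa using hpow1)
  have hHle : (H : ℝ) ≤ X ^ (1 / ((m : ℝ) + 1)) := Nat.floor_le (by linarith)
  have hHX : (H : ℝ) ≤ X := by
    refine hHle.trans ?_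
    calc X ^ (1 / ((m : ℝ) + 1)) ≤ X ^ (1 : ℝ) :=
          Real.rpow_le_rpow_of_exponent_le (by linarith) (by
            rw [div_le_one (by positivity)]
            linarith)
      _ = X := Real.rpow_one X
  have hHm : (H : ℝ) ^ m ≤ X ^ (1 - 1 / (Module.finrank ℚ K : ℝ)) := by
    calc (H : ℝ) ^ m ≤ (X ^ (1 / ((m : ℝ) + 1))) ^ m := pow_le_pow_left₀ (by positivity) hHle _
      _ = X ^ (1 - 1 / (Module.finrank ℚ K : ℝ)) := by
          rw [← Real.rpow_natCast, ← Real.rpow_mul hX0.le, hnR]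
          congr 1
          field_simp
          ring
  set ε : ℝ := 1 / (2 * (Module.finrank ℚ K : ℝ) * k) with hε
  have hε0 : 0 ≤ ε := by positivity
  have hε1 : ε ≤ 1 := by
    rw [hε]
    rcases Nat.eq_zero_or_pos k with hk | hk
    · rw [hk]
      simp
    · have hk1 : (1 : ℝ) ≤ k := by exact_mod_cast hk
      rw [div_le_one (by rw [hnR]; positivity), hnR]
      nlinarith
  have hεk : ε * k ≤ 1 / (2 * (Module.finrank ℚ K : ℝ)) := by
    rw [hε]
    rcases Nat.eq_zero_or_pos k with hk | hk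
    · rw [hk]
      simp
    · have hk1 : (0 : ℝ) < k := by exact_mod_cast hk
      have hn0 : (0 : ℝ) < (Module.finrank ℚ K : ℝ) := by rw [hnR]; positivity
      apply le_of_eq
      field_simp
  set Y : ℕ := ⌊X ^ ε⌋₊ with hY
  have hYpow1 : (1 : ℝ) ≤ X ^ ε := Real.one_le_rpow (by linarith) hε0
  have hY1 : 1 ≤ Y := Nat.le_floor (by simpa using hYpow1)
  have hYle : (Y : ℝ) ≤ X ^ ε := Nat.floor_le (by linarith)
  have hYX : (Y : ℝ) ≤ X := by
    refine hYle.trans ?_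
    calc X ^ ε ≤ X ^ (1 : ℝ) := Real.rpow_le_rpow_of_exponent_le (by linarith) hε1
      _ = X := Real.rpow_one X
  have hYk : (Y : ℝ) ^ k ≤ X ^ (1 / (2 * (Module.finrank ℚ K : ℝ))) := by
    calc (Y : ℝ) ^ k ≤ (X ^ ε) ^ k := pow_le_pow_left₀ (by positivity) hYle _
      _ = X ^ (ε * k) := by rw [← Real.rpow_natCast, ← Real.rpow_mul hX0.le]
      _ ≤ _ := Real.rpow_le_rpow_of_exponent_le (by linarith) hεk
  have hHY : (H : ℝ) ^ m * (Y : ℝ) ^ k ≤ X ^ (1 - 1 / (2 * (Module.finrank ℚ K : ℝ))) := by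
    calc (H : ℝ) ^ m * (Y : ℝ) ^ k ≤ X ^ (1 - 1 / (Module.finrank ℚ K : ℝ)) *
          X ^ (1 / (2 * (Module.finrank ℚ K : ℝ))) :=
          mul_le_mul hHm hYk (by positivity) (by positivity)
      _ = _ := by
          rw [← Real.rpow_add hX0]
          congr 1
          rw [hnR]
          field_simp
          ring
  have hc2 : (S2.card : ℝ) ≤ C * ((H : ℝ) ^ m * (Y : ℝ) ^ k) * T * Real.log X := by
    have h := hcount X hX H hH1 hHX Y hY1 hYX t S2 ?_
    · have hcast : (Fintype.card (Option (((K →+* L) → Fin (M + 1)) × E × ι)) : ℝ) + k = s := by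
        rw [hs]; push_cast; rfl
      rw [hcast] at h
      exact h
    intro p hp
    rw [hS2, Finset.mem_filter] at hp
    obtain ⟨hpS, hpB⟩ := hp
    obtain ⟨hpX, hpp, P, a, hP, ha, l, r, hlt, hl, hr, hrf⟩ := hS p hpS
    have hprime : p.Prime := hpp.out
    have hp0 : (0 : ℝ) < p := by exact_mod_cast hprime.pos
    obtain ⟨κ, c0, c, q, hc, hκ, hq1, hqB, hh⟩ := hhint p hprime P hP
    have hc' : ∀ i, |c i| ≤ (H : ℤ) := by
      intro i
      have h1 : |(c i : ℝ)| ≤ X ^ (1 / ((m : ℝ) + 1)) :=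
        (hc i).trans (Real.rpow_le_rpow hp0.le hpX (by positivity))
      have h2 : ((c i).natAbs : ℝ) ≤ X ^ (1 / ((m : ℝ) + 1)) := by
        rw [Nat.cast_natAbs]
        push_cast
        exact h1
      have h3 : (c i).natAbs ≤ H := Nat.le_floor h2
      rw [Int.abs_eq_natAbs]
      exact Int.ofNat_le.2 h3
    have ha' : ∀ j, |a j| ≤ (Y : ℤ) := by
      intro j
      have hk : 0 < k := j.pos
      have hkR : (0 : ℝ) < k := by exact_mod_cast hk
      have hn0 : (0 : ℝ) < (Module.finrank ℚ K : ℝ) := by rw [hnR]; positivity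
      have h1 : ((a j).natAbs : ℝ) ^ (2 * Module.finrank ℚ K * k) ≤ X := by
        have : (((a j).natAbs ^ (2 * Module.finrank ℚ K * k) : ℕ) : ℝ) ≤ p := by
          exact_mod_cast ha j
        push_cast at this
        linarith
      have h2 : ((a j).natAbs : ℝ) ≤ X ^ ε := by
        have h3 : ((a j).natAbs : ℝ) = (((a j).natAbs : ℝ) ^ (2 * Module.finrank ℚ K * k)) ^ ε := by
          rw [← Real.rpow_natCast, ← Real.rpow_mul (Nat.cast_nonneg _)]
          have : ((2 * Module.finrank ℚ K * k : ℕ) : ℝ) * ε = 1 := by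
            rw [hε]
            push_cast
            field_simp
          rw [this, Real.rpow_one]
        rw [h3]
        exact Real.rpow_le_rpow (by positivity) h1 hε0
      have h3 : (a j).natAbs ≤ Y := Nat.le_floor h2
      rw [Int.abs_eq_natAbs]
      exact Int.ofNat_le.2 h3
    have hpq : ¬ (p : ℤ) ∣ (q : ℤ) := by
      intro h
      have := Nat.le_of_dvd hq1 (Int.natCast_dvd_natCast.1 h)
      omega
    have hinp : inputs K b M C₀ P a (AlgebraicClosure (ZMod p)) ⊆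
        algebraMap (ZMod p) (AlgebraicClosure (ZMod p)) '' inp p (F ⟨q, by omega⟩) c0 c a := by
      rintro x (rfl | ⟨j, rfl⟩ | ⟨z, hz, i, rfl⟩)
      · exact ⟨1, Or.inl ⟨none, by simp [F]⟩, by simp⟩
      · exact ⟨_, Or.inr ⟨j, rfl⟩, by simp⟩
      · refine ⟨((b.repr z i : ℤ) : ZMod p), Or.inl ?_, by simp⟩
        obtain ⟨mm, h1, h2, h3⟩ := hz
        rw [hP, hnR] at h3
        obtain ⟨η, h4, h5⟩ := hh mm z h1 h2 h3
        refine ⟨some (fun σ => ⟨mm σ, Nat.lt_succ_of_le (h1 σ)⟩, ⟨η, h4⟩, i), ?_⟩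
        have h6 : MvPolynomial.eval (Fin.cons c0 c : Fin (m + 1) → ℤ) (Q η mm i) =
            (q : ℤ) ^ (∑ σ, mm σ) * b.repr z i := by
          rw [hQ, eval_gen, ← h5]
          have h7 : (q : 𝓞 L) ^ (∑ σ, mm σ) * z = ((q : ℤ) ^ (∑ σ, mm σ)) • z := by
            rw [zsmul_eq_mul]
            push_cast
            rfl
          rw [h7, map_zsmul, Finsupp.smul_apply, smul_eq_mul]
        have h8 : (((q : ℤ) ^ (∑ σ, mm σ) : ℤ) : ZMod p) ≠ 0 := by
          rw [Int.cast_pow]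
          apply pow_ne_zero
          intro h
          exact hpq ((ZMod.intCast_zmod_eq_zero_iff_dvd _ p).1 h)
        change ((MvPolynomial.eval (Fin.cons c0 c : Fin (m + 1) → ℤ) (Q η mm i) : ℤ) : ZMod p) /
          (((q : ℤ) ^ (∑ σ, mm σ) : ℤ) : ZMod p) = ((b.repr z i : ℤ) : ZMod p)
        rw [h6, Int.cast_mul, mul_div_cancel_left₀ _ h8]
    refine ⟨hpp, κ, c0, c, a, hc', ha', hκ, F ⟨q, by omega⟩,
      Finset.mem_image_of_mem _ (Finset.mem_univ _), ?_, l, hlt, hl.mono hinp, r,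
      hr.imp (fun h => hinp h) id, hrf⟩
    intro o h
    rcases o with _ | ⟨mm, η, i⟩
    · have h1 : (p : ℤ) ∣ 1 := h
      have h2 : (p : ℤ) = 1 := Int.eq_one_of_dvd_one (by positivity) h1
      exact hprime.one_lt.ne' (by exact_mod_cast h2)
    · have h1 : (p : ℤ) ∣ (q : ℤ) ^ ∑ σ, (mm σ : ℕ) := h
      exact hpq ((Nat.prime_iff_prime_int.1 hprime).dvd_of_dvd_pow h1)
  have hXr1 : (1 : ℝ) ≤ X ^ (1 - 1 / (2 * (Module.finrank ℚ K : ℝ))) := by
    apply Real.one_le_rpow (by linarith)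
    rw [hnR, sub_nonneg, div_le_one (by positivity)]
    linarith
  rw [hsplit]
  push_cast
  have e1 : (B : ℝ) + 1 ≤ (B + 1) / Real.log 2 * X ^ (1 - 1 / (2 * (Module.finrank ℚ K : ℝ))) * T *
      Real.log X := by
    calc (B : ℝ) + 1 = (B + 1) / Real.log 2 * 1 * 1 * Real.log 2 := by field_simp
      _ ≤ _ := by gcongr
  have e2 : C * ((H : ℝ) ^ m * (Y : ℝ) ^ k) * T * Real.log X ≤
      C * X ^ (1 - 1 / (2 * (Module.finrank ℚ K : ℝ))) * T * Real.log X := by gcongr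
  calc (S1.card : ℝ) + S2.card ≤ (B + 1) + C * ((H : ℝ) ^ m * (Y : ℝ) ^ k) * T * Real.log X :=
        add_le_add hc1 hc2
    _ ≤ (B + 1) / Real.log 2 * X ^ (1 - 1 / (2 * (Module.finrank ℚ K : ℝ))) * T * Real.log X +
        C * X ^ (1 - 1 / (2 * (Module.finrank ℚ K : ℝ))) * T * Real.log X := add_le_add e1 e2
    _ = _ := by ring

end Pool.Agent.Lib.MP_6ac54e_lc.NoR
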