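import Mathlib
import Pool.Agent.Lib.MP_6ac54e_lc.RootMain

open NumberField Polynomial

namespace Pool.Agent.Lib.MP_6ac54e_lc.NoR

/-- `t / log t` is increasing -/
theorem steps_mono {u v δ : ℝ} (hu : Real.exp 1 ≤ u) (huv : u ≤ v) {t : ℝ} (ht : 0 ≤ t)
    (h : t * Real.log u ≤ δ * u) : t * Real.log v ≤ δ * v := by
  have hu0 : 0 < u := lt_of_lt_of_le (Real.exp_pos 1) hu
  have hv0 : 0 < v := lt_of_lt_of_le hu0 huv
  have h1 := Real.log_div_self_antitoneOn (a := u) (b := v) hu (hu.trans huv) huv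
  simp only at h1
  have h2 : t * Real.log v = t * v * (Real.log v / v) := by field_simp
  rw [h2]
  calc t * v * (Real.log v / v) ≤ t * v * (Real.log u / u) :=
        mul_le_mul_of_nonneg_left h1 (by positivity)
    _ = (v / u) * (t * Real.log u) := by field_simp
    _ ≤ (v / u) * (δ * u) := mul_le_mul_of_nonneg_left h (by positivity)
    _ = δ * v := by field_simp

/-- the number of computations is small -/
theorem size_leD (s D : ℕ) (hD : 1 ≤ D) {δ : ℝ} (hδ : 0 < δ) (hδ1 : 2 * δ ≤ 1) :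
    ∃ C X0 : ℝ, 0 ≤ C ∧ 16 ≤ X0 ∧ ∀ X : ℝ, X0 ≤ X → ∀ t : ℕ,
      (t : ℝ) * Real.log (Real.log X) ≤ δ * Real.log X →
      (((5 + 4 ^ D) * ((D : ℝ) ^ D * (2 * (D + 1))) * ((s : ℝ) + t + 1) ^ (D + 1)) ^ t *
        ((s : ℝ) + t + 1) ^ 2) * Real.log X ≤ C * X ^ ((D + 3) * δ) := by
  set c : ℝ := (5 + 4 ^ D) * ((D : ℝ) ^ D * (2 * (D + 1))) with hc
  have hc0 : 0 ≤ c := by positivity
  refine ⟨(3 / δ) ^ 3, Real.exp (2 * s + c + 12), by positivity, ?_, fun X hX t ht => ?_⟩
  · have h1 : Real.exp 3 ≤ Real.exp (2 * s + c + 12) := by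
      apply Real.exp_le_exp.2
      have : (0 : ℝ) ≤ s := Nat.cast_nonneg _
      linarith
    have h2 : (16 : ℝ) ≤ Real.exp 3 := by
      have h3 := Real.exp_one_gt_d9
      have h4 : Real.exp 3 = Real.exp 1 ^ 3 := by
        rw [← Real.exp_nat_mul]
        norm_num
      rw [h4]
      have h5 : (2.7 : ℝ) ^ 3 ≤ Real.exp 1 ^ 3 := pow_le_pow_left₀ (by norm_num) (by linarith) 3
      norm_num at h5
      linarith
    linarith
  · have hX0 : 0 < X := lt_of_lt_of_le (Real.exp_pos _) hX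
    set x := Real.log X with hx
    have hxge : 2 * (s : ℝ) + c + 12 ≤ x := by
      rw [hx, Real.le_log_iff_exp_le hX0]
      exact hX
    have hs0 : (0 : ℝ) ≤ s := Nat.cast_nonneg _
    have hx0 : 0 < x := by linarith
    have ht0 : (0 : ℝ) ≤ t := Nat.cast_nonneg _
    set y := Real.log x with hy
    have hy1 : 1 ≤ y := by
      rw [hy, Real.le_log_iff_exp_le hx0]
      have := Real.exp_one_lt_d9
      linarith
    have htx : (t : ℝ) ≤ δ * x := by nlinarith
    have hst : (s : ℝ) + t + 1 ≤ x := by nlinarith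
    have hst0 : (0 : ℝ) ≤ s + t + 1 := by linarith
    have hxy : x = Real.exp y := by rw [hy, Real.exp_log hx0]
    have h1 : (c * ((s : ℝ) + t + 1) ^ (D + 1)) ^ t ≤ X ^ ((D + 2) * δ) := by
      calc (c * ((s : ℝ) + t + 1) ^ (D + 1)) ^ t ≤ (x * x ^ (D + 1)) ^ t := by
            apply pow_le_pow_left₀ (by positivity)
            apply mul_le_mul (by linarith) (pow_le_pow_left₀ hst0 hst _) (by positivity) hx0.le
        _ = Real.exp ((D + 2) * (t * y)) := by
            have : x * x ^ (D + 1) = Real.exp (((D + 2 : ℕ) : ℝ) * y) := by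
              rw [Real.exp_nat_mul, ← hxy]
              ring
            rw [this, ← Real.exp_nat_mul]
            congr 1
            push_cast
            ring
        _ ≤ Real.exp (x * ((D + 2) * δ)) := by
            apply Real.exp_le_exp.2
            have : (0 : ℝ) ≤ (D : ℝ) + 2 := by positivity
            nlinarith
        _ = X ^ ((D + 2) * δ) := by
            rw [Real.rpow_def_of_pos hX0]
    have h2 : ((s : ℝ) + t + 1) ^ 2 * x ≤ (3 / δ) ^ 3 * X ^ δ := by
      have h3 : x ≤ (3 / δ) * Real.exp (δ * x / 3) := by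
        have h4 := Real.add_one_le_exp (δ * x / 3)
        have h5 : δ * x / 3 ≤ Real.exp (δ * x / 3) := by linarith
        calc x = (3 / δ) * (δ * x / 3) := by field_simp
          _ ≤ _ := mul_le_mul_of_nonneg_left h5 (by positivity)
      calc ((s : ℝ) + t + 1) ^ 2 * x ≤ x ^ 2 * x := by
            apply mul_le_mul_of_nonneg_right (pow_le_pow_left₀ hst0 hst 2) hx0.le
        _ = x ^ 3 := by ring
        _ ≤ ((3 / δ) * Real.exp (δ * x / 3)) ^ 3 := pow_le_pow_left₀ hx0.le h3 3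
        _ = (3 / δ) ^ 3 * X ^ δ := by
            rw [mul_pow, ← Real.exp_nat_mul, Real.rpow_def_of_pos hX0]
            congr 2
            push_cast
            ring
    calc ((c * ((s : ℝ) + t + 1) ^ (D + 1)) ^ t * ((s : ℝ) + t + 1) ^ 2) * x
        = (c * ((s : ℝ) + t + 1) ^ (D + 1)) ^ t * (((s : ℝ) + t + 1) ^ 2 * x) := by ring
      _ ≤ X ^ ((D + 2) * δ) * ((3 / δ) ^ 3 * X ^ δ) := by
          apply mul_le_mul h1 h2 (by positivity) (by positivity)
      _ = (3 / δ) ^ 3 * (X ^ ((D + 2) * δ) * X ^ δ) := by ring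
      _ = _ := by
          rw [← Real.rpow_add hX0]
          congr 2
          ring

variable {K L : Type*} [Field K] [NumberField K] [Field L] [NumberField L]

theorem RootIn.mono {ι : Type*} {b : Module.Basis ι ℤ (𝓞 L)} {f : ℤ[X]} {D M k : ℕ} {C₀ : ℝ}
    {p t t' : ℕ} (h : RootIn K b f D M k C₀ p t) (ht : t ≤ t') : RootIn K b f D M k C₀ p t' := by
  obtain ⟨hp, P, a, h1, h2, l, r, h3, h4⟩ := h
  exact ⟨hp, P, a, h1, h2, l, r, h3.trans ht, h4⟩

/-- easy primes -/
def Easy (K : Type*) [Field K] [NumberField K] {L : Type*} [Field L] [NumberField L]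
    {ι : Type*} (b : Module.Basis ι ℤ (𝓞 L)) (f : ℤ[X]) (D M k : ℕ) (C₀ δ : ℝ) (p : ℕ) : Prop :=
  ∃ t : ℕ, (t : ℝ) * Real.log (Real.log p) ≤ δ * Real.log p ∧ RootIn K b f D M k C₀ p t

theorem easy_countD {ι : Type*} [Fintype ι] (b : Module.Basis ι ℤ (𝓞 L)) (f : ℤ[X]) (D : ℕ)
    (hD : 1 ≤ D) (hf : ∀ g : K[X], Irreducible g → g ∣ f.map (algebraMap ℤ K) →
      ∃ q : ℕ, q.Prime ∧ D < q ∧ q ∣ g.natDegree) (M k : ℕ) (C₀ : ℝ) {δ : ℝ}
    (hδ : δ = 1 / (2 * (Module.finrank ℚ K : ℝ) * (D + 4))) :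
    ∃ C : ℝ, 0 ≤ C ∧ ∀ X : ℝ, 2 ≤ X → ∀ S : Finset ℕ,
      (∀ p ∈ S, (p : ℝ) ≤ X ∧ Easy K b f D M k C₀ δ p) → (S.card : ℝ) ≤ C * X ^ (1 - δ) := by
  classical
  have hn : (1 : ℝ) ≤ (Module.finrank ℚ K : ℝ) := by
    exact_mod_cast (Module.finrank_pos : 0 < Module.finrank ℚ K)
  have hDR : (1 : ℝ) ≤ D := by exact_mod_cast hD
  have hδ0 : 0 < δ := by rw [hδ]; positivity
  have hδ1 : δ ≤ 1 / 5 := by
    rw [hδ]
    apply one_div_le_one_div_of_le (by norm_num)
    nlinarith
  obtain ⟨C1, s, hC1, hmain⟩ := main_countD b f D hD hf M k C₀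
  obtain ⟨C2, X0, hC2, hX0, hsize⟩ := size_leD s D hD hδ0 (by linarith)
  refine ⟨(X0 + 1) + C1 * C2 + 17, by positivity, fun X hX S hS => ?_⟩
  have hXpos : 0 < X := by linarith
  have hX1δ : 1 ≤ X ^ (1 - δ) := Real.one_le_rpow (by linarith) (by linarith)
  by_cases hXX0 : X < X0
  · have h1 : S ⊆ Finset.range (⌊X0⌋₊ + 1) := by
      intro p hp
      have h2 := (hS p hp).1
      have h3 : p ≤ ⌊X0⌋₊ := Nat.le_floor (by linarith)
      exact Finset.mem_range.2 (by omega)
    have h2 := Finset.card_le_card h1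
    rw [Finset.card_range] at h2
    have h3 : (S.card : ℝ) ≤ X0 + 1 := by
      have h4 : ((⌊X0⌋₊ : ℕ) : ℝ) ≤ X0 := Nat.floor_le (by linarith)
      have h5 : (S.card : ℝ) ≤ (⌊X0⌋₊ : ℕ) + 1 := by exact_mod_cast h2
      linarith
    have h4 : 0 ≤ C1 * C2 := by positivity
    nlinarith
  · rw [not_lt] at hXX0
    set S1 := S.filter fun p => p < 16 with hS1
    set S2 := S.filter fun p => ¬ p < 16 with hS2
    have hsplit : S.card = S1.card + S2.card := by
      rw [hS1, hS2, Finset.card_filter_add_card_filter_not]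
    have hc1 : (S1.card : ℝ) ≤ 16 := by
      have : S1 ⊆ Finset.range 16 := by
        intro p hp
        rw [hS1, Finset.mem_filter] at hp
        exact Finset.mem_range.2 hp.2
      have := Finset.card_le_card this
      rw [Finset.card_range] at this
      exact_mod_cast this
    have hlogX : 0 < Real.log X := Real.log_pos (by linarith)
    have hll : 0 < Real.log (Real.log X) := by
      apply Real.log_pos
      rw [Real.lt_log_iff_exp_lt hXpos]
      have := Real.exp_one_lt_d9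
      linarith
    set T : ℕ := ⌊δ * Real.log X / Real.log (Real.log X)⌋₊ with hT
    have hTle : (T : ℝ) * Real.log (Real.log X) ≤ δ * Real.log X := by
      have h1 : (T : ℝ) ≤ δ * Real.log X / Real.log (Real.log X) := Nat.floor_le (by positivity)
      rwa [le_div_iff₀ hll] at h1
    have hc2 := hmain X hX T S2 (fun p hp => by
      rw [hS2, Finset.mem_filter] at hp
      obtain ⟨hpS, hp16⟩ := hp
      obtain ⟨hpX, t, ht, hroot⟩ := hS p hpS
      refine ⟨hpX, hroot.mono ?_⟩
      have hp16' : (16 : ℝ) ≤ p := by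
        have : 16 ≤ p := by omega
        exact_mod_cast this
      have hlp : Real.exp 1 ≤ Real.log p := by
        have h1 : Real.log 16 ≤ Real.log p := Real.log_le_log (by norm_num) hp16'
        have h2 : Real.log 16 = 4 * Real.log 2 := by
          rw [show (16 : ℝ) = 2 ^ 4 by norm_num, Real.log_pow]
          norm_num
        have h3 := Real.log_two_gt_d9
        have h4 := Real.exp_one_lt_d9
        linarith
      have h5 := steps_mono hlp (Real.log_le_log (by linarith) hpX) (Nat.cast_nonneg t) ht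
      apply Nat.le_floor
      rw [le_div_iff₀ hll]
      exact h5)
    have h6 := hsize X hXX0 T hTle
    have h7 : (S2.card : ℝ) ≤ C1 * C2 * X ^ (1 - δ) := by
      calc (S2.card : ℝ) ≤ _ := hc2
        _ = C1 * X ^ (1 - 1 / (2 * (Module.finrank ℚ K : ℝ))) *
            ((((5 + 4 ^ D) * ((D : ℝ) ^ D * (2 * (D + 1))) * ((s : ℝ) + T + 1) ^ (D + 1)) ^ T *
              ((s : ℝ) + T + 1) ^ 2) * Real.log X) := by ring
        _ ≤ C1 * X ^ (1 - 1 / (2 * (Module.finrank ℚ K : ℝ))) * (C2 * X ^ ((D + 3) * δ)) :=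
            mul_le_mul_of_nonneg_left h6 (by positivity)
        _ = C1 * C2 * (X ^ (1 - 1 / (2 * (Module.finrank ℚ K : ℝ))) * X ^ ((D + 3) * δ)) := by ring
        _ = C1 * C2 * X ^ (1 - δ) := by
            rw [← Real.rpow_add hXpos]
            congr 2
            rw [hδ]
            field_simp
            ring
    rw [hsplit]
    push_cast
    have h8 : 0 ≤ C1 * C2 := by positivity
    nlinarith

/-- a sparse set of integers has convergent sum of reciprocals -/
theorem summable_of_count (E : Set ℕ) (hE : ∀ p ∈ E, 1 ≤ p) (C δ : ℝ) (hC : 0 ≤ C) (hδ : 0 < δ)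
    (h : ∀ X : ℝ, 2 ≤ X → ∀ S : Finset ℕ, (∀ p ∈ S, (p : ℝ) ≤ X ∧ p ∈ E) →
      (S.card : ℝ) ≤ C * X ^ (1 - δ)) :
    Summable (E.indicator fun p : ℕ => (1 : ℝ) / p) := by
  classical
  set q : ℝ := (2 : ℝ) ^ (-δ) with hq
  have hq0 : 0 < q := Real.rpow_pos_of_pos (by norm_num) _
  have hq1 : q < 1 := by
    rw [hq]
    exact Real.rpow_lt_one_of_one_lt_of_neg (by norm_num) (by linarith)
  have hgeo : Summable fun i : ℕ => q ^ i := summable_geometric_of_lt_one hq0.le hq1
  set D : ℝ := C * 2 ^ (1 - δ) with hD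
  have hD0 : 0 ≤ D := by positivity
  refine summable_of_sum_le (c := D * ∑' i : ℕ, q ^ i)
    (fun p => Set.indicator_nonneg (fun _ _ => by positivity) p) fun u => ?_
  have h1 : ∑ p ∈ u, E.indicator (fun p : ℕ => (1 : ℝ) / p) p =
      ∑ p ∈ u.filter (· ∈ E), (1 : ℝ) / p := by
    rw [Finset.sum_filter]
    refine Finset.sum_congr rfl fun p _ => ?_
    rw [Set.indicator_apply]
  rw [h1]
  set v := u.filter (· ∈ E) with hv
  obtain ⟨N, hN⟩ : ∃ N, ∀ p ∈ v, Nat.log 2 p < N := by
    refine ⟨(v.sup fun p => Nat.log 2 p) + 1, fun p hp => ?_⟩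
    exact Nat.lt_succ_of_le (Finset.le_sup (f := fun p => Nat.log 2 p) hp)
  rw [← Finset.sum_fiberwise_of_maps_to (s := v) (t := Finset.range N) (g := fun p => Nat.log 2 p)
    (fun p hp => Finset.mem_range.2 (hN p hp))]
  have h2 : ∀ i ∈ Finset.range N, ∑ p ∈ v.filter (fun p => Nat.log 2 p = i), (1 : ℝ) / p ≤
      D * q ^ i := by
    intro i _
    have hcard := h (2 ^ (i + 1)) (by
      have : (1 : ℝ) ≤ 2 ^ i := one_le_pow₀ (by norm_num)
      rw [pow_succ]
      linarith) (v.filter (fun p => Nat.log 2 p = i)) (by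
      intro p hp
      rw [Finset.mem_filter, hv, Finset.mem_filter] at hp
      obtain ⟨⟨_, hpE⟩, hlog⟩ := hp
      refine ⟨?_, hpE⟩
      have h3 := Nat.lt_pow_succ_log_self (b := 2) (by norm_num) p
      rw [hlog] at h3
      exact_mod_cast h3.le)
    have h4 : ∀ p ∈ v.filter (fun p => Nat.log 2 p = i), (1 : ℝ) / p ≤ 1 / 2 ^ i := by
      intro p hp
      rw [Finset.mem_filter, hv, Finset.mem_filter] at hp
      obtain ⟨⟨_, hpE⟩, hlog⟩ := hp
      have h5 := Nat.pow_log_le_self 2 (x := p) (by have := hE p hpE; omega)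
      rw [hlog] at h5
      apply one_div_le_one_div_of_le (by positivity)
      exact_mod_cast h5
    calc ∑ p ∈ v.filter (fun p => Nat.log 2 p = i), (1 : ℝ) / p
        ≤ ∑ p ∈ v.filter (fun p => Nat.log 2 p = i), (1 : ℝ) / 2 ^ i := Finset.sum_le_sum h4
      _ = (v.filter (fun p => Nat.log 2 p = i)).card * (1 / 2 ^ i) := by
          rw [Finset.sum_const, nsmul_eq_mul]
      _ ≤ (C * (2 ^ (i + 1)) ^ (1 - δ)) * (1 / 2 ^ i) :=
          mul_le_mul_of_nonneg_right hcard (by positivity)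
      _ = D * q ^ i := by
          have e1 : ((2 : ℝ) ^ (i + 1)) ^ (1 - δ) = 2 ^ (1 - δ) * (2 ^ i * q ^ i) := by
            rw [hq, ← Real.rpow_natCast, ← Real.rpow_natCast, ← Real.rpow_natCast,
              ← Real.rpow_mul (by norm_num), ← Real.rpow_mul (by norm_num),
              ← Real.rpow_add (by norm_num), ← Real.rpow_add (by norm_num)]
            congr 1
            push_cast
            ring
          rw [e1, hD]
          have : (2 : ℝ) ^ i ≠ 0 := by positivity
          field_simp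
  calc ∑ i ∈ Finset.range N, ∑ p ∈ v.filter (fun p => Nat.log 2 p = i), (1 : ℝ) / p
      ≤ ∑ i ∈ Finset.range N, D * q ^ i := Finset.sum_le_sum h2
    _ = D * ∑ i ∈ Finset.range N, q ^ i := by rw [Finset.mul_sum]
    _ ≤ D * ∑' i : ℕ, q ^ i :=
        mul_le_mul_of_nonneg_left (hgeo.sum_le_tsum _ fun i _ => by positivity) hD0

end Pool.Agent.Lib.MP_6ac54e_lc.NoR
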